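import Mathlib

namespace R815.CH

open Finset Filter

noncomputable section

/-- the real valued Moebius function -/
def mu (n : ℕ) : ℝ := ((ArithmeticFunction.moebius n : ℤ) : ℝ)

/-- partial sums are `o(x)` -/
def Small (f : ℕ → ℝ) : Prop :=
  ∀ ε : ℝ, 0 < ε → ∃ X : ℕ, ∀ x : ℕ, X ≤ x → |∑ n ∈ range x, f n| ≤ ε * x

/-- Statement (M) -/
def StM : Prop :=
  ∀ a : ℕ, 1 ≤ a → ∀ S : Finset ℕ, S.Nonempty → ∀ D : Finset ℕ,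
    (fun x : ℕ => ∑ n ∈ Icc 1 x, ((∏ b ∈ S, ((ArithmeticFunction.moebius (a * n + b) : ℤ) : ℝ)) *
      ∏ d ∈ D, (((ArithmeticFunction.moebius (a * n + d) : ℤ) : ℝ)) ^ 2))
      =o[atTop] (fun x : ℕ => (x : ℝ))

/-- Statement (L) -/
def StL : Prop :=
  ∀ a : ℕ, 1 ≤ a → ∀ S : Finset ℕ, S.Nonempty →
    (fun x : ℕ => ∑ n ∈ Icc 1 x, ∏ b ∈ S, ((-1 : ℝ)) ^ (ArithmeticFunction.cardFactors (a * n + b)))
      =o[atTop] (fun x : ℕ => (x : ℝ))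

/-- (M) with `range` sums -/
def SmM : Prop :=
  ∀ a : ℕ, 1 ≤ a → ∀ S : Finset ℕ, S.Nonempty → ∀ D : Finset ℕ,
    Small (fun n => (∏ b ∈ S, mu (a * n + b)) * ∏ d ∈ D, (mu (a * n + d)) ^ 2)

/-- Moebius correlations with general coefficients -/
def S_G : Prop :=
  ∀ (r : ℕ) (A B : Fin r → ℕ), 1 ≤ r → (∀ i, 1 ≤ A i) →
    (∀ i i', i ≠ i' → A i * B i' ≠ A i' * B i) →
    Small (fun n => ∏ i, mu (A i * n + B i))

/-! ### dilation systems -/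

/-- product of all primes of all blocks -/
def bigN {k : ℕ} (P : Fin k → Finset ℕ) : ℕ := ∏ j, ∏ p ∈ P j, p

/-- the dilation attached to a choice `w` of one prime in each block -/
def dil {k : ℕ} (w : Fin k → ℕ) : ℕ := ∏ j, w j

/-- all choices -/
def Om {k : ℕ} (P : Fin k → Finset ℕ) : Finset (Fin k → ℕ) := Fintype.piFinset P

/-- product of all primes not chosen -/
def Nw {k : ℕ} (P : Fin k → Finset ℕ) (w : Fin k → ℕ) : ℕ := ∏ j, ∏ p ∈ (P j).erase (w j), p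

/-- number of choices whose dilation divides `s` -/
def Dc {k : ℕ} (P : Fin k → Finset ℕ) (s : ℕ) : ℕ := ∏ j, ((P j).filter (fun p => p ∣ s)).card

/-- number of not chosen primes dividing `s` -/
def hits {k : ℕ} (P : Fin k → Finset ℕ) (w : Fin k → ℕ) (s : ℕ) : ℕ :=
  ∑ j, (((P j).erase (w j)).filter (fun p => p ∣ s)).card

/-- conditions on the blocks -/
structure Sys {r k : ℕ} (A B : Fin r → ℕ) (P : Fin k → Finset ℕ) : Prop where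
  ne : ∀ j, (P j).Nonempty
  pr : ∀ j, ∀ p ∈ P j, p.Prime
  disj : ∀ j j', j ≠ j' → Disjoint (P j) (P j')
  big : ∀ j, ∀ p ∈ P j, 5 ≤ p
  gA : ∀ j, ∀ p ∈ P j, ∀ i, ¬ p ∣ A i
  gB : ∀ j, ∀ p ∈ P j, ∀ i i', i ≠ i' → ¬ (A i * B i' ≡ A i' * B i [MOD p])

/-- the bad pairs `(w, n)` -/
def Bad {r k : ℕ} (A B : Fin r → ℕ) (P : Fin k → Finset ℕ) (T S : ℕ) (w : Fin k → ℕ) (n : ℕ) : Prop :=
  (∃ i, ∃ j, 2 ≤ (((P j).erase (w j)).filter (fun p => p ∣ A i * n + B i)).card) ∨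
  (∃ i i', i ≠ i' ∧ hits P w (A i * n + B i) ≤ hits P w (A i' * n + B i') + T ∧
    hits P w (A i' * n + B i') ≤ hits P w (A i * n + B i) + T) ∨
  (∃ i, S ≤ hits P w (A i * n + B i))

open Classical in
/-- the finite set of bad `n` for the choice `w` -/
def badF {r k : ℕ} (A B : Fin r → ℕ) (P : Fin k → Finset ℕ) (T S : ℕ) (w : Fin k → ℕ) : Finset ℕ :=
  (range (Nw P w)).filter (fun n => Bad A B P T S w n)

/-- sum of the reciprocals of all primes -/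
def rec1 {k : ℕ} (P : Fin k → Finset ℕ) : ℝ := ∑ j, ∑ p ∈ P j, (1 / (p : ℝ))

/-- sum of the squares of the block sums -/
def rec2 {k : ℕ} (P : Fin k → Finset ℕ) : ℝ := ∑ j, (∑ p ∈ P j, (1 / (p : ℝ))) ^ 2

/-- total number of edges -/
def Ec {k : ℕ} (P : Fin k → Finset ℕ) : ℕ := ∑ w ∈ Om P, Nw P w

/-- the harmonic mean of the dilations -/
def hm {k : ℕ} (P : Fin k → Finset ℕ) : ℝ := ((Om P).card : ℝ) / ∑ w ∈ Om P, (1 / (dil w : ℝ))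

/-! ### the pieces -/

/-- Chinese remainder theorem for product functions -/
def S_CRT : Prop :=
  ∀ (Q : Finset ℕ), (∀ p ∈ Q, p.Prime) → ∀ g : ℕ → ℕ → ℂ,
    ∑ n ∈ range (∏ p ∈ Q, p), ∏ p ∈ Q, g p (n % p) = ∏ p ∈ Q, ∑ t ∈ range p, g p t

/-- two primes dividing the same form -/
def S_DBL : Prop :=
  ∀ (Q : Finset ℕ), (∀ p ∈ Q, p.Prime) → ∀ a b : ℕ, (∀ p ∈ Q, ¬ p ∣ a) →
    ∀ p ∈ Q, ∀ p' ∈ Q, p ≠ p' →
      ((((range (∏ p ∈ Q, p)).filter (fun n => p ∣ a * n + b ∧ p' ∣ a * n + b)).card : ℕ) : ℝ) ≤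
        ((∏ p ∈ Q, p : ℕ) : ℝ) * (1 / (p : ℝ) * (1 / (p' : ℝ)))

/-- Markov inequality for the number of prime divisors -/
def S_MARK : Prop :=
  ∀ (Q : Finset ℕ), (∀ p ∈ Q, p.Prime) → ∀ a b : ℕ, (∀ p ∈ Q, ¬ p ∣ a) → ∀ S : ℕ, 1 ≤ S →
      ((((range (∏ p ∈ Q, p)).filter (fun n => S ≤ (Q.filter (fun p => p ∣ a * n + b)).card)).card : ℕ) : ℝ) ≤
        ((∏ p ∈ Q, p : ℕ) : ℝ) * ((∑ p ∈ Q, (1 / (p : ℝ))) / S)

/-- Fourier bound: the difference of the numbers of prime divisors of two forms is spread out -/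
def S_ANTI : Prop :=
  ∀ (Q : Finset ℕ), (∀ p ∈ Q, p.Prime) → (∀ p ∈ Q, 5 ≤ p) → ∀ a b a' b' : ℕ, (∀ p ∈ Q, ¬ p ∣ a) → (∀ p ∈ Q, ¬ p ∣ a') →
    (∀ p ∈ Q, ¬ (a * b' ≡ a' * b [MOD p])) → ∀ T q : ℕ, 1 ≤ q →
      ((((range (∏ p ∈ Q, p)).filter (fun n =>
          (Q.filter (fun p => p ∣ a * n + b)).card ≤ (Q.filter (fun p => p ∣ a' * n + b')).card + T ∧
          (Q.filter (fun p => p ∣ a' * n + b')).card ≤ (Q.filter (fun p => p ∣ a * n + b)).card + T)).card : ℕ) : ℝ) ≤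
        ((∏ p ∈ Q, p : ℕ) : ℝ) * ((2 * T + 1) *
          (1 / (q : ℝ) + Real.exp (-(16 * (∑ p ∈ Q, (1 / (p : ℝ))) / (q : ℝ) ^ 2))))

/-- few bad pairs -/
def S_RND : Prop :=
  ∀ (r k : ℕ) (A B : Fin r → ℕ) (P : Fin k → Finset ℕ), Sys A B P → ∀ w ∈ Om P,
    ∀ T S q : ℕ, 1 ≤ S → 1 ≤ q → ∀ β : ℝ,
    (r : ℝ) * rec2 P + (r : ℝ) ^ 2 * ((2 * T + 1) * (1 / (q : ℝ) +
      Real.exp (-(16 * (rec1 P - ∑ j, (1 / (w j : ℝ))) / (q : ℝ) ^ 2)))) + (r : ℝ) * (rec1 P / S) ≤ β →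
    ((badF A B P T S w).card : ℝ) ≤ β * (Nw P w : ℝ)

/-- exponential moments -/
def S_EXPM : Prop :=
  ∀ (V : Type) [DecidableEq V] (U : Finset V) (c : V → ℝ) (z : ℕ → V → ℝ),
    (∀ m u, z m u = 0 ∨ z m u = 1 ∨ z m u = -1) →
    (∀ F : Finset V, F ⊆ U → F.Nonempty → ∀ F' : Finset V, F' ⊆ U →
      Small (fun m => (∏ u ∈ F, z m u) * ∏ u ∈ F', (z m u) ^ 2)) →
    ∀ ε : ℝ, 0 < ε → ∃ M0 : ℕ, ∀ M : ℕ, M0 ≤ M →
      ∑ m ∈ range M, Real.exp (∑ u ∈ U, z m u * c u) ≤ M * (Real.exp ((∑ u ∈ U, c u ^ 2) / 2) + ε)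

/-- the union bound -/
def S_UB : Prop :=
  ∀ (V E' : Type) [DecidableEq V] [DecidableEq E'] (r : ℕ) (E : Finset E') (s : E' → Fin r → V)
    (i0 : Fin r) (d : ℕ) (W : Finset V) (z : ℕ → V → ℝ),
    (∀ m u, z m u = 0 ∨ z m u = 1 ∨ z m u = -1) →
    (∀ e ∈ E, ∀ i, i ≠ i0 → s e i ∈ W) →
    (∀ e ∈ E, s e i0 ∉ W) →
    (∀ u, (E.filter (fun e => s e i0 = u)).card ≤ d) →
    (∀ F : Finset V, F ⊆ E.image (fun e => s e i0) → F.Nonempty →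
      ∀ F' : Finset V, F' ⊆ E.image (fun e => s e i0) →
      Small (fun m => (∏ u ∈ F, z m u) * ∏ u ∈ F', (z m u) ^ 2)) →
    ∀ ε : ℝ, 0 < ε → ∃ M0 : ℕ, ∀ M : ℕ, M0 ≤ M →
      ∑ m ∈ range M, |∑ e ∈ E, ∏ i, z m (s e i)| ≤
        M * (Real.sqrt (2 * (d * E.card) * (Real.log 2 + W.card * Real.log 3)) + ε)

/-- level of a vertex: no double hits -/
def S_LEV : Prop :=
  ∀ (r k : ℕ) (A B : Fin r → ℕ) (P : Fin k → Finset ℕ), Sys A B P → ∀ w ∈ Om P, ∀ s : ℕ,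
    (∀ j, (((P j).erase (w j)).filter (fun p => p ∣ s)).card < 2) →
    Dc P (dil w * s) = 2 ^ (hits P w s)

/-- number of vertices of high level -/
def S_VC : Prop :=
  ∀ (r k : ℕ) (A B : Fin r → ℕ) (P : Fin k → Finset ℕ), Sys A B P → ∀ K t : ℕ,
    2 ^ t * ((range (K * bigN P)).filter (fun v => 2 ^ t ≤ Dc P v)).card ≤ K * Ec P

/-- degree of a vertex -/
def S_DEG : Prop :=
  ∀ (r k : ℕ) (A B : Fin r → ℕ) (P : Fin k → Finset ℕ), Sys A B P → ∀ (i : Fin r), 1 ≤ A i → ∀ v : ℕ,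
    ((Finset.sigma (Om P) (fun w => range (Nw P w))).filter
      (fun e => dil e.1 * (A i * e.2 + B i) = v)).card ≤ Dc P v

/-- the main bound for a system -/
def S_SYSB : Prop :=
  ∀ (r k : ℕ) (A B : Fin r → ℕ) (P : Fin k → Finset ℕ), 2 ≤ r → (∀ i, 1 ≤ A i) → Sys A B P →
    ∀ (T S : ℕ) (β : ℝ),
    (∀ w ∈ Om P, ((badF A B P T S w).card : ℝ) ≤ β * (Nw P w : ℝ)) →
    ∀ ε : ℝ, 0 < ε → ∃ M0 : ℕ, ∀ M : ℕ, M0 ≤ M →
      ∑ m ∈ range M, |∑ w ∈ Om P, ∑ n ∈ range (Nw P w),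
          ∏ i, mu (A i * bigN P * m + dil w * (A i * n + B i))| ≤
        M * (Ec P * (β + 2 * r * S * Real.sqrt ((r : ℝ) * (∑ i, (A i + B i) : ℕ) / 2 ^ T)) + ε)

/-- replacing the forms by the dilated forms -/
def S_T1 : Prop :=
  ∀ (r k : ℕ) (A B : Fin r → ℕ) (P : Fin k → Finset ℕ), Sys A B P → ∀ w ∈ Om P, ∀ M : ℕ,
    |∑ n ∈ range (Nw P w * M), ∏ i, mu (A i * n + B i) -
      (((-1 : ℝ) ^ k) ^ r) * ∑ m ∈ range M, ∑ n ∈ range (Nw P w),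
          ∏ i, mu (A i * bigN P * m + dil w * (A i * n + B i))| ≤
      r * (∑ j, (1 / (w j : ℝ))) * (Nw P w * M) + r * k

/-- concentration of the size of the dilations -/
def S_CONC : Prop :=
  ∀ (r k : ℕ) (A B : Fin r → ℕ) (P : Fin k → Finset ℕ), Sys A B P →
    ∑ w ∈ Om P, |hm P / (dil w : ℝ) - 1| ≤
      (Om P).card * Real.sqrt ((∏ j, (((P j).card : ℝ) * (∑ p ∈ P j, (1 / (p : ℝ) ^ 2)) /
        (∑ p ∈ P j, (1 / (p : ℝ))) ^ 2)) - 1)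

/-- existence of the blocks -/
def S_PAR : Prop :=
  ∀ (ε : ℝ), 0 < ε → ∀ (Bd : ℕ) (H : ℝ), ∃ (k : ℕ) (P : Fin k → Finset ℕ),
    (∀ j, (P j).Nonempty) ∧ (∀ j, ∀ p ∈ P j, p.Prime) ∧ (∀ j j', j ≠ j' → Disjoint (P j) (P j')) ∧
    (∀ j, ∀ p ∈ P j, Bd < p) ∧ H ≤ rec1 P ∧ rec1 P ≤ max H 0 + 1 ∧ rec2 P ≤ ε ∧
    (∀ w ∈ Om P, ∑ j, (1 / (w j : ℝ)) ≤ ε) ∧
    (∏ j, (((P j).card : ℝ) * (∑ p ∈ P j, (1 / (p : ℝ) ^ 2)) /
        (∑ p ∈ P j, (1 / (p : ℝ))) ^ 2)) ≤ 1 + ε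

/-- choice of the parameters -/
def S_CHOOSE : Prop :=
  ∀ (r K : ℕ) (ε : ℝ), 0 < ε → ∃ (T S q : ℕ) (H : ℝ), 1 ≤ S ∧ 1 ≤ q ∧ 1 ≤ H ∧
    (r : ℝ) ^ 2 * ((2 * T + 1) * (1 / (q : ℝ) + Real.exp (-(16 * (H - 1) / (q : ℝ) ^ 2)))) ≤ ε ∧
    (r : ℝ) * ((H + 1) / S) ≤ ε ∧
    2 * r * S * Real.sqrt ((r : ℝ) * K / 2 ^ T) ≤ ε

/-! ### from Moebius with general coefficients to Liouville -/

/-- truncated expansion of the Liouville function -/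
def Lam (D0 k : ℕ) : ℝ := ∑ d ∈ Icc 1 D0, if d ^ 2 ∣ k then mu (k / d ^ 2) else 0

/-- pointwise properties of the truncated expansion -/
def S_E1 : Prop :=
  ∀ D0 k : ℕ, |Lam D0 k| ≤ 1 ∧ (1 ≤ k → (∀ d : ℕ, D0 < d → ¬ d ^ 2 ∣ k) →
    ((-1 : ℝ)) ^ (ArithmeticFunction.cardFactors k) = Lam D0 k)

open Classical in
/-- integers with a large square divisor are rare -/
def S_E2 : Prop :=
  ∀ D0 X : ℕ, 1 ≤ D0 →
    ((((Icc 1 X).filter (fun k => ∃ d : ℕ, D0 < d ∧ d ^ 2 ∣ k)).card : ℕ) : ℝ) ≤ (X : ℝ) / D0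

/-- smallness can be checked on residue classes -/
def S_RES : Prop :=
  ∀ (Q : ℕ) (f : ℕ → ℝ), 1 ≤ Q → (∀ c < Q, Small (fun m => f (Q * m + c))) → Small f

/-- correlations of the truncated expansions -/
def S_E3 : Prop :=
  ∀ D0 a : ℕ, 1 ≤ a → ∀ S : Finset ℕ, S.Nonempty → Small (fun n => ∏ b ∈ S, Lam D0 (a * n + b))

end

end R815.CH
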