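import Mathlib
import Pool.Agent.R815.CH.Stm

namespace R815.CH

open Finset Filter

noncomputable section

namespace AntiAux

/-- a form with leading coefficient prime to `p` has exactly one zero mod `p` -/
lemma exists_root (p a b : ℕ) (hp : p.Prime) (ha : ¬ p ∣ a) :
    ∃ t1, t1 < p ∧ ∀ t, t < p → (p ∣ a * t + b ↔ t = t1) := by
  have := Fact.mk hp
  have ha' : ((a : ℕ) : ZMod p) ≠ 0 := by
    rw [Ne, ZMod.natCast_eq_zero_iff]
    exact ha
  refine ⟨(-(b : ZMod p) / (a : ZMod p)).val, ZMod.val_lt _, fun t ht => ?_⟩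
  rw [← ZMod.natCast_eq_zero_iff]
  push_cast
  constructor
  · intro h
    have h1 : (t : ZMod p) = -(b : ZMod p) / (a : ZMod p) := by
      rw [eq_div_iff ha']
      linear_combination h
    rw [← h1, ZMod.val_natCast_of_lt ht]
  · intro h
    have h1 : (t : ZMod p) = -(b : ZMod p) / (a : ZMod p) := by
      rw [h, ZMod.natCast_val, ZMod.cast_id', id]
    rw [h1]
    field_simp
    ring

/-- local factor -/
def gf (a b a' b' : ℕ) (w : ℂ) (p t : ℕ) : ℂ :=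
  (if p ∣ a * t + b then w else 1) * (if p ∣ a' * t + b' then w⁻¹ else 1)

lemma gf_sum (a b a' b' : ℕ) (w : ℂ) (p : ℕ) (hp : p.Prime) (ha : ¬ p ∣ a) (ha' : ¬ p ∣ a')
    (hab : ¬ (a * b' ≡ a' * b [MOD p])) :
    ∑ t ∈ range p, gf a b a' b' w p t = (p : ℂ) + (w - 1) + (w⁻¹ - 1) := by
  obtain ⟨t1, ht1, h1⟩ := exists_root p a b hp ha
  obtain ⟨t2, ht2, h2⟩ := exists_root p a' b' hp ha'
  have hne : t1 ≠ t2 := by
    intro h
    subst h
    apply hab
    have := Fact.mk hp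
    have e1 := (h1 t1 ht1).2 rfl
    have e2 := (h2 t1 ht1).2 rfl
    rw [← ZMod.natCast_eq_zero_iff] at e1 e2
    push_cast at e1 e2
    rw [← ZMod.natCast_eq_natCast_iff]
    push_cast
    linear_combination (a : ZMod p) * e2 - (a' : ZMod p) * e1
  have h3 : ∀ t ∈ range p, gf a b a' b' w p t
      = 1 + (if t = t1 then (w - 1) else 0) + (if t = t2 then (w⁻¹ - 1) else 0) := by
    intro t ht
    rw [mem_range] at ht
    unfold gf
    simp only [h1 t ht, h2 t ht]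
    by_cases q1 : t = t1
    · have q2 : ¬ t = t2 := fun h => hne (q1.symm.trans h)
      simp only [q1, if_true]
      rw [if_neg hne, if_neg hne]
      ring
    · simp only [q1, if_false]
      by_cases q2 : t = t2
      · simp only [q2, if_true]
        ring
      · simp only [q2, if_false]
        ring
  rw [sum_congr rfl h3, sum_add_distrib, sum_add_distrib, sum_const, card_range, nsmul_eq_mul,
    sum_ite_eq', sum_ite_eq', if_pos (mem_range.2 ht1), if_pos (mem_range.2 ht2)]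
  ring

lemma prod_eq (Q : Finset ℕ) (a b a' b' n : ℕ) (w : ℂ) :
    ∏ p ∈ Q, gf a b a' b' w p (n % p) =
      w ^ (Q.filter (fun p => p ∣ a * n + b)).card * (w⁻¹) ^ (Q.filter (fun p => p ∣ a' * n + b')).card := by
  have key : ∀ c d p : ℕ, (p ∣ c * (n % p) + d ↔ p ∣ c * n + d) := by
    intro c d p
    have h : c * (n % p) + d ≡ c * n + d [MOD p] :=
      Nat.ModEq.add_right d (Nat.ModEq.mul_left c (Nat.mod_modEq n p))
    exact (h.dvd_iff (dvd_refl p))
  unfold gf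
  simp only [key]
  rw [prod_mul_distrib, prod_ite, prod_ite]
  simp only [prod_const, one_pow, mul_one]

lemma sum_eq (hCRT : S_CRT) (Q : Finset ℕ) (hQ : ∀ p ∈ Q, p.Prime) (a b a' b' : ℕ)
    (ha : ∀ p ∈ Q, ¬ p ∣ a) (ha' : ∀ p ∈ Q, ¬ p ∣ a')
    (hab : ∀ p ∈ Q, ¬ (a * b' ≡ a' * b [MOD p])) (w : ℂ) :
    ∑ n ∈ range (∏ p ∈ Q, p), w ^ (Q.filter (fun p => p ∣ a * n + b)).card *
        (w⁻¹) ^ (Q.filter (fun p => p ∣ a' * n + b')).card
      = ∏ p ∈ Q, ((p : ℂ) + (w - 1) + (w⁻¹ - 1)) := by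
  have h := hCRT Q hQ (gf a b a' b' w)
  simp only [prod_eq] at h
  rw [h]
  exact prod_congr rfl fun p hp => gf_sum a b a' b' w p (hQ p hp) (ha p hp) (ha' p hp) (hab p hp)

lemma factor_eq (θ : ℝ) (p : ℕ) :
    ((p : ℂ) + (Complex.exp (θ * Complex.I) - 1) + ((Complex.exp (θ * Complex.I))⁻¹ - 1))
      = ((p - 2 * (1 - Real.cos θ) : ℝ) : ℂ) := by
  rw [← Complex.exp_neg]
  push_cast
  rw [Complex.cos]
  ring_nf

lemma factor_norm (θ δ : ℝ) (p : ℕ) (hp : 5 ≤ p) (hδ : δ ≤ 1 - Real.cos θ) :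
    ‖((p : ℂ) + (Complex.exp (θ * Complex.I) - 1) + ((Complex.exp (θ * Complex.I))⁻¹ - 1))‖
      ≤ p * Real.exp (-(2 * δ) * (1 / (p : ℝ))) := by
  rw [factor_eq, Complex.norm_real, Real.norm_eq_abs]
  have hp' : (5 : ℝ) ≤ p := by exact_mod_cast hp
  have h1 := Real.neg_one_le_cos θ
  rw [abs_of_nonneg (by linarith)]
  have h2 := Real.add_one_le_exp (-(2 * δ) * (1 / (p : ℝ)))
  have h3 : (p : ℝ) * (-(2 * δ) * (1 / (p : ℝ)) + 1) = p - 2 * δ := by
    field_simp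
    ring
  have h4 : (p : ℝ) * (-(2 * δ) * (1 / (p : ℝ)) + 1) ≤ p * Real.exp (-(2 * δ) * (1 / (p : ℝ))) :=
    mul_le_mul_of_nonneg_left h2 (by linarith)
  linarith

lemma sum_norm (hCRT : S_CRT) (Q : Finset ℕ) (hQ : ∀ p ∈ Q, p.Prime) (h5 : ∀ p ∈ Q, 5 ≤ p)
    (a b a' b' : ℕ) (ha : ∀ p ∈ Q, ¬ p ∣ a) (ha' : ∀ p ∈ Q, ¬ p ∣ a')
    (hab : ∀ p ∈ Q, ¬ (a * b' ≡ a' * b [MOD p])) (θ δ : ℝ) (hδ : δ ≤ 1 - Real.cos θ) :
    ‖∑ n ∈ range (∏ p ∈ Q, p), (Complex.exp (θ * Complex.I)) ^ (Q.filter (fun p => p ∣ a * n + b)).card *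
        ((Complex.exp (θ * Complex.I))⁻¹) ^ (Q.filter (fun p => p ∣ a' * n + b')).card‖
      ≤ ((∏ p ∈ Q, p : ℕ) : ℝ) * Real.exp (-(2 * δ) * ∑ p ∈ Q, (1 / (p : ℝ))) := by
  rw [sum_eq hCRT Q hQ a b a' b' ha ha' hab, norm_prod]
  refine (prod_le_prod (fun _ _ => norm_nonneg _)
    (fun p hp => factor_norm θ δ p (h5 p hp) hδ)).trans ?_
  rw [prod_mul_distrib, mul_sum, Real.exp_sum]
  push_cast
  exact le_refl _

lemma cos_bound (q b : ℕ) (hb : 1 ≤ b) (hbq : b < q) :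
    8 / (q : ℝ) ^ 2 ≤ 1 - Real.cos (2 * Real.pi * b / q) := by
  have hq : (0 : ℝ) < q := by
    have : 0 < q := by omega
    exact_mod_cast this
  have hb1 : (1 : ℝ) ≤ b := by exact_mod_cast hb
  have hbq' : (b : ℝ) + 1 ≤ q := by exact_mod_cast hbq
  have hpi := Real.pi_pos
  have hsin : 2 / (q : ℝ) ≤ Real.sin (Real.pi * b / q) := by
    by_cases h : 2 * (b : ℝ) ≤ q
    · have h1 : Real.pi * b / q ≤ Real.pi / 2 := by
        rw [div_le_div_iff₀ hq (by norm_num)]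
        nlinarith
      have h2 := Real.mul_le_sin (x := Real.pi * b / q) (by positivity) h1
      refine le_trans ?_ h2
      rw [show 2 / Real.pi * (Real.pi * b / q) = 2 * b / q by field_simp]
      rw [div_le_div_iff_of_pos_right hq]
      linarith
    · push Not at h
      have h0 : Real.sin (Real.pi * b / q) = Real.sin (Real.pi * (q - b) / q) := by
        rw [← Real.sin_pi_sub]
        congr 1
        field_simp
      have h1 : Real.pi * (q - b) / q ≤ Real.pi / 2 := by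
        rw [div_le_div_iff₀ hq (by norm_num)]
        nlinarith
      have h3 : (0 : ℝ) ≤ Real.pi * (q - b) / q := by
        apply div_nonneg _ hq.le
        apply mul_nonneg hpi.le
        linarith
      have h2 := Real.mul_le_sin (x := Real.pi * (q - b) / q) h3 h1
      rw [h0]
      refine le_trans ?_ h2
      rw [show 2 / Real.pi * (Real.pi * (q - b) / q) = 2 * (q - b) / q by field_simp]
      rw [div_le_div_iff_of_pos_right hq]
      linarith
  have hcos : Real.cos (2 * Real.pi * b / q) = 1 - 2 * Real.sin (Real.pi * b / q) ^ 2 := by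
    rw [show 2 * Real.pi * b / q = 2 * (Real.pi * b / q) by ring, Real.cos_two_mul]
    have := Real.sin_sq_add_cos_sq (Real.pi * b / q)
    linarith
  rw [hcos]
  have h2q : 0 < 2 / (q : ℝ) := by positivity
  have hsq : (2 / (q : ℝ)) ^ 2 ≤ Real.sin (Real.pi * b / q) ^ 2 := by
    apply pow_le_pow_left₀ h2q.le hsin
  have h8 : 8 / (q : ℝ) ^ 2 = 2 * (2 / (q : ℝ)) ^ 2 := by
    rw [div_pow]
    ring
  linarith

/-- the number of `n` with a prescribed difference -/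
lemma count_eq (hCRT : S_CRT) (Q : Finset ℕ) (hQ : ∀ p ∈ Q, p.Prime) (h5 : ∀ p ∈ Q, 5 ≤ p)
    (a b a' b' : ℕ) (ha : ∀ p ∈ Q, ¬ p ∣ a) (ha' : ∀ p ∈ Q, ¬ p ∣ a')
    (hab : ∀ p ∈ Q, ¬ (a * b' ≡ a' * b [MOD p])) (q : ℕ) (hq : 1 ≤ q) (x : ℤ) :
    ((((range (∏ p ∈ Q, p)).filter (fun n =>
      ((Q.filter (fun p => p ∣ a * n + b)).card : ℤ) - ((Q.filter (fun p => p ∣ a' * n + b')).card : ℤ)
        = x)).card : ℕ) : ℝ) ≤ ((∏ p ∈ Q, p : ℕ) : ℝ) *
          (1 / (q : ℝ) + Real.exp (-(16 * (∑ p ∈ Q, (1 / (p : ℝ))) / (q : ℝ) ^ 2))) := by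
  obtain ⟨X1, hX1⟩ : ∃ X1 : ℕ → ℕ, X1 = fun n => (Q.filter (fun p => p ∣ a * n + b)).card := ⟨_, rfl⟩
  obtain ⟨X2, hX2⟩ : ∃ X2 : ℕ → ℕ, X2 = fun n => (Q.filter (fun p => p ∣ a' * n + b')).card := ⟨_, rfl⟩
  obtain ⟨N, hN⟩ : ∃ N : ℕ, N = ∏ p ∈ Q, p := ⟨_, rfl⟩
  obtain ⟨C, hC⟩ : ∃ C : ℝ, C = ∑ p ∈ Q, (1 / (p : ℝ)) := ⟨_, rfl⟩
  have hq' : (0 : ℝ) < q := by exact_mod_cast hq
  have hqc : (q : ℂ) ≠ 0 := by
    have : q ≠ 0 := by omega
    exact_mod_cast this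
  obtain ⟨ω, hω⟩ : ∃ ω : ℂ, ω = Complex.exp (((2 * Real.pi / q : ℝ) : ℂ) * Complex.I) := ⟨_, rfl⟩
  have hω0 : ω ≠ 0 := by rw [hω]; exact Complex.exp_ne_zero _
  have hωq : ω ^ q = 1 := by
    rw [hω, ← Complex.exp_nat_mul]
    rw [show (q : ℂ) * (((2 * Real.pi / q : ℝ) : ℂ) * Complex.I) = 2 * Real.pi * Complex.I by
      push_cast
      field_simp]
    exact Complex.exp_two_pi_mul_I
  have hωpow : ∀ k : ℕ, ω ^ k = Complex.exp (((2 * Real.pi * k / q : ℝ) : ℂ) * Complex.I) := by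
    intro k
    rw [hω, ← Complex.exp_nat_mul]
    congr 1
    push_cast
    ring
  have hωnorm : ∀ k : ℕ, ‖ω ^ k‖ = 1 := by
    intro k
    rw [hωpow, Complex.norm_exp_ofReal_mul_I]
  obtain ⟨u, hu⟩ : ∃ u : ℕ → ℂ, u = fun n => ω ^ (X1 n) * (ω⁻¹) ^ (X2 n) * ω ^ (-x) := ⟨_, rfl⟩
  have huq : ∀ n, u n ^ q = 1 := by
    intro n
    rw [hu]
    simp only [mul_pow]
    rw [← pow_mul, mul_comm (X1 n) q, pow_mul, hωq, one_pow, ← pow_mul, mul_comm (X2 n) q, pow_mul,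
      inv_pow, hωq, inv_one, one_pow, ← zpow_natCast (ω ^ (-x)) q, ← zpow_mul, mul_comm (-x) (q : ℤ),
      zpow_mul, zpow_natCast, hωq, one_zpow]
    norm_num
  have hu1 : ∀ n, (X1 n : ℤ) - (X2 n : ℤ) = x → u n = 1 := by
    intro n hn
    rw [hu]
    simp only
    rw [← hn, inv_pow, ← zpow_natCast ω (X1 n), ← zpow_natCast ω (X2 n), ← zpow_neg, ← zpow_add₀ hω0,
      ← zpow_add₀ hω0]
    rw [show (X1 n : ℤ) + -(X2 n : ℤ) + -((X1 n : ℤ) - (X2 n : ℤ)) = 0 by ring, zpow_zero]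
  have hgeom : ∀ n, ∑ k ∈ range q, u n ^ k = if u n = 1 then (q : ℂ) else 0 := by
    intro n
    split_ifs with h
    · rw [h]
      simp
    · rw [geom_sum_eq h, huq n, sub_self, zero_div]
  -- lower bound
  have hlow : (q : ℝ) * ((((range N).filter (fun n => (X1 n : ℤ) - (X2 n : ℤ) = x)).card : ℕ) : ℝ) ≤
      (∑ n ∈ range N, ∑ k ∈ range q, u n ^ k).re := by
    rw [Complex.re_sum, card_eq_sum_ones, sum_filter]
    push_cast
    rw [mul_sum]
    refine sum_le_sum fun n _ => ?_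
    rw [hgeom n]
    by_cases h : (X1 n : ℤ) - (X2 n : ℤ) = x
    · rw [if_pos h, if_pos (hu1 n h)]
      simp
    · rw [if_neg h]
      split_ifs with h2
      · simp
      · simp
  -- upper bound
  have hupk : ∀ k ∈ range q, ‖∑ n ∈ range N, u n ^ k‖ ≤
      if k = 0 then (N : ℝ) else N * Real.exp (-(16 * C / (q : ℝ) ^ 2)) := by
    intro k hk
    rw [mem_range] at hk
    split_ifs with h0
    · subst h0
      simp
    · have e1 : ∑ n ∈ range N, u n ^ k = (∑ n ∈ range N, (ω ^ k) ^ (X1 n) * ((ω ^ k)⁻¹) ^ (X2 n)) *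
          (ω ^ k) ^ (-x) := by
        rw [sum_mul]
        refine sum_congr rfl fun n _ => ?_
        rw [hu]
        simp only [mul_pow]
        rw [← pow_mul, ← pow_mul, mul_comm (X1 n) k, mul_comm (X2 n) k, pow_mul, pow_mul, inv_pow,
          ← zpow_natCast (ω ^ (-x)) k, ← zpow_mul, mul_comm (-x) (k : ℤ), zpow_mul, zpow_natCast]
      have e2 : ‖(ω ^ k) ^ (-x)‖ = 1 := by
        rw [norm_zpow, hωnorm, one_zpow]
      rw [e1, norm_mul, e2, mul_one]
      have hb := cos_bound q k (by omega) hk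
      have h6 := sum_norm hCRT Q hQ h5 a b a' b' ha ha' hab (2 * Real.pi * k / q) (8 / (q : ℝ) ^ 2) hb
      rw [← hωpow] at h6
      rw [hX1, hX2, hN]
      refine h6.trans (le_of_eq ?_)
      rw [hC]
      congr 2
      ring
  have hup : (∑ n ∈ range N, ∑ k ∈ range q, u n ^ k).re ≤
      N + q * (N * Real.exp (-(16 * C / (q : ℝ) ^ 2))) := by
    rw [sum_comm]
    refine (Complex.re_le_norm _).trans ?_
    refine (norm_sum_le _ _).trans ?_
    refine (sum_le_sum hupk).trans ?_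
    have h7 : ∀ k ∈ range q, (if k = 0 then (N : ℝ) else N * Real.exp (-(16 * C / (q : ℝ) ^ 2))) ≤
        (if k = 0 then (N : ℝ) else 0) + N * Real.exp (-(16 * C / (q : ℝ) ^ 2)) := by
      intro k _
      have : (0 : ℝ) ≤ N * Real.exp (-(16 * C / (q : ℝ) ^ 2)) := by positivity
      split_ifs
      · linarith
      · linarith
    refine (sum_le_sum h7).trans ?_
    rw [sum_add_distrib, sum_ite_eq', if_pos (mem_range.2 (by omega)), sum_const, card_range,
      nsmul_eq_mul]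
  have hall := hlow.trans hup
  rw [hX1, hX2, hN, hC] at hall
  have hfin : (q : ℝ) * ((((range (∏ p ∈ Q, p)).filter (fun n =>
      ((Q.filter (fun p => p ∣ a * n + b)).card : ℤ) - ((Q.filter (fun p => p ∣ a' * n + b')).card : ℤ)
        = x)).card : ℕ) : ℝ) ≤ (q : ℝ) * (((∏ p ∈ Q, p : ℕ) : ℝ) *
          (1 / (q : ℝ) + Real.exp (-(16 * (∑ p ∈ Q, (1 / (p : ℝ))) / (q : ℝ) ^ 2)))) := by
    refine hall.trans (le_of_eq ?_)
    field_simp
  exact le_of_mul_le_mul_left hfin hq'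

end AntiAux

open AntiAux in
theorem t_ANTI : S_CRT → S_ANTI := by
  intro hCRT Q hQ h5 a b a' b' ha ha' hab T q hq
  have hsub : (range (∏ p ∈ Q, p)).filter (fun n =>
          (Q.filter (fun p => p ∣ a * n + b)).card ≤ (Q.filter (fun p => p ∣ a' * n + b')).card + T ∧
          (Q.filter (fun p => p ∣ a' * n + b')).card ≤ (Q.filter (fun p => p ∣ a * n + b)).card + T) ⊆
      (Icc (-(T : ℤ)) T).biUnion (fun x => (range (∏ p ∈ Q, p)).filter (fun n =>
      ((Q.filter (fun p => p ∣ a * n + b)).card : ℤ) - ((Q.filter (fun p => p ∣ a' * n + b')).card : ℤ)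
        = x)) := by
    intro n hn
    rw [mem_filter] at hn
    rw [mem_biUnion]
    refine ⟨_, ?_, mem_filter.2 ⟨hn.1, rfl⟩⟩
    rw [mem_Icc]
    obtain ⟨_, h1, h2⟩ := hn
    constructor
    · omega
    · omega
  have h1 := (card_le_card hsub).trans card_biUnion_le
  have h2 : ((((range (∏ p ∈ Q, p)).filter (fun n =>
          (Q.filter (fun p => p ∣ a * n + b)).card ≤ (Q.filter (fun p => p ∣ a' * n + b')).card + T ∧
          (Q.filter (fun p => p ∣ a' * n + b')).card ≤ (Q.filter (fun p => p ∣ a * n + b)).card + T)).card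
          : ℕ) : ℝ) ≤ ∑ x ∈ Icc (-(T : ℤ)) T, ((((range (∏ p ∈ Q, p)).filter (fun n =>
      ((Q.filter (fun p => p ∣ a * n + b)).card : ℤ) - ((Q.filter (fun p => p ∣ a' * n + b')).card : ℤ)
        = x)).card : ℕ) : ℝ) := by
    exact_mod_cast h1
  refine h2.trans ?_
  refine (sum_le_sum fun x _ => count_eq hCRT Q hQ h5 a b a' b' ha ha' hab q hq x).trans ?_
  rw [sum_const, Int.card_Icc, nsmul_eq_mul]
  have h3 : (((T : ℤ) + 1 - -(T : ℤ)).toNat : ℝ) = 2 * T + 1 := by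
    have : ((T : ℤ) + 1 - -(T : ℤ)).toNat = 2 * T + 1 := by omega
    rw [this]
    push_cast
    ring
  rw [h3]
  apply le_of_eq
  ring

end

end R815.CH
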