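import Mathlib
import Pool.Agent.R815.CH.Stm

/-!
# CHOOSE: choice of the parameters
-/

set_option autoImplicit false

namespace R815.CH

open Filter Topology

theorem t_CHOOSE : S_CHOOSE := by
  intro r K ε hε
  have hr : (0 : ℝ) ≤ r := Nat.cast_nonneg r
  have hK : (0 : ℝ) ≤ K := Nat.cast_nonneg K
  have hs2 : (1 : ℝ) < Real.sqrt 2 := by
    rw [show (1 : ℝ) = Real.sqrt 1 by simp]
    exact Real.sqrt_lt_sqrt (by norm_num) (by norm_num)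
  have h1 : Tendsto (fun m : ℕ => (m : ℝ) ^ 6 / (Real.sqrt 2) ^ m) atTop (𝓝 0) :=
    tendsto_pow_const_div_const_pow_of_one_lt 6 hs2
  have h2 : Tendsto (fun m : ℕ => 2 * r * (3 * r / ε + 2) * Real.sqrt (r * K) *
      ((m : ℝ) ^ 6 / (Real.sqrt 2) ^ m)) atTop (𝓝 0) := by
    simpa using h1.const_mul (2 * r * (3 * r / ε + 2) * Real.sqrt (r * K))
  have h3 := h2.eventually_le_const hε
  have h4 : Tendsto (fun m : ℕ => (r : ℝ) ^ 2 * 6 * (1 / (m : ℝ))) atTop (𝓝 0) := by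
    simpa using (tendsto_one_div_atTop_nhds_zero_nat (𝕜 := ℝ)).const_mul ((r : ℝ) ^ 2 * 6)
  have h5 := h4.eventually_le_const hε
  obtain ⟨m, hm3, hm5, hm1⟩ := (h3.and (h5.and (eventually_ge_atTop 1))).exists
  have hm : (1 : ℝ) ≤ m := by exact_mod_cast hm1
  have hm0 : (0 : ℝ) < m := by linarith
  have hm6 : (1 : ℝ) ≤ (m : ℝ) ^ 6 := one_le_pow₀ hm
  have hSle : ((⌈(r : ℝ) * ((m : ℝ) ^ 6 + 2) / ε⌉₊ + 1 : ℕ) : ℝ) ≤
      (3 * r / ε + 2) * (m : ℝ) ^ 6 := by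
    have ha : (0 : ℝ) ≤ (r : ℝ) * ((m : ℝ) ^ 6 + 2) / ε := by positivity
    have hb := (Nat.ceil_lt_add_one ha).le
    push_cast
    have hc : (r : ℝ) * ((m : ℝ) ^ 6 + 2) / ε ≤ 3 * r / ε * (m : ℝ) ^ 6 := by
      have : (r : ℝ) * ((m : ℝ) ^ 6 + 2) / ε = r / ε * ((m : ℝ) ^ 6 + 2) := by ring
      rw [this, show 3 * (r : ℝ) / ε * (m : ℝ) ^ 6 = r / ε * (3 * (m : ℝ) ^ 6) by ring]
      apply mul_le_mul_of_nonneg_left _ (by positivity)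
      linarith
    nlinarith
  have hSge : (r : ℝ) * ((m : ℝ) ^ 6 + 2) / ε ≤
      ((⌈(r : ℝ) * ((m : ℝ) ^ 6 + 2) / ε⌉₊ + 1 : ℕ) : ℝ) := by
    push_cast
    have := Nat.le_ceil ((r : ℝ) * ((m : ℝ) ^ 6 + 2) / ε)
    linarith
  refine ⟨m, ⌈(r : ℝ) * ((m : ℝ) ^ 6 + 2) / ε⌉₊ + 1, m ^ 2, (m : ℝ) ^ 6 + 1, by omega,
    Nat.one_le_pow _ _ hm1, by linarith, ?_, ?_, ?_⟩
  · have e1 : 16 * ((m : ℝ) ^ 6 + 1 - 1) / (((m ^ 2 : ℕ) : ℝ)) ^ 2 = 16 * (m : ℝ) ^ 2 := by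
      push_cast
      field_simp
      ring
    rw [e1]
    have e2 : Real.exp (-(16 * (m : ℝ) ^ 2)) ≤ 1 / (m : ℝ) ^ 2 := by
      rw [Real.exp_neg, ← one_div]
      apply one_div_le_one_div_of_le (by positivity)
      have := Real.add_one_le_exp (16 * (m : ℝ) ^ 2)
      nlinarith [sq_nonneg (m : ℝ)]
    have e3 : (2 * (m : ℝ) + 1) * (1 / (m : ℝ) ^ 2 + Real.exp (-(16 * (m : ℝ) ^ 2))) ≤
        6 * (1 / (m : ℝ)) := by
      calc (2 * (m : ℝ) + 1) * (1 / (m : ℝ) ^ 2 + Real.exp (-(16 * (m : ℝ) ^ 2)))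
          ≤ (3 * (m : ℝ)) * (1 / (m : ℝ) ^ 2 + 1 / (m : ℝ) ^ 2) := by
            apply mul_le_mul (by linarith) (by linarith) _ (by positivity)
            have := Real.exp_pos (-(16 * (m : ℝ) ^ 2))
            positivity
        _ = 6 * (1 / (m : ℝ)) := by
            field_simp
            ring
    calc (r : ℝ) ^ 2 * ((2 * (m : ℝ) + 1) * (1 / ((m ^ 2 : ℕ) : ℝ) +
          Real.exp (-(16 * (m : ℝ) ^ 2))))
        = (r : ℝ) ^ 2 * ((2 * (m : ℝ) + 1) * (1 / (m : ℝ) ^ 2 +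
          Real.exp (-(16 * (m : ℝ) ^ 2)))) := by push_cast; ring
      _ ≤ (r : ℝ) ^ 2 * (6 * (1 / (m : ℝ))) := mul_le_mul_of_nonneg_left e3 (by positivity)
      _ = (r : ℝ) ^ 2 * 6 * (1 / (m : ℝ)) := by ring
      _ ≤ ε := hm5
  · have hSpos : (0 : ℝ) < ((⌈(r : ℝ) * ((m : ℝ) ^ 6 + 2) / ε⌉₊ + 1 : ℕ) : ℝ) := by
      exact_mod_cast Nat.succ_pos _
    rw [← mul_div_assoc, div_le_iff₀ hSpos]
    have := (div_le_iff₀ hε).1 hSge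
    calc (r : ℝ) * ((m : ℝ) ^ 6 + 1 + 1) = (r : ℝ) * ((m : ℝ) ^ 6 + 2) := by ring
      _ ≤ ((⌈(r : ℝ) * ((m : ℝ) ^ 6 + 2) / ε⌉₊ + 1 : ℕ) : ℝ) * ε := this
      _ = ε * ((⌈(r : ℝ) * ((m : ℝ) ^ 6 + 2) / ε⌉₊ + 1 : ℕ) : ℝ) := by ring
  · have e1 : Real.sqrt ((r : ℝ) * K / 2 ^ m) = Real.sqrt (r * K) / (Real.sqrt 2) ^ m := by
      rw [Real.sqrt_div (by positivity)]
      congr 1
      rw [Real.sqrt_eq_iff_eq_sq (by positivity) (by positivity), ← pow_mul, mul_comm m 2, pow_mul,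
        Real.sq_sqrt (by norm_num)]
    rw [e1]
    refine le_trans ?_ hm3
    calc 2 * (r : ℝ) * ((⌈(r : ℝ) * ((m : ℝ) ^ 6 + 2) / ε⌉₊ + 1 : ℕ) : ℝ) *
          (Real.sqrt (r * K) / (Real.sqrt 2) ^ m)
        ≤ 2 * (r : ℝ) * ((3 * r / ε + 2) * (m : ℝ) ^ 6) *
          (Real.sqrt (r * K) / (Real.sqrt 2) ^ m) := by
          apply mul_le_mul_of_nonneg_right _ (by positivity)
          exact mul_le_mul_of_nonneg_left hSle (by positivity)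
      _ = 2 * r * (3 * r / ε + 2) * Real.sqrt (r * K) *
          ((m : ℝ) ^ 6 / (Real.sqrt 2) ^ m) := by ring

end R815.CH
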