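import Mathlib
import Pool.Agent.R815.CH.Stm

namespace R815.CH

open Finset Filter

namespace Conc

/-- Cauchy-Schwarz concentration for positive weights. -/
theorem core {ι : Type*} (s : Finset ι) (x : ι → ℝ) (hx : ∀ i ∈ s, 0 < x i) (hs : s.Nonempty) :
    ∑ i ∈ s, |((s.card : ℝ) / ∑ j ∈ s, x j) * x i - 1| ≤
      s.card * Real.sqrt (((s.card : ℝ) * (∑ i ∈ s, (x i) ^ 2)) / (∑ i ∈ s, x i) ^ 2 - 1) := by
  have hM : 0 < ∑ j ∈ s, x j := Finset.sum_pos hx hs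
  have hn : (0 : ℝ) < s.card := by exact_mod_cast Finset.card_pos.mpr hs
  set M := ∑ j ∈ s, x j with hMdef
  set n : ℝ := (s.card : ℝ) with hndef
  set S2 := ∑ i ∈ s, (x i) ^ 2 with hS2
  have h1 : ∑ i ∈ s, ((n / M) * x i - 1) ^ 2 = n ^ 2 * S2 / M ^ 2 - n := by
    have e1 : ∀ i ∈ s, ((n / M) * x i - 1) ^ 2 = (n / M) ^ 2 * (x i) ^ 2 - 2 * (n / M) * x i + 1 := by
      intro i _; ring
    rw [Finset.sum_congr rfl e1, Finset.sum_add_distrib, Finset.sum_sub_distrib, ← Finset.mul_sum,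
      ← Finset.mul_sum, Finset.sum_const, nsmul_eq_mul, mul_one, ← hMdef, ← hS2, ← hndef]
    field_simp
    ring
  have h2 : (∑ i ∈ s, |(n / M) * x i - 1|) ^ 2 ≤ n * (n ^ 2 * S2 / M ^ 2 - n) := by
    have := sq_sum_le_card_mul_sum_sq (s := s) (f := fun i => |(n / M) * x i - 1|)
    simp only [sq_abs] at this
    rw [h1] at this
    exact this
  have h3 : n * (n ^ 2 * S2 / M ^ 2 - n) = n ^ 2 * (n * S2 / M ^ 2 - 1) := by
    field_simp
  have h4 : 0 ≤ ∑ i ∈ s, |(n / M) * x i - 1| := Finset.sum_nonneg (fun _ _ => abs_nonneg _)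
  calc ∑ i ∈ s, |(n / M) * x i - 1| ≤ Real.sqrt (n * (n ^ 2 * S2 / M ^ 2 - n)) :=
        Real.le_sqrt_of_sq_le h2
    _ = n * Real.sqrt (n * S2 / M ^ 2 - 1) := by
        rw [h3, Real.sqrt_mul (by positivity), Real.sqrt_sq hn.le]

end Conc

open Conc in
theorem t_CONC : S_CONC := by
  intro r k A B P hS
  have hpos : ∀ w ∈ Om P, ∀ j, (0 : ℝ) < (w j : ℝ) := by
    intro w hw j
    have h1 : w j ∈ P j := Fintype.mem_piFinset.mp hw j
    exact_mod_cast (hS.pr j _ h1).pos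
  have hdil : ∀ w ∈ Om P, (0 : ℝ) < (dil w : ℝ) := by
    intro w hw
    unfold dil
    push_cast
    exact Finset.prod_pos (fun j _ => hpos w hw j)
  have hne : (Om P).Nonempty := by
    choose u hu using hS.ne
    exact ⟨u, Fintype.mem_piFinset.mpr hu⟩
  have key := core (Om P) (fun w => 1 / (dil w : ℝ)) (fun w hw => by
    have := hdil w hw
    positivity) hne
  have e1 : ∑ w ∈ Om P, |hm P / (dil w : ℝ) - 1| =
      ∑ w ∈ Om P, |(((Om P).card : ℝ) / ∑ v ∈ Om P, (1 / (dil v : ℝ))) * (1 / (dil w : ℝ)) - 1| := by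
    refine Finset.sum_congr rfl (fun w _ => ?_)
    unfold hm
    rw [mul_one_div]
  have e2 : ((Om P).card : ℝ) = ∏ j, ((P j).card : ℝ) := by
    unfold Om
    rw [Fintype.card_piFinset]
    push_cast
    rfl
  have e3 : ∑ w ∈ Om P, (1 / (dil w : ℝ)) = ∏ j, ∑ p ∈ P j, (1 / (p : ℝ)) := by
    rw [Finset.prod_univ_sum]
    refine Finset.sum_congr rfl (fun w _ => ?_)
    unfold dil
    push_cast
    rw [Finset.prod_div_distrib, Finset.prod_const_one]
  have e4 : ∑ w ∈ Om P, (1 / (dil w : ℝ)) ^ 2 = ∏ j, ∑ p ∈ P j, (1 / (p : ℝ) ^ 2) := by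
    rw [Finset.prod_univ_sum]
    refine Finset.sum_congr rfl (fun w _ => ?_)
    unfold dil
    push_cast
    rw [Finset.prod_div_distrib, Finset.prod_const_one, Finset.prod_pow, div_pow, one_pow]
  have e5 : (∏ j, (((P j).card : ℝ) * (∑ p ∈ P j, (1 / (p : ℝ) ^ 2)) /
        (∑ p ∈ P j, (1 / (p : ℝ))) ^ 2)) =
      (((Om P).card : ℝ) * (∑ w ∈ Om P, (1 / (dil w : ℝ)) ^ 2)) /
        (∑ w ∈ Om P, (1 / (dil w : ℝ))) ^ 2 := by
    rw [e2, e3, e4, Finset.prod_div_distrib, Finset.prod_mul_distrib, Finset.prod_pow]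
  rw [e1, e5]
  exact key

end R815.CH
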