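import Mathlib
import Pool.Agent.R815.CH.Stm

/-!
Project CH, piece CONV: sums over `Icc 1 x` versus sums over `range x`.
-/

namespace R815.CH

open Finset Filter

namespace ConvAux

theorem abs_mu_le_one (n : ℕ) : |mu n| ≤ 1 := by
  unfold mu
  have h := ArithmeticFunction.abs_moebius_le_one (n := n)
  exact_mod_cast h

theorem abs_term (a : ℕ) (S D : Finset ℕ) (n : ℕ) :
    |(∏ b ∈ S, mu (a * n + b)) * ∏ d ∈ D, (mu (a * n + d)) ^ 2| ≤ 1 := by
  rw [abs_mul, Finset.abs_prod, Finset.abs_prod]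
  have h1 : ∏ b ∈ S, |mu (a * n + b)| ≤ 1 :=
    Finset.prod_le_one (fun _ _ => abs_nonneg _) (fun _ _ => abs_mu_le_one _)
  have h2 : ∏ d ∈ D, |(mu (a * n + d)) ^ 2| ≤ 1 := by
    refine Finset.prod_le_one (fun _ _ => abs_nonneg _) (fun d _ => ?_)
    rw [abs_pow]
    exact pow_le_one₀ (abs_nonneg _) (abs_mu_le_one _)
  have h3 : 0 ≤ ∏ b ∈ S, |mu (a * n + b)| := Finset.prod_nonneg fun _ _ => abs_nonneg _
  have h4 : 0 ≤ ∏ d ∈ D, |(mu (a * n + d)) ^ 2| := Finset.prod_nonneg fun _ _ => abs_nonneg _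
  nlinarith

theorem range_eq (F : ℕ → ℝ) (x : ℕ) :
    ∑ n ∈ range x, F n = F 0 + ∑ n ∈ Icc 1 x, F n - F x := by
  induction x with
  | zero => simp
  | succ x ih =>
    rw [Finset.sum_range_succ, ih, Finset.sum_Icc_succ_top (by omega)]
    ring

end ConvAux

open ConvAux in
theorem t_CONV : StM → SmM := by
  intro h a ha S hS D ε hε
  have h1 := h a ha S hS D
  rw [Asymptotics.isLittleO_iff] at h1
  have h2 := h1 (half_pos hε)
  rw [eventually_atTop] at h2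
  obtain ⟨X, hX⟩ := h2
  obtain ⟨Y, hY⟩ := exists_nat_ge (4 / ε)
  refine ⟨max X Y, fun x hx => ?_⟩
  have hxX : X ≤ x := (le_max_left _ _).trans hx
  have hxY : (Y : ℝ) ≤ x := by exact_mod_cast (le_max_right X Y).trans hx
  have h3 := hX x hxX
  rw [Real.norm_eq_abs, Real.norm_eq_abs, abs_of_nonneg (Nat.cast_nonneg (α := ℝ) x)] at h3
  have h4 : 2 ≤ ε / 2 * x := by
    have : 4 / ε ≤ x := hY.trans hxY
    rw [div_le_iff₀ hε] at this
    linarith
  rw [range_eq]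
  have h5 := abs_term a S D 0
  have h6 := abs_term a S D x
  have h7 : |∑ n ∈ Icc 1 x, (∏ b ∈ S, mu (a * n + b)) * ∏ d ∈ D, (mu (a * n + d)) ^ 2| ≤
      ε / 2 * x := h3
  rw [abs_le] at h5 h6 h7 ⊢
  constructor <;> linarith [h5.1, h5.2, h6.1, h6.2, h7.1, h7.2]

end R815.CH
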