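import Pool.Agent.R815.CH.Stm

set_option autoImplicit false

namespace R815.CH

open Finset

namespace CrtAux

theorem step (a b : ℕ) (hab : Nat.Coprime a b) (ha : a ≠ 0) (hb : b ≠ 0) (F : ℕ → ℂ) (G : ℕ → ℂ) :
    ∑ n ∈ range (a * b), F (n % a) * G (n % b) = (∑ t ∈ range a, F t) * ∑ t ∈ range b, G t := by
  rw [Finset.sum_mul_sum, ← Finset.sum_product']
  refine Finset.sum_nbij' (fun n => (n % a, n % b))
    (fun x => ((Nat.chineseRemainder hab x.1 x.2 : _) : ℕ)) ?_ ?_ ?_ ?_ ?_
  · intro n _
    simp only [mem_product, mem_range]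
    exact ⟨Nat.mod_lt _ (Nat.pos_of_ne_zero ha), Nat.mod_lt _ (Nat.pos_of_ne_zero hb)⟩
  · intro x _
    simp only [mem_range]
    exact Nat.chineseRemainder_lt_mul hab _ _ ha hb
  · intro n hn
    have hn' := mem_range.1 hn
    have h1 := Nat.chineseRemainder_modEq_unique hab (a := n % a) (b := n % b) (z := n)
      (Nat.mod_modEq n a).symm (Nat.mod_modEq n b).symm
    have h2 := Nat.chineseRemainder_lt_mul hab (n % a) (n % b) ha hb
    exact (Nat.ModEq.eq_of_lt_of_lt h1 hn' h2).symm
  · intro x hx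
    simp only [mem_product, mem_range] at hx
    have h1 := (Nat.chineseRemainder hab x.1 x.2).2.1
    have h2 := (Nat.chineseRemainder hab x.1 x.2).2.2
    have h3 : (Nat.chineseRemainder hab x.1 x.2 : ℕ) % a = x.1 := by
      have := h1
      unfold Nat.ModEq at this
      rw [this, Nat.mod_eq_of_lt hx.1]
    have h4 : (Nat.chineseRemainder hab x.1 x.2 : ℕ) % b = x.2 := by
      have := h2
      unfold Nat.ModEq at this
      rw [this, Nat.mod_eq_of_lt hx.2]
    exact Prod.ext h3 h4
  · intro n _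
    rfl

end CrtAux

theorem t_CRT : S_CRT := by
  intro Q
  induction Q using Finset.induction_on with
  | empty =>
    intro _ g
    simp
  | insert p Q hp ih =>
    intro hQ g
    have hQ' : ∀ q ∈ Q, q.Prime := fun q hq => hQ q (mem_insert_of_mem hq)
    have hpp : p.Prime := hQ p (mem_insert_self _ _)
    rw [Finset.prod_insert hp, Finset.prod_insert hp, ← ih hQ' g]
    have hco : Nat.Coprime p (∏ q ∈ Q, q) := by
      refine Nat.Coprime.prod_right fun q hq => ?_
      exact (Nat.coprime_primes hpp (hQ' q hq)).2 (fun h => hp (h ▸ hq))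
    rw [← CrtAux.step p (∏ q ∈ Q, q) hco hpp.ne_zero
      (Finset.prod_ne_zero_iff.2 fun q hq => (hQ' q hq).ne_zero) (g p)
      (fun m => ∏ q ∈ Q, g q (m % q))]
    refine Finset.sum_congr rfl fun n _ => ?_
    rw [Finset.prod_insert hp]
    congr 1
    refine Finset.prod_congr rfl fun q hq => ?_
    rw [Nat.mod_mod_of_dvd n (Finset.dvd_prod_of_mem _ hq)]

end R815.CH
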