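import Mathlib
import Pool.Agent.R815.CH.Stm

namespace R815.CH

open Finset

theorem t_DBL : S_DBL := by
  intro Q hQ a b ha p hp p' hp' hne
  have hpp := hQ p hp
  have hpp' := hQ p' hp'
  have hcop : Nat.Coprime p p' := (Nat.coprime_primes hpp hpp').2 hne
  have hdvd : p * p' ∣ ∏ p ∈ Q, p := by
    have h1 : ({p, p'} : Finset ℕ) ⊆ Q := by
      intro x hx
      rcases Finset.mem_insert.1 hx with h | h
      · rw [h]; exact hp
      · rw [Finset.mem_singleton.1 h]; exact hp'
    have h2 := Finset.prod_dvd_prod_of_subset {p, p'} Q (fun x => x) h1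
    rwa [Finset.prod_pair hne] at h2
  have hr : 0 < p * p' := Nat.mul_pos hpp.pos hpp'.pos
  have hcopa : Nat.Coprime (p * p') a :=
    Nat.Coprime.mul_left ((Nat.Prime.coprime_iff_not_dvd hpp).2 (ha p hp))
      ((Nat.Prime.coprime_iff_not_dvd hpp').2 (ha p' hp'))
  obtain ⟨M, hM⟩ := hdvd
  rw [hM]
  have hp0 : (0 : ℝ) < (p : ℝ) := by exact_mod_cast hpp.pos
  have hp0' : (0 : ℝ) < (p' : ℝ) := by exact_mod_cast hpp'.pos
  have hrhs : ((p * p' * M : ℕ) : ℝ) * (1 / (p : ℝ) * (1 / (p' : ℝ))) = (M : ℝ) := by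
    push_cast
    field_simp
  rw [hrhs]
  have hcard : ((range (p * p' * M)).filter
      (fun n => p ∣ a * n + b ∧ p' ∣ a * n + b)).card ≤ M := by
    rcases ((range (p * p' * M)).filter
      (fun n => p ∣ a * n + b ∧ p' ∣ a * n + b)).eq_empty_or_nonempty with h | ⟨n0, h0⟩
    · rw [h]; simp
    · rw [Finset.mem_filter] at h0
      have h1 : ((range (p * p' * M)).filter (fun n => p ∣ a * n + b ∧ p' ∣ a * n + b)) ⊆
          (range (p * p' * M)).filter (fun n => n ≡ n0 [MOD (p * p')]) := by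
        intro n hn
        rw [Finset.mem_filter] at hn ⊢
        refine ⟨hn.1, ?_⟩
        have h2 : p * p' ∣ a * n + b := hcop.mul_dvd_of_dvd_of_dvd hn.2.1 hn.2.2
        have h3 : p * p' ∣ a * n0 + b := hcop.mul_dvd_of_dvd_of_dvd h0.2.1 h0.2.2
        have h4 : a * n + b ≡ a * n0 + b [MOD (p * p')] :=
          ((Nat.modEq_zero_iff_dvd).2 h2).trans ((Nat.modEq_zero_iff_dvd).2 h3).symm
        have h5 : a * n ≡ a * n0 [MOD (p * p')] := Nat.ModEq.add_right_cancel' b h4
        exact Nat.ModEq.cancel_left_of_coprime hcopa h5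
      refine le_trans (Finset.card_le_card h1) ?_
      have h6 := Nat.count_modEq_card (p * p' * M) hr n0
      rw [Nat.count_eq_card_filter_range] at h6
      rw [h6]
      simp [Nat.mul_mod_right, Nat.mul_div_cancel_left M hr]
  exact_mod_cast hcard

end R815.CH
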