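import Mathlib
import Pool.Agent.R815.CH.Stm

/-! Project CH (MP_3b6bd2_nt): piece DEG. -/

set_option autoImplicit false

namespace R815.CH

open Finset

theorem t_DEG : S_DEG := by
  intro r k A B P h i hA v
  have hcard : Dc P v =
      (Fintype.piFinset (fun j => (P j).filter (fun p => p ∣ v))).card := by
    rw [Fintype.card_piFinset]
    rfl
  rw [hcard]
  apply Finset.card_le_card_of_injOn (fun e => e.1)
  · rintro ⟨w, n⟩ he
    obtain ⟨he1, he2⟩ := Finset.mem_filter.1 he
    have hw : ∀ j, w j ∈ P j := Fintype.mem_piFinset.1 (Finset.mem_sigma.1 he1).1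
    have he2' : dil w * (A i * n + B i) = v := he2
    refine Fintype.mem_piFinset.2 fun j => Finset.mem_filter.2 ⟨hw j, ?_⟩
    rw [← he2']
    exact (Finset.dvd_prod_of_mem w (Finset.mem_univ j)).mul_right _
  · rintro ⟨w, n⟩ he ⟨w', n'⟩ he' heq
    have hww : w = w' := heq
    subst hww
    obtain ⟨he1, he2⟩ := Finset.mem_filter.1 he
    obtain ⟨he1', he2'⟩ := Finset.mem_filter.1 he'
    have e1 : dil w * (A i * n + B i) = v := he2
    have e2 : dil w * (A i * n' + B i) = v := he2'
    have hw : ∀ j, w j ∈ P j := Fintype.mem_piFinset.1 (Finset.mem_sigma.1 he1).1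
    have hpos : 0 < dil w := Finset.prod_pos fun j _ => (h.pr j _ (hw j)).pos
    have h1 : A i * n + B i = A i * n' + B i := Nat.eq_of_mul_eq_mul_left hpos (e1.trans e2.symm)
    have h2 : A i * n = A i * n' := by omega
    have h3 : n = n' := Nat.eq_of_mul_eq_mul_left (by omega) h2
    rw [h3]

end R815.CH
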