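import Mathlib
import Pool.Agent.R815.CH.Stm

namespace R815.CH

namespace E1x

open Finset ArithmeticFunction

theorem sq_unique (d e s t : ℕ) (h : d ^ 2 * s = e ^ 2 * t) (hd : d ≠ 0) (he : e ≠ 0)
    (hs : Squarefree s) (ht : Squarefree t) : d = e := by
  apply Nat.eq_of_factorization_eq hd he
  intro p
  have h1 : (d ^ 2 * s).factorization p = (e ^ 2 * t).factorization p := by rw [h]
  rw [Nat.factorization_mul (pow_ne_zero 2 hd) hs.ne_zero,
    Nat.factorization_mul (pow_ne_zero 2 he) ht.ne_zero, Nat.factorization_pow,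
    Nat.factorization_pow] at h1
  simp only [Finsupp.add_apply, Finsupp.smul_apply, smul_eq_mul] at h1
  have h2 := hs.natFactorization_le_one p
  have h3 := ht.natFactorization_le_one p
  omega

theorem mu_zero_of (n : ℕ) (h : ¬ Squarefree n) : mu n = 0 := by
  unfold mu
  rw [moebius_eq_zero_of_not_squarefree h]
  simp

theorem mu_of_sq (n : ℕ) (h : Squarefree n) : mu n = (-1) ^ (cardFactors n) := by
  unfold mu
  rw [moebius_apply_of_squarefree h]
  push_cast
  rfl

theorem mu_abs (n : ℕ) : |mu n| ≤ 1 := by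
  by_cases h : Squarefree n
  · rw [mu_of_sq n h, abs_pow, abs_neg, abs_one, one_pow]
  · rw [mu_zero_of n h, abs_zero]
    exact zero_le_one

theorem Lam_eq (D0 k e t : ℕ) (he : e ≠ 0) (hk : e ^ 2 * t = k) (ht : Squarefree t) :
    Lam D0 k = if e ∈ Icc 1 D0 then mu t else 0 := by
  have hterm : ∀ d ∈ Icc 1 D0, (if d ^ 2 ∣ k then mu (k / d ^ 2) else 0) =
      if d = e then mu t else 0 := by
    intro d hd
    rw [mem_Icc] at hd
    have hd0 : d ≠ 0 := by omega
    by_cases h1 : d = e
    · subst h1
      rw [if_pos ⟨t, hk.symm⟩, if_pos rfl, ← hk,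
        Nat.mul_div_cancel_left t (Nat.pos_of_ne_zero (pow_ne_zero 2 hd0))]
    · rw [if_neg h1]
      split_ifs with h2
      · apply mu_zero_of
        intro hs
        apply h1
        apply sq_unique d e (k / d ^ 2) t _ hd0 he hs ht
        rw [Nat.mul_div_cancel' h2, hk]
      · rfl
  unfold Lam
  rw [Finset.sum_congr rfl hterm, Finset.sum_ite_eq']

end E1x

open E1x in
theorem t_E1 : S_E1 := by
  intro D0 k
  rcases Nat.eq_zero_or_pos k with h0 | h0
  · subst h0
    refine ⟨?_, fun h => absurd h (by norm_num)⟩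
    have : Lam D0 0 = 0 := by
      unfold Lam
      apply Finset.sum_eq_zero
      intro d _
      rw [if_pos (dvd_zero _), Nat.zero_div]
      exact mu_zero_of 0 not_squarefree_zero
    rw [this, abs_zero]
    exact zero_le_one
  · obtain ⟨t, e, hk, ht⟩ := Nat.sq_mul_squarefree k
    have he : e ≠ 0 := by
      rintro rfl
      simp at hk
      omega
    have hL := Lam_eq D0 k e t he hk ht
    refine ⟨?_, ?_⟩
    · rw [hL]
      split_ifs
      · exact mu_abs t
      · rw [abs_zero]; exact zero_le_one
    · intro _ h2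
      have he2 : e ≤ D0 := by
        by_contra hcon
        push Not at hcon
        exact h2 e hcon ⟨t, hk.symm⟩
      rw [hL, if_pos (Finset.mem_Icc.2 ⟨Nat.one_le_iff_ne_zero.2 he, he2⟩), mu_of_sq t ht, ← hk,
        ArithmeticFunction.cardFactors_mul (pow_ne_zero 2 he) ht.ne_zero,
        ArithmeticFunction.cardFactors_pow, pow_add, pow_mul]
      norm_num

end R815.CH
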