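import Mathlib
import Pool.Agent.R815.CH.Stm

/-! Integers with a large square divisor are rare. -/

set_option autoImplicit false

namespace R815.CH

open Finset Filter

open Classical in
theorem t_E2 : S_E2 := by
  intro D0 X hD
  have hsub : (Icc 1 X).filter (fun k => ∃ d : ℕ, D0 < d ∧ d ^ 2 ∣ k) ⊆
      (Ioc D0 X).biUnion fun d => (Ioc 0 X).filter (fun k => d ^ 2 ∣ k) := by
    intro k hk
    rw [mem_filter, mem_Icc] at hk
    obtain ⟨⟨h1, h2⟩, d, h3, h4⟩ := hk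
    rw [mem_biUnion]
    refine ⟨d, ?_, ?_⟩
    · rw [mem_Ioc]
      have h5 := Nat.le_of_dvd (by omega) h4
      have h6 : d ≤ d ^ 2 := Nat.le_self_pow (by norm_num) d
      omega
    · rw [mem_filter, mem_Ioc]
      exact ⟨⟨by omega, h2⟩, h4⟩
  have h1 : (((Icc 1 X).filter (fun k => ∃ d : ℕ, D0 < d ∧ d ^ 2 ∣ k)).card : ℝ) ≤
      ∑ d ∈ Ioc D0 X, (X : ℝ) * ((d : ℝ) ^ 2)⁻¹ := by
    have h2 := (card_le_card hsub).trans card_biUnion_le
    have h3 : (((Icc 1 X).filter (fun k => ∃ d : ℕ, D0 < d ∧ d ^ 2 ∣ k)).card : ℝ) ≤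
        ((∑ d ∈ Ioc D0 X, ((Ioc 0 X).filter (fun k => d ^ 2 ∣ k)).card : ℕ) : ℝ) := by
      exact_mod_cast h2
    refine h3.trans ?_
    rw [Nat.cast_sum]
    refine sum_le_sum fun d _ => ?_
    rw [Nat.Ioc_filter_dvd_card_eq_div]
    refine Nat.cast_div_le.trans (le_of_eq ?_)
    rw [Nat.cast_pow, div_eq_mul_inv]
  refine h1.trans ?_
  rw [← mul_sum, div_eq_mul_inv]
  apply mul_le_mul_of_nonneg_left _ (Nat.cast_nonneg X)
  rcases Nat.lt_or_ge X D0 with h | h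
  · rw [Ioc_eq_empty (by omega), sum_empty]
    positivity
  · have h2 := sum_Ioc_inv_sq_le_sub (α := ℝ) (k := D0) (n := X) (by omega) h
    have h3 : (0 : ℝ) ≤ (X : ℝ)⁻¹ := by positivity
    linarith

end R815.CH
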