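import Mathlib
import Pool.Agent.R815.CH.Stm

/-!
Project CH (MP_3b6bd2_nt), piece E3.
-/

namespace R815.CH

open Finset Filter

namespace E3x

theorem small_zero : Small (fun _ => 0) := by
  intro ε hε
  refine ⟨0, fun x _ => ?_⟩
  simp only [Finset.sum_const_zero, abs_zero]
  positivity

theorem small_add {f g : ℕ → ℝ} (hf : Small f) (hg : Small g) : Small (fun n => f n + g n) := by
  intro ε hε
  obtain ⟨X1, h1⟩ := hf (ε / 2) (by positivity)
  obtain ⟨X2, h2⟩ := hg (ε / 2) (by positivity)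
  refine ⟨max X1 X2, fun x hx => ?_⟩
  have h3 := h1 x ((le_max_left _ _).trans hx)
  have h4 := h2 x ((le_max_right _ _).trans hx)
  rw [Finset.sum_add_distrib]
  refine (abs_add_le _ _).trans ?_
  have : ε * (x : ℝ) = ε / 2 * x + ε / 2 * x := by ring
  linarith

theorem small_sum {ι : Type} (T : Finset ι) (f : ι → ℕ → ℝ) (h : ∀ i ∈ T, Small (f i)) :
    Small (fun n => ∑ i ∈ T, f i n) := by
  classical
  induction T using Finset.induction_on with
  | empty => simpa using small_zero
  | insert i T hi ih =>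
    have h1 := small_add (h i (Finset.mem_insert_self i T))
      (ih (fun j hj => h j (Finset.mem_insert_of_mem hj)))
    have h2 : (fun n => ∑ j ∈ insert i T, f j n) = fun n => f i n + ∑ j ∈ T, f j n := by
      funext n
      rw [Finset.sum_insert hi]
    rw [h2]
    exact h1

/-- one tuple of square divisors -/
theorem small_term (hG : S_G) (hR : S_RES) (a : ℕ) (ha : 1 ≤ a) (S : Finset ℕ) (hS : S.Nonempty)
    (x : S → ℕ) (hx : ∀ b, 1 ≤ x b) :
    Small (fun n => ∏ b : S, (if (x b) ^ 2 ∣ a * n + (b : ℕ) then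
      mu ((a * n + (b : ℕ)) / (x b) ^ 2) else 0)) := by
  classical
  set Q : ℕ := ∏ b : S, (x b) ^ 2 with hQ
  have hx2 : ∀ b, 0 < (x b) ^ 2 := fun b => by
    have := hx b
    positivity
  have hQ1 : 0 < Q := Finset.prod_pos fun b _ => hx2 b
  have hdQ : ∀ b, (x b) ^ 2 ∣ Q := fun b => Finset.dvd_prod_of_mem _ (Finset.mem_univ b)
  refine hR Q _ hQ1 ?_
  intro c hc
  have hrew : ∀ (b : S) (m : ℕ), a * (Q * m + c) + (b : ℕ) = (x b) ^ 2 * (a * (Q / (x b) ^ 2) * m)
      + (a * c + b) := by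
    intro b m
    have h1 : Q = (x b) ^ 2 * (Q / (x b) ^ 2) := (Nat.mul_div_cancel' (hdQ b)).symm
    calc a * (Q * m + c) + (b : ℕ) = a * Q * m + (a * c + b) := by ring
      _ = a * ((x b) ^ 2 * (Q / (x b) ^ 2)) * m + (a * c + b) := by rw [← h1]
      _ = _ := by ring
  by_cases hall : ∀ b : S, (x b) ^ 2 ∣ a * c + (b : ℕ)
  · -- the main case
    let e : Fin (Fintype.card S) ≃ S := (Fintype.equivFin S).symm
    let A : Fin (Fintype.card S) → ℕ := fun i => a * (Q / (x (e i)) ^ 2)
    let B : Fin (Fintype.card S) → ℕ := fun i => (a * c + (e i : ℕ)) / (x (e i)) ^ 2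
    have hr : 1 ≤ Fintype.card S := by
      rw [Fintype.card_coe]
      exact hS.card_pos
    have hA : ∀ i, 1 ≤ A i := by
      intro i
      exact Nat.mul_pos ha (Nat.div_pos (Nat.le_of_dvd hQ1 (hdQ _)) (hx2 _))
    have hAd : ∀ i, A i * (x (e i)) ^ 2 = a * Q := by
      intro i
      change a * (Q / (x (e i)) ^ 2) * (x (e i)) ^ 2 = a * Q
      rw [mul_assoc, Nat.div_mul_cancel (hdQ _)]
    have hBd : ∀ i, B i * (x (e i)) ^ 2 = a * c + (e i : ℕ) := fun i => Nat.div_mul_cancel (hall _)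
    have hne : ∀ i i', i ≠ i' → A i * B i' ≠ A i' * B i := by
      intro i i' hii hEq
      apply hii
      have h1 : (A i * (x (e i)) ^ 2) * (B i' * (x (e i')) ^ 2)
          = (A i' * (x (e i')) ^ 2) * (B i * (x (e i)) ^ 2) := by
        calc (A i * (x (e i)) ^ 2) * (B i' * (x (e i')) ^ 2)
            = (A i * B i') * ((x (e i)) ^ 2 * (x (e i')) ^ 2) := by ring
          _ = (A i' * B i) * ((x (e i)) ^ 2 * (x (e i')) ^ 2) := by rw [hEq]
          _ = _ := by ring
      rw [hAd, hAd, hBd, hBd] at h1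
      have h2 := Nat.eq_of_mul_eq_mul_left (Nat.mul_pos ha hQ1) h1
      have h3 : (e i' : ℕ) = (e i : ℕ) := by omega
      exact (e.injective (Subtype.ext h3)).symm
    have hmain := hG _ A B hr hA hne
    have hfun : (fun m => ∏ b : S, (if (x b) ^ 2 ∣ a * (Q * m + c) + (b : ℕ) then
        mu ((a * (Q * m + c) + (b : ℕ)) / (x b) ^ 2) else 0))
        = fun m => ∏ i, mu (A i * m + B i) := by
      funext m
      rw [← Equiv.prod_comp e]
      refine Finset.prod_congr rfl fun i _ => ?_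
      have h1 : (x (e i)) ^ 2 ∣ a * (Q * m + c) + (e i : ℕ) := by
        rw [hrew]
        exact (Dvd.intro _ rfl).add (hall _)
      rw [if_pos h1, hrew, Nat.mul_add_div (hx2 _)]
    rw [hfun]
    exact hmain
  · -- a factor vanishes
    push Not at hall
    obtain ⟨b, hb⟩ := hall
    have hfun : (fun m => ∏ b : S, (if (x b) ^ 2 ∣ a * (Q * m + c) + (b : ℕ) then
        mu ((a * (Q * m + c) + (b : ℕ)) / (x b) ^ 2) else 0)) = fun _ => 0 := by
      funext m
      refine Finset.prod_eq_zero (Finset.mem_univ b) ?_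
      rw [if_neg]
      rw [hrew]
      intro hdiv
      exact hb ((Nat.dvd_add_right (Dvd.intro _ rfl)).mp hdiv)
    rw [hfun]
    exact small_zero

end E3x

theorem t_E3 : S_G → S_RES → S_E3 := by
  classical
  intro hG hR D0 a ha S hS
  have hfun : (fun n => ∏ b ∈ S, Lam D0 (a * n + b)) = fun n =>
      ∑ x ∈ Fintype.piFinset (fun _ : S => Icc 1 D0), ∏ b : S,
        (if (x b) ^ 2 ∣ a * n + (b : ℕ) then mu ((a * n + (b : ℕ)) / (x b) ^ 2) else 0) := by
    funext n
    rw [← Finset.prod_coe_sort S (fun b => Lam D0 (a * n + b))]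
    unfold Lam
    rw [Finset.prod_univ_sum]
  rw [hfun]
  refine E3x.small_sum _ _ ?_
  intro x hx
  rw [Fintype.mem_piFinset] at hx
  exact E3x.small_term hG hR a ha S hS x (fun b => (Finset.mem_Icc.mp (hx b)).1)

end R815.CH
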