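import Mathlib
import Pool.Agent.R815.CH.Stm

/-!
# CH-EXP: from the truncated expansions to the Liouville function
-/

set_option autoImplicit false

namespace R815.CH

open Finset Filter

namespace ExpAux

theorem abs_prod_le_one {S : Finset ℕ} (f : ℕ → ℝ) (h : ∀ b ∈ S, |f b| ≤ 1) :
    |∏ b ∈ S, f b| ≤ 1 := by
  rw [Finset.abs_prod]
  exact Finset.prod_le_one (fun b _ => abs_nonneg _) h

theorem sum_Icc_eq (f : ℕ → ℝ) (x : ℕ) :
    ∑ n ∈ Icc 1 x, f n = ∑ n ∈ range (x + 1), f n - f 0 := by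
  have h1 : Icc 1 x = Ico (0 + 1) (x + 1) := by
    ext n; simp only [mem_Icc, mem_Ico]; omega
  have h2 := Finset.sum_eq_sum_Ico_succ_bot (Nat.succ_pos x) f
  rw [h1, Finset.range_eq_Ico]
  have h3 : ∑ k ∈ Ico 0 (x + 1), f k = f 0 + ∑ k ∈ Ico (0 + 1) (x + 1), f k := h2
  rw [h3]; ring

end ExpAux

open ExpAux in
theorem t_EXP : S_E1 → S_E2 → S_E3 → StL := by
  classical
  intro h1 h2 h3 a ha S hS
  rw [Asymptotics.isLittleO_iff]
  intro ε hε
  have hSc : 0 < S.card := hS.card_pos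
  have hScR : (0 : ℝ) < S.card := by exact_mod_cast hSc
  have haR : (0 : ℝ) < a := by exact_mod_cast ha
  obtain ⟨D0, hD0⟩ := exists_nat_gt (8 * (S.card : ℝ) * a / ε)
  have hD0R : (0 : ℝ) < D0 := lt_of_le_of_lt (by positivity) hD0
  have hD1 : 1 ≤ D0 := by exact_mod_cast hD0R
  have hD1R : (1 : ℝ) ≤ D0 := by exact_mod_cast hD1
  obtain ⟨X0, hX0⟩ := h3 D0 a ha S hS (ε / 4) (by positivity)
  obtain ⟨B, hB⟩ : ∃ B : ℕ, ∀ b ∈ S, b ≤ B := ⟨S.sup id, fun b hb => Finset.le_sup (f := id) hb⟩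
  obtain ⟨X1, hX1⟩ := exists_nat_gt (2 * (ε / 4 + 1 + 2 * (S.card : ℝ) * B) / ε)
  rw [Filter.eventually_atTop]
  refine ⟨max X0 X1, fun x hx => ?_⟩
  have hx0 : X0 ≤ x + 1 := (le_trans (le_max_left _ _) hx).trans (Nat.le_succ x)
  have hx1 : X1 ≤ x := le_trans (le_max_right _ _) hx
  set lam : ℕ → ℝ := fun n => ∏ b ∈ S, ((-1 : ℝ)) ^ (ArithmeticFunction.cardFactors (a * n + b))
    with hlam
  set L : ℕ → ℝ := fun n => ∏ b ∈ S, Lam D0 (a * n + b) with hL
  set bad : Finset ℕ := (Icc 1 x).filter (fun n => ∃ b ∈ S, ∃ d : ℕ, D0 < d ∧ d ^ 2 ∣ a * n + b)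
    with hbad
  -- the number of bad integers
  have hcard : (bad.card : ℝ) ≤ S.card * (((a * x + B : ℕ) : ℝ) / D0) := by
    have hsub : bad ⊆ S.biUnion (fun b => (Icc 1 x).filter
        (fun n => ∃ d : ℕ, D0 < d ∧ d ^ 2 ∣ a * n + b)) := by
      intro n hn
      rw [hbad, Finset.mem_filter] at hn
      obtain ⟨hn1, b, hb, hd⟩ := hn
      exact Finset.mem_biUnion.2 ⟨b, hb, Finset.mem_filter.2 ⟨hn1, hd⟩⟩
    have hle : bad.card ≤ ∑ b ∈ S, ((Icc 1 x).filter
        (fun n => ∃ d : ℕ, D0 < d ∧ d ^ 2 ∣ a * n + b)).card :=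
      (Finset.card_le_card hsub).trans Finset.card_biUnion_le
    have hle' : (bad.card : ℝ) ≤ ∑ b ∈ S, ((((Icc 1 x).filter
        (fun n => ∃ d : ℕ, D0 < d ∧ d ^ 2 ∣ a * n + b)).card : ℕ) : ℝ) := by
      exact_mod_cast hle
    refine hle'.trans ?_
    have hterm : ∀ b ∈ S, ((((Icc 1 x).filter
        (fun n => ∃ d : ℕ, D0 < d ∧ d ^ 2 ∣ a * n + b)).card : ℕ) : ℝ) ≤
          ((a * x + B : ℕ) : ℝ) / D0 := by
      intro b hb
      refine le_trans ?_ (h2 D0 (a * x + B) hD1)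
      have : ((Icc 1 x).filter (fun n => ∃ d : ℕ, D0 < d ∧ d ^ 2 ∣ a * n + b)).card ≤
          ((Icc 1 (a * x + B)).filter (fun k => ∃ d : ℕ, D0 < d ∧ d ^ 2 ∣ k)).card := by
        refine Finset.card_le_card_of_injOn (fun n => a * n + b) ?_ ?_
        · intro n hn
          simp only [Finset.coe_filter, Set.mem_ofPred_eq, Finset.mem_Icc] at hn ⊢
          obtain ⟨⟨hn1, hn2⟩, hd⟩ := hn
          refine ⟨⟨?_, ?_⟩, hd⟩
          · have : 1 * 1 ≤ a * n := Nat.mul_le_mul ha hn1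
            omega
          · exact Nat.add_le_add (Nat.mul_le_mul_left a hn2) (hB b hb)
        · intro n _ m _ hnm
          have hnm' : a * n + b = a * m + b := hnm
          have : a * n = a * m := by omega
          exact Nat.eq_of_mul_eq_mul_left ha this
      exact_mod_cast this
    refine (Finset.sum_le_sum hterm).trans ?_
    rw [Finset.sum_const, nsmul_eq_mul]
  -- pointwise comparison
  have hlam1 : ∀ n, |lam n| ≤ 1 := by
    intro n
    refine abs_prod_le_one _ fun b _ => ?_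
    rw [abs_pow, abs_neg, abs_one, one_pow]
  have hL1 : ∀ n, |L n| ≤ 1 := fun n => abs_prod_le_one _ fun b _ => (h1 D0 (a * n + b)).1
  have hpt : ∀ n ∈ Icc 1 x, |lam n - L n| ≤ if n ∈ bad then 2 else 0 := by
    intro n hn
    split_ifs with hnb
    · have e1 := hlam1 n
      have e2 := hL1 n
      have e3 := abs_sub (lam n) (L n)
      linarith
    · have heq : lam n = L n := by
        refine Finset.prod_congr rfl fun b hb => ?_
        refine (h1 D0 (a * n + b)).2 ?_ ?_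
        · have h11 : 1 * 1 ≤ a * n := Nat.mul_le_mul ha (Finset.mem_Icc.1 hn).1
          omega
        · intro d hd hdvd
          exact hnb (Finset.mem_filter.2 ⟨hn, b, hb, d, hd, hdvd⟩)
      rw [heq, sub_self, abs_zero]
  have hdiff : |∑ n ∈ Icc 1 x, lam n - ∑ n ∈ Icc 1 x, L n| ≤ 2 * bad.card := by
    rw [← Finset.sum_sub_distrib]
    refine (Finset.abs_sum_le_sum_abs _ _).trans ((Finset.sum_le_sum hpt).trans ?_)
    rw [← Finset.sum_filter]
    rw [Finset.sum_const, nsmul_eq_mul]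
    have : ((Icc 1 x).filter (fun n => n ∈ bad)).card ≤ bad.card :=
      Finset.card_le_card fun n hn => (Finset.mem_filter.1 hn).2
    have h' : (((Icc 1 x).filter (fun n => n ∈ bad)).card : ℝ) ≤ bad.card := by exact_mod_cast this
    linarith
  have hLsum : |∑ n ∈ Icc 1 x, L n| ≤ ε / 4 * (x + 1) + 1 := by
    rw [sum_Icc_eq]
    have e1 := hX0 (x + 1) hx0
    have e2 := hL1 0
    have e3 := abs_sub (∑ n ∈ range (x + 1), L n) (L 0)
    push_cast at e1
    have e4 : |∑ n ∈ range (x + 1), L n| ≤ ε / 4 * (x + 1) := e1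
    linarith
  have htri : |∑ n ∈ Icc 1 x, lam n| ≤ 2 * bad.card + (ε / 4 * (x + 1) + 1) := by
    have e1 := abs_add_le (∑ n ∈ Icc 1 x, lam n - ∑ n ∈ Icc 1 x, L n) (∑ n ∈ Icc 1 x, L n)
    rw [sub_add_cancel] at e1
    linarith
  have hxR : (0 : ℝ) ≤ x := Nat.cast_nonneg x
  have hBR : (0 : ℝ) ≤ B := Nat.cast_nonneg B
  -- the final estimate
  have hq : 2 * ((S.card : ℝ) * (((a * x + B : ℕ) : ℝ) / D0)) ≤ ε / 4 * x + 2 * S.card * B := by
    push_cast
    have e1 : 2 * ((S.card : ℝ) * ((a * x + B) / D0)) =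
        2 * S.card * a / D0 * x + 2 * S.card * B / D0 := by
      field_simp
    rw [e1]
    have e2 : 2 * (S.card : ℝ) * a / D0 ≤ ε / 4 := by
      rw [div_le_iff₀ hD0R]
      rw [div_lt_iff₀ hε] at hD0
      linarith
    have e3 : 2 * (S.card : ℝ) * B / D0 ≤ 2 * S.card * B :=
      div_le_self (by positivity) hD1R
    have e4 := mul_le_mul_of_nonneg_right e2 hxR
    linarith
  have hX1' : 2 * (ε / 4 + 1 + 2 * (S.card : ℝ) * B) ≤ ε * x := by
    have e1 : 2 * (ε / 4 + 1 + 2 * (S.card : ℝ) * B) / ε < x :=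
      lt_of_lt_of_le hX1 (by exact_mod_cast hx1)
    rw [div_lt_iff₀ hε] at e1
    linarith
  rw [Real.norm_eq_abs, Real.norm_eq_abs, abs_of_nonneg hxR]
  refine htri.trans ?_
  linarith

end R815.CH
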