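import Mathlib
import Pool.Agent.R815.CH.Stm

/-! EXPM: exponential moments of random signs from vanishing correlations. -/

namespace R815.CH

open Finset Filter

namespace Expm394

lemma small_zero : Small (fun _ => (0 : ℝ)) := by
  intro ε hε
  refine ⟨0, fun x _ => ?_⟩
  simp only [sum_const_zero, abs_zero]
  positivity

lemma small_add {f g : ℕ → ℝ} (hf : Small f) (hg : Small g) : Small (fun n => f n + g n) := by
  intro ε hε
  obtain ⟨X, hX⟩ := hf (ε / 2) (by positivity)
  obtain ⟨Y, hY⟩ := hg (ε / 2) (by positivity)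
  refine ⟨max X Y, fun x hx => ?_⟩
  have h1 := hX x ((le_max_left _ _).trans hx)
  have h2 := hY x ((le_max_right _ _).trans hx)
  rw [sum_add_distrib]
  have h3 := abs_add_le (∑ n ∈ range x, f n) (∑ n ∈ range x, g n)
  linarith

lemma small_mul (a : ℝ) {f : ℕ → ℝ} (hf : Small f) : Small (fun n => a * f n) := by
  intro ε hε
  obtain ⟨X, hX⟩ := hf (ε / (|a| + 1)) (by positivity)
  refine ⟨X, fun x hx => ?_⟩
  have h1 := hX x hx
  rw [← mul_sum, abs_mul]
  have h2 : |a| * |∑ n ∈ range x, f n| ≤ |a| * (ε / (|a| + 1) * x) :=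
    mul_le_mul_of_nonneg_left h1 (abs_nonneg a)
  have h3 : |a| * (ε / (|a| + 1) * x) ≤ ε * x := by
    have h4 : |a| * (ε / (|a| + 1)) ≤ ε := by
      rw [mul_div_assoc', div_le_iff₀ (by positivity)]
      nlinarith [abs_nonneg a]
    have h5 : (0 : ℝ) ≤ x := Nat.cast_nonneg x
    nlinarith
  linarith

lemma small_sum {ι : Type*} [DecidableEq ι] (s : Finset ι) (f : ι → ℕ → ℝ) :
    (∀ i ∈ s, Small (f i)) → Small (fun n => ∑ i ∈ s, f i n) := by
  induction s using Finset.induction_on with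
  | empty => intro _; simpa using small_zero
  | insert a s ha ih =>
    intro h
    have h1 := small_add (h a (mem_insert_self a s)) (ih fun i hi => h i (mem_insert_of_mem hi))
    simpa only [sum_insert ha] using h1

lemma exp_sign (z c : ℝ) (hz : z = 0 ∨ z = 1 ∨ z = -1) :
    Real.exp (z * c) = z * Real.sinh c + (z ^ 2 * (Real.cosh c - 1) + 1) := by
  rcases hz with rfl | rfl | rfl
  · simp
  · rw [one_mul, one_mul, one_pow, one_mul, ← Real.cosh_add_sinh]; ring
  · rw [neg_one_mul, ← Real.cosh_sub_sinh]; ring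

end Expm394

open Expm394

theorem t_EXPM : S_EXPM := by
  intro V _ U c z hz hS ε hε
  -- the expansion
  have hexp : ∀ m, Real.exp (∑ u ∈ U, z m u * c u) =
      ∑ F ∈ U.powerset, (∏ u ∈ F, (z m u * Real.sinh (c u))) *
        ∏ u ∈ U \ F, (z m u ^ 2 * (Real.cosh (c u) - 1) + 1) := by
    intro m
    rw [Real.exp_sum, prod_congr rfl (fun u _ => exp_sign (z m u) (c u) (hz m u)), prod_add]
  have hempty : (∅ : Finset V) ∈ U.powerset := by simp
  have hsplit : ∀ m, Real.exp (∑ u ∈ U, z m u * c u) =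
      (∏ u ∈ U, (z m u ^ 2 * (Real.cosh (c u) - 1) + 1)) +
      ∑ F ∈ U.powerset.erase ∅, (∏ u ∈ F, (z m u * Real.sinh (c u))) *
        ∏ u ∈ U \ F, (z m u ^ 2 * (Real.cosh (c u) - 1) + 1) := by
    intro m
    rw [hexp, ← add_sum_erase _ _ hempty, prod_empty, one_mul, sdiff_empty]
  -- the main term
  have hmain : ∀ m, ∏ u ∈ U, (z m u ^ 2 * (Real.cosh (c u) - 1) + 1) ≤
      Real.exp ((∑ u ∈ U, c u ^ 2) / 2) := by
    intro m
    rw [sum_div, Real.exp_sum]
    refine prod_le_prod (fun u _ => ?_) (fun u _ => ?_)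
    · have h1 := Real.one_le_cosh (c u)
      have : 0 ≤ z m u ^ 2 * (Real.cosh (c u) - 1) := mul_nonneg (sq_nonneg _) (by linarith)
      linarith
    · have h1 := Real.one_le_cosh (c u)
      have h2 : z m u ^ 2 ≤ 1 := by
        rcases hz m u with h | h | h <;> rw [h] <;> norm_num
      have h3 := Real.cosh_le_exp_half_sq (c u)
      nlinarith
  -- the other terms
  have hrest : Small (fun m => ∑ F ∈ U.powerset.erase ∅,
      (∏ u ∈ F, (z m u * Real.sinh (c u))) *
        ∏ u ∈ U \ F, (z m u ^ 2 * (Real.cosh (c u) - 1) + 1)) := by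
    refine small_sum _ _ fun F hF => ?_
    rw [mem_erase, mem_powerset] at hF
    have h1 : ∀ m, (∏ u ∈ F, (z m u * Real.sinh (c u))) *
        ∏ u ∈ U \ F, (z m u ^ 2 * (Real.cosh (c u) - 1) + 1) =
        ∑ F' ∈ (U \ F).powerset, ((∏ u ∈ F, Real.sinh (c u)) * ∏ u ∈ F', (Real.cosh (c u) - 1)) *
          ((∏ u ∈ F, z m u) * ∏ u ∈ F', (z m u) ^ 2) := by
      intro m
      rw [prod_add, mul_sum]
      refine sum_congr rfl fun F' _ => ?_
      rw [prod_mul_distrib, prod_mul_distrib, prod_const_one]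
      ring
    simp_rw [h1]
    refine small_sum _ _ fun F' hF' => ?_
    rw [mem_powerset] at hF'
    exact small_mul _ (hS F hF.2 (nonempty_iff_ne_empty.2 hF.1) F' (hF'.trans sdiff_subset))
  obtain ⟨M0, hM0⟩ := hrest ε hε
  refine ⟨M0, fun M hM => ?_⟩
  have h2 := hM0 M hM
  simp_rw [hsplit]
  rw [sum_add_distrib]
  have h3 : ∑ m ∈ range M, ∏ u ∈ U, (z m u ^ 2 * (Real.cosh (c u) - 1) + 1) ≤
      M * Real.exp ((∑ u ∈ U, c u ^ 2) / 2) := by
    calc ∑ m ∈ range M, ∏ u ∈ U, (z m u ^ 2 * (Real.cosh (c u) - 1) + 1)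
        ≤ ∑ _m ∈ range M, Real.exp ((∑ u ∈ U, c u ^ 2) / 2) := sum_le_sum fun m _ => hmain m
      _ = M * Real.exp ((∑ u ∈ U, c u ^ 2) / 2) := by
          rw [sum_const, card_range, nsmul_eq_mul]
  have h4 := (le_abs_self _).trans h2
  rw [mul_add]
  linarith

end R815.CH
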