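import Mathlib
import Pool.Agent.R815.CH.Stm

namespace R815.CH

open Finset Filter

namespace FinAux

theorem mu_abs_le (n : ℕ) : |mu n| ≤ 1 := by
  unfold mu
  have h := ArithmeticFunction.abs_moebius_le_one (n := n)
  have h2 : |((ArithmeticFunction.moebius n : ℤ) : ℝ)| = ((|ArithmeticFunction.moebius n| : ℤ) : ℝ) := by
    push_cast; rfl
  rw [h2]
  exact_mod_cast h

theorem prod_abs_le {r : ℕ} (g : Fin r → ℕ) : |∏ i, mu (g i)| ≤ 1 := by
  rw [Finset.abs_prod]
  exact Finset.prod_le_one (fun i _ => abs_nonneg _) (fun i _ => mu_abs_le _)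

theorem sum_range_diff (f : ℕ → ℝ) (hf : ∀ n, |f n| ≤ 1) (x y : ℕ) :
    |∑ n ∈ range x, f n - ∑ n ∈ range y, f n| ≤ |(y : ℝ) - x| := by
  wlog h : x ≤ y generalizing x y with H
  · have := H y x (le_of_not_ge h)
    rw [abs_sub_comm, abs_sub_comm (y : ℝ)]
    exact this
  · have h1 : ∑ n ∈ range y, f n = ∑ n ∈ range x, f n + ∑ n ∈ Ico x y, f n := by
      rw [Finset.sum_range_add_sum_Ico f h]
    rw [h1]
    have h2 : ∑ n ∈ range x, f n - (∑ n ∈ range x, f n + ∑ n ∈ Ico x y, f n) = - ∑ n ∈ Ico x y, f n := by ring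
    rw [h2, abs_neg]
    calc |∑ n ∈ Ico x y, f n| ≤ ∑ n ∈ Ico x y, |f n| := Finset.abs_sum_le_sum_abs _ _
      _ ≤ ∑ n ∈ Ico x y, (1 : ℝ) := Finset.sum_le_sum (fun n _ => hf n)
      _ = ((y - x : ℕ) : ℝ) := by simp
      _ = (y : ℝ) - x := by rw [Nat.cast_sub h]
      _ ≤ |(y : ℝ) - x| := le_abs_self _

variable {r k : ℕ} {A B : Fin r → ℕ} {P : Fin k → Finset ℕ}

theorem dil_mul (w : Fin k → ℕ) (hw : w ∈ Om P) : dil w * Nw P w = bigN P := by
  unfold dil Nw bigN
  rw [← Finset.prod_mul_distrib]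
  apply Finset.prod_congr rfl
  intro j _
  exact Finset.mul_prod_erase (P j) (fun p => p) (Fintype.mem_piFinset.mp hw j)

theorem dil_pos (h : Sys A B P) (w : Fin k → ℕ) (hw : w ∈ Om P) : 0 < dil w := by
  unfold dil
  apply Finset.prod_pos
  intro j _
  exact (h.pr j _ (Fintype.mem_piFinset.mp hw j)).pos

theorem N_pos (h : Sys A B P) : 0 < bigN P := by
  unfold bigN
  apply Finset.prod_pos
  intro j _
  apply Finset.prod_pos
  intro p hp
  exact (h.pr j p hp).pos

theorem Om_ne (h : Sys A B P) : (Om P).Nonempty := by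
  unfold Om
  rw [Fintype.piFinset_nonempty]
  exact h.ne

theorem Nw_real (h : Sys A B P) (w : Fin k → ℕ) (hw : w ∈ Om P) :
    (Nw P w : ℝ) = (bigN P : ℝ) * (1 / (dil w : ℝ)) := by
  have h1 := dil_mul w hw
  have h2 : (0 : ℝ) < dil w := by exact_mod_cast dil_pos h w hw
  have h3 : (dil w : ℝ) * Nw P w = bigN P := by exact_mod_cast h1
  rw [← h3]
  field_simp

theorem Ec_real (h : Sys A B P) : (Ec P : ℝ) = (bigN P : ℝ) * ∑ w ∈ Om P, (1 / (dil w : ℝ)) := by
  unfold Ec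
  rw [Nat.cast_sum, Finset.mul_sum]
  exact Finset.sum_congr rfl (fun w hw => Nw_real h w hw)

theorem invsum_pos (h : Sys A B P) : 0 < ∑ w ∈ Om P, (1 / (dil w : ℝ)) := by
  apply Finset.sum_pos
  · intro w hw
    have h2 : (0 : ℝ) < dil w := by exact_mod_cast dil_pos h w hw
    positivity
  · exact Om_ne h

theorem hm_pos (h : Sys A B P) : 0 < hm P := by
  unfold hm
  apply div_pos
  · exact_mod_cast (Om_ne h).card_pos
  · exact invsum_pos h

theorem hm_mul (h : Sys A B P) : hm P * ∑ w ∈ Om P, (1 / (dil w : ℝ)) = (Om P).card := by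
  unfold hm
  exact div_mul_cancel₀ _ (invsum_pos h).ne'

theorem Ec_pos (h : Sys A B P) : (0 : ℝ) < Ec P := by
  rw [Ec_real h]
  have h1 : (0 : ℝ) < bigN P := by exact_mod_cast N_pos h
  exact mul_pos h1 (invsum_pos h)

/-- the deterministic estimate -/
theorem main_est (hT1 : S_T1) (hCONC : S_CONC) (h : Sys A B P) (e' : ℝ) (he' : 0 ≤ e')
    (hw1 : ∀ w ∈ Om P, ∑ j, (1 / (w j : ℝ)) ≤ e')
    (hρ : (∏ j, (((P j).card : ℝ) * (∑ p ∈ P j, (1 / (p : ℝ) ^ 2)) /
        (∑ p ∈ P j, (1 / (p : ℝ))) ^ 2)) ≤ 1 + e') (x M : ℕ)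
    (hM : M = ⌊hm P * x / bigN P⌋₊) (X : ℝ)
    (hX : ∑ m ∈ range M, |∑ w ∈ Om P, ∑ n ∈ range (Nw P w),
          ∏ i, mu (A i * bigN P * m + dil w * (A i * n + B i))| ≤ X) :
    ((Om P).card : ℝ) * |∑ n ∈ range x, ∏ i, mu (A i * n + B i)| ≤
      (Om P).card * x * Real.sqrt e' + Ec P + r * e' * ((Om P).card * x) + r * k * (Om P).card + X := by
  have hN : (0 : ℝ) < bigN P := by exact_mod_cast N_pos h
  have hhm := hm_pos h
  have hx0 : (0 : ℝ) ≤ x := Nat.cast_nonneg x
  have hq0 : 0 ≤ hm P * x / bigN P := by positivity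
  have hMle : (M : ℝ) ≤ hm P * x / bigN P := by rw [hM]; exact Nat.floor_le hq0
  have hMge : hm P * x / bigN P - 1 ≤ (M : ℝ) := by
    rw [hM]
    have := Nat.lt_floor_add_one (hm P * x / bigN P)
    linarith
  set F : ℕ → ℝ := fun n => ∏ i, mu (A i * n + B i) with hF
  set G : (Fin k → ℕ) → ℕ → ℝ := fun w m => ∑ n ∈ range (Nw P w),
          ∏ i, mu (A i * bigN P * m + dil w * (A i * n + B i)) with hG
  set s0 : ℝ := (((-1 : ℝ) ^ k) ^ r) with hs0
  have hs0' : |s0| = 1 := by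
    rw [hs0, abs_pow, abs_pow, abs_neg, abs_one, one_pow, one_pow]
  have hFb : ∀ n, |F n| ≤ 1 := fun n => prod_abs_le _
  -- per w
  have hper : ∀ w ∈ Om P, |∑ n ∈ range x, F n - s0 * ∑ m ∈ range M, G w m| ≤
      (|hm P / (dil w : ℝ) - 1| * x + Nw P w) + (r * e' * (Nw P w * M) + r * k) := by
    intro w hw
    have hd : (0 : ℝ) < dil w := by exact_mod_cast dil_pos h w hw
    have h1 := sum_range_diff F hFb x (Nw P w * M)
    have h2 := hT1 r k A B P h w hw M
    have h3 : |((Nw P w * M : ℕ) : ℝ) - x| ≤ |hm P / (dil w : ℝ) - 1| * x + Nw P w := by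
      have hNw := Nw_real h w hw
      have hNw0 : (0 : ℝ) ≤ Nw P w := Nat.cast_nonneg _
      have e1 : (Nw P w : ℝ) * (hm P * x / bigN P) = hm P / dil w * x := by
        rw [hNw]; field_simp
      have u1 : (Nw P w : ℝ) * M ≤ hm P / dil w * x := by
        rw [← e1]; exact mul_le_mul_of_nonneg_left hMle hNw0
      have u2 : hm P / dil w * x - Nw P w ≤ (Nw P w : ℝ) * M := by
        have := mul_le_mul_of_nonneg_left hMge hNw0
        rw [mul_sub, e1] at this
        linarith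
      have u3 : (hm P / (dil w : ℝ) - 1) * x ≤ |hm P / (dil w : ℝ) - 1| * x :=
        mul_le_mul_of_nonneg_right (le_abs_self _) hx0
      have u4 : -(hm P / (dil w : ℝ) - 1) * x ≤ |hm P / (dil w : ℝ) - 1| * x :=
        mul_le_mul_of_nonneg_right (neg_le_abs _) hx0
      push_cast
      rw [abs_le]
      constructor
      · linarith
      · linarith
    have h4 : (r : ℝ) * (∑ j, (1 / (w j : ℝ))) * (Nw P w * M) ≤ r * e' * (Nw P w * M) := by
      have := hw1 w hw
      have h5 : (r : ℝ) * (∑ j, (1 / (w j : ℝ))) ≤ r * e' := mul_le_mul_of_nonneg_left this (Nat.cast_nonneg _)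
      exact mul_le_mul_of_nonneg_right h5 (by positivity)
    calc |∑ n ∈ range x, F n - s0 * ∑ m ∈ range M, G w m|
        = |(∑ n ∈ range x, F n - ∑ n ∈ range (Nw P w * M), F n) +
            (∑ n ∈ range (Nw P w * M), F n - s0 * ∑ m ∈ range M, G w m)| := by ring_nf
      _ ≤ |(∑ n ∈ range x, F n - ∑ n ∈ range (Nw P w * M), F n)| +
            |(∑ n ∈ range (Nw P w * M), F n - s0 * ∑ m ∈ range M, G w m)| := abs_add_le _ _
      _ ≤ _ := by
        have h6 := h1.trans h3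
        have h7 : |(∑ n ∈ range (Nw P w * M), F n - s0 * ∑ m ∈ range M, G w m)| ≤
          r * (∑ j, (1 / (w j : ℝ))) * (Nw P w * M) + r * k := h2
        linarith
  -- sum over w
  have hsum : |∑ w ∈ Om P, (∑ n ∈ range x, F n - s0 * ∑ m ∈ range M, G w m)| ≤
      ∑ w ∈ Om P, ((|hm P / (dil w : ℝ) - 1| * x + Nw P w) + (r * e' * (Nw P w * M) + r * k)) :=
    (Finset.abs_sum_le_sum_abs _ _).trans (Finset.sum_le_sum hper)
  have hsum2 : ∑ w ∈ Om P, ((|hm P / (dil w : ℝ) - 1| * x + Nw P w) + (r * e' * (Nw P w * M) + r * k)) =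
      (∑ w ∈ Om P, |hm P / (dil w : ℝ) - 1|) * x + Ec P + r * e' * (Ec P * M) + r * k * (Om P).card := by
    rw [Finset.sum_add_distrib, Finset.sum_add_distrib, Finset.sum_add_distrib, ← Finset.sum_mul,
      ← Finset.mul_sum, ← Finset.sum_mul, Finset.sum_const, nsmul_eq_mul]
    unfold Ec
    push_cast
    ring
  have hconc := hCONC r k A B P h
  have hsq : Real.sqrt ((∏ j, (((P j).card : ℝ) * (∑ p ∈ P j, (1 / (p : ℝ) ^ 2)) /
        (∑ p ∈ P j, (1 / (p : ℝ))) ^ 2)) - 1) ≤ Real.sqrt e' := Real.sqrt_le_sqrt (by linarith)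
  have hcard0 : (0 : ℝ) ≤ (Om P).card := Nat.cast_nonneg _
  have hconc2 : (∑ w ∈ Om P, |hm P / (dil w : ℝ) - 1|) * x ≤ (Om P).card * x * Real.sqrt e' := by
    have h1 := hconc.trans (mul_le_mul_of_nonneg_left hsq hcard0)
    have h2 := mul_le_mul_of_nonneg_right h1 hx0
    calc _ ≤ _ := h2
      _ = _ := by ring
  have hEM : (Ec P : ℝ) * M ≤ (Om P).card * x := by
    have h1 : (Ec P : ℝ) * M ≤ Ec P * (hm P * x / bigN P) :=
      mul_le_mul_of_nonneg_left hMle (Nat.cast_nonneg _)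
    have h2 : (Ec P : ℝ) * (hm P * x / bigN P) = (Om P).card * x := by
      rw [Ec_real h, ← hm_mul h]
      field_simp
    linarith
  have hre : (r : ℝ) * e' * (Ec P * M) ≤ r * e' * ((Om P).card * x) :=
    mul_le_mul_of_nonneg_left hEM (by positivity)
  have hid : ∑ w ∈ Om P, (∑ n ∈ range x, F n - s0 * ∑ m ∈ range M, G w m) =
      (Om P).card * (∑ n ∈ range x, F n) - s0 * ∑ m ∈ range M, ∑ w ∈ Om P, G w m := by
    rw [Finset.sum_sub_distrib, Finset.sum_const, nsmul_eq_mul, ← Finset.mul_sum, Finset.sum_comm]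
  rw [hid] at hsum
  have hXX : |s0 * ∑ m ∈ range M, ∑ w ∈ Om P, G w m| ≤ X := by
    rw [abs_mul, hs0', one_mul]
    exact (Finset.abs_sum_le_sum_abs _ _).trans hX
  have hfin : ((Om P).card : ℝ) * |∑ n ∈ range x, F n| ≤
      |(Om P).card * (∑ n ∈ range x, F n) - s0 * ∑ m ∈ range M, ∑ w ∈ Om P, G w m| +
        |s0 * ∑ m ∈ range M, ∑ w ∈ Om P, G w m| := by
    have h1 : ((Om P).card : ℝ) * |∑ n ∈ range x, F n| = |(Om P).card * (∑ n ∈ range x, F n)| := by
      rw [abs_mul, abs_of_nonneg hcard0]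
    rw [h1]
    have := abs_add_le ((Om P).card * (∑ n ∈ range x, F n) - s0 * ∑ m ∈ range M, ∑ w ∈ Om P, G w m)
      (s0 * ∑ m ∈ range M, ∑ w ∈ Om P, G w m)
    simpa using this
  rw [hsum2] at hsum
  linarith

end FinAux

open FinAux in
theorem t_FIN : SmM → S_RND → S_SYSB → S_T1 → S_CONC → S_PAR → S_CHOOSE → S_G := by
  intro hM hRND hSYSB hT1 hCONC hPAR hCH r A B hr hA hAB
  by_cases hr1 : r = 1
  · subst hr1
    have := hM (A 0) (hA 0) {B 0} (Finset.singleton_nonempty _) ∅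
    simpa using this
  have hr2 : 2 ≤ r := by omega
  intro ε hε
  set e : ℝ := ε / 8 with he
  have he0 : 0 < e := by positivity
  obtain ⟨T, S, q, H, hS, hq, hH, hc1, hc2, hc3⟩ := hCH r (∑ i, (A i + B i)) e he0
  have hrR : (0 : ℝ) < r := by exact_mod_cast (by omega : 0 < r)
  set e' : ℝ := min 1 (min (e / r) (e ^ 2)) with he'
  have he'0 : 0 < e' := by positivity
  have he'1 : e' ≤ 1 := min_le_left _ _
  have he'2 : e' ≤ e / r := (min_le_right _ _).trans (min_le_left _ _)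
  have he'3 : e' ≤ e ^ 2 := (min_le_right _ _).trans (min_le_right _ _)
  have hre' : (r : ℝ) * e' ≤ e := by
    have := mul_le_mul_of_nonneg_left he'2 hrR.le
    rwa [mul_div_cancel₀ _ hrR.ne'] at this
  have hsqe : Real.sqrt e' ≤ e := by
    rw [Real.sqrt_le_left he0.le]
    exact he'3
  obtain ⟨k, P, hne, hpr, hdisj, hbd, hH1, hH2, hrec2, hw1, hρ⟩ :=
    hPAR e' he'0 (5 + ∑ i, A i + ∑ i, ∑ i', A i * B i') H
  have hSys : Sys A B P := by
    refine ⟨hne, hpr, hdisj, ?_, ?_, ?_⟩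
    · intro j p hp
      have := hbd j p hp
      omega
    · intro j p hp i hdiv
      have h1 := hbd j p hp
      have h2 := Nat.le_of_dvd (by have := hA i; omega) hdiv
      have h3 : A i ≤ ∑ i, A i := Finset.single_le_sum (f := A) (fun _ _ => Nat.zero_le _) (Finset.mem_univ i)
      omega
    · intro j p hp i i' hii hmod
      have h1 := hbd j p hp
      have h3 : ∀ i i', A i * B i' ≤ ∑ i, ∑ i', A i * B i' := by
        intro i i'
        calc A i * B i' ≤ ∑ i', A i * B i' :=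
              Finset.single_le_sum (f := fun i' => A i * B i') (fun _ _ => Nat.zero_le _) (Finset.mem_univ i')
          _ ≤ _ := Finset.single_le_sum (f := fun i => ∑ i', A i * B i') (fun _ _ => Nat.zero_le _) (Finset.mem_univ i)
      have h4 := h3 i i'
      have h5 := h3 i' i
      have h6 : A i * B i' < p := by omega
      have h7 : A i' * B i < p := by omega
      have h8 : A i * B i' = A i' * B i := Nat.ModEq.eq_of_lt_of_lt hmod h6 h7
      exact hAB i i' hii h8
  have hrec1 : rec1 P ≤ H + 1 := by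
    rw [max_eq_left (by linarith)] at hH2
    exact hH2
  have hbad : ∀ w ∈ Om P, ((badF A B P T S w).card : ℝ) ≤ (3 * e) * (Nw P w : ℝ) := by
    intro w hw
    apply hRND r k A B P hSys w hw T S q hS hq (3 * e)
    have hqpos : (0 : ℝ) < (q : ℝ) ^ 2 := by
      have : (0 : ℝ) < q := by exact_mod_cast (by omega : 0 < q)
      positivity
    have h1 : (r : ℝ) * rec2 P ≤ e := by
      calc (r : ℝ) * rec2 P ≤ r * e' := mul_le_mul_of_nonneg_left hrec2 hrR.le
        _ ≤ e := hre'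
    have h2 : (r : ℝ) ^ 2 * ((2 * T + 1) * (1 / (q : ℝ) +
      Real.exp (-(16 * (rec1 P - ∑ j, (1 / (w j : ℝ))) / (q : ℝ) ^ 2)))) ≤ e := by
      refine le_trans ?_ hc1
      have h3 : Real.exp (-(16 * (rec1 P - ∑ j, (1 / (w j : ℝ))) / (q : ℝ) ^ 2)) ≤
          Real.exp (-(16 * (H - 1) / (q : ℝ) ^ 2)) := by
        apply Real.exp_le_exp.mpr
        apply neg_le_neg
        apply div_le_div_of_nonneg_right _ hqpos.le
        have := hw1 w hw
        linarith
      have h4 : (0 : ℝ) ≤ (2 * T + 1) := by positivity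
      have h5 : (0 : ℝ) ≤ (r : ℝ) ^ 2 := by positivity
      apply mul_le_mul_of_nonneg_left _ h5
      apply mul_le_mul_of_nonneg_left _ h4
      linarith
    have h3 : (r : ℝ) * (rec1 P / S) ≤ e := by
      refine le_trans ?_ hc2
      apply mul_le_mul_of_nonneg_left _ hrR.le
      exact div_le_div_of_nonneg_right hrec1 (Nat.cast_nonneg _)
    linarith
  have hEc := Ec_pos hSys
  obtain ⟨M0, hM0⟩ := hSYSB r k A B P hr2 hA hSys T S (3 * e) hbad (e * Ec P) (by positivity)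
  have hN : (0 : ℝ) < bigN P := by exact_mod_cast N_pos hSys
  have hhm := hm_pos hSys
  have hcard : (0 : ℝ) < (Om P).card := by exact_mod_cast (Om_ne hSys).card_pos
  obtain ⟨X1, hX1⟩ := exists_nat_ge ((M0 : ℝ) * bigN P / hm P)
  obtain ⟨X2, hX2⟩ := exists_nat_ge ((Ec P + r * k * (Om P).card) / (e * (Om P).card))
  refine ⟨max X1 X2, ?_⟩
  intro x hx
  have hx1 : (X1 : ℝ) ≤ x := by exact_mod_cast (le_max_left _ _).trans hx
  have hx2 : (X2 : ℝ) ≤ x := by exact_mod_cast (le_max_right _ _).trans hx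
  have hxM : M0 ≤ ⌊hm P * x / bigN P⌋₊ := by
    apply Nat.le_floor
    have h1 : (M0 : ℝ) * bigN P / hm P ≤ x := hX1.trans hx1
    rw [div_le_iff₀ hhm] at h1
    rw [le_div_iff₀ hN]
    linarith
  set M := ⌊hm P * x / bigN P⌋₊ with hMdef
  have hb := hM0 M hxM
  have hest := main_est hT1 hCONC hSys e' he'0.le hw1 hρ x M hMdef _ hb
  -- bound of the main term
  have hx0 : (0 : ℝ) ≤ x := Nat.cast_nonneg x
  have hMle : (M : ℝ) ≤ hm P * x / bigN P := by
    rw [hMdef]; exact Nat.floor_le (by positivity)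
  have hEM : (Ec P : ℝ) * M ≤ (Om P).card * x := by
    have h1 : (Ec P : ℝ) * M ≤ Ec P * (hm P * x / bigN P) :=
      mul_le_mul_of_nonneg_left hMle (Nat.cast_nonneg _)
    have h2 : (Ec P : ℝ) * (hm P * x / bigN P) = (Om P).card * x := by
      rw [Ec_real hSys, ← hm_mul hSys]
      field_simp
    linarith
  have hmain : (M : ℝ) * (Ec P * (3 * e + 2 * r * S * Real.sqrt ((r : ℝ) * (∑ i, (A i + B i) : ℕ) / 2 ^ T)) + e * Ec P)
      ≤ 5 * e * ((Om P).card * x) := by
    have h1 : Ec P * (3 * e + 2 * r * S * Real.sqrt ((r : ℝ) * (∑ i, (A i + B i) : ℕ) / 2 ^ T)) + e * Ec P ≤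
        Ec P * (5 * e) := by
      have : Ec P * (3 * e + 2 * r * S * Real.sqrt ((r : ℝ) * (∑ i, (A i + B i) : ℕ) / 2 ^ T)) ≤
        Ec P * (3 * e + e) := mul_le_mul_of_nonneg_left (by linarith) hEc.le
      linarith
    calc _ ≤ (M : ℝ) * (Ec P * (5 * e)) := mul_le_mul_of_nonneg_left h1 (Nat.cast_nonneg _)
      _ = 5 * e * (Ec P * M) := by ring
      _ ≤ _ := mul_le_mul_of_nonneg_left hEM (by positivity)
  have hconst : (Ec P : ℝ) + r * k * (Om P).card ≤ e * ((Om P).card * x) := by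
    have h1 : (Ec P + r * k * (Om P).card) / (e * (Om P).card) ≤ x := hX2.trans hx2
    rw [div_le_iff₀ (by positivity)] at h1
    linarith
  have hsq2 : ((Om P).card : ℝ) * x * Real.sqrt e' ≤ e * ((Om P).card * x) := by
    have := mul_le_mul_of_nonneg_left hsqe (by positivity : (0 : ℝ) ≤ (Om P).card * x)
    linarith
  have hre2 : (r : ℝ) * e' * ((Om P).card * x) ≤ e * ((Om P).card * x) :=
    mul_le_mul_of_nonneg_right hre' (by positivity)
  have htot : ((Om P).card : ℝ) * |∑ n ∈ range x, ∏ i, mu (A i * n + B i)| ≤ (Om P).card * (ε * x) := by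
    have : (Om P).card * (ε * x) = 8 * e * ((Om P).card * x) := by rw [he]; ring
    rw [this]
    linarith
  exact le_of_mul_le_mul_left htot hcard

end R815.CH
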