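import Mathlib
import Pool.Agent.R815.CH.Stm

namespace R815.CH

open Finset Filter Asymptotics

/-- passing from real `x` to natural `x` in the hypothesis -/
theorem nat_of_real (g : ℕ → ℝ)
    (h : (fun x : ℝ => ∑ n ∈ Finset.Icc 1 ⌊x⌋₊, g n) =o[atTop] (fun x : ℝ => x)) :
    (fun x : ℕ => ∑ n ∈ Finset.Icc 1 x, g n) =o[atTop] (fun x : ℕ => (x : ℝ)) := by
  have h2 := h.comp_tendsto (tendsto_natCast_atTop_atTop (R := ℝ))
  have e1 : ((fun x : ℝ => ∑ n ∈ Finset.Icc 1 ⌊x⌋₊, g n) ∘ fun n : ℕ => (n : ℝ)) =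
      (fun x : ℕ => ∑ n ∈ Finset.Icc 1 x, g n) := by
    funext x
    simp
  rw [e1] at h2
  exact h2

/-- passing from natural `x` to real `x` in the conclusion -/
theorem real_of_nat (g : ℕ → ℝ)
    (h : (fun x : ℕ => ∑ n ∈ Finset.Icc 1 x, g n) =o[atTop] (fun x : ℕ => (x : ℝ))) :
    (fun x : ℝ => ∑ n ∈ Finset.Icc 1 ⌊x⌋₊, g n) =o[atTop] (fun x : ℝ => x) := by
  have h2 := h.comp_tendsto (tendsto_nat_floor_atTop (α := ℝ))
  refine IsLittleO.trans_isBigO h2 ?_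
  apply IsBigO.of_bound 1
  filter_upwards [eventually_ge_atTop (0 : ℝ)] with x hx
  simp only [Function.comp_apply, one_mul]
  rw [Real.norm_of_nonneg (Nat.cast_nonneg _), Real.norm_of_nonneg hx]
  exact Nat.floor_le hx

/-- from the natural version to the real version -/
theorem final_of (h : StM → StL)
    (hM : ∀ a : ℕ, 1 ≤ a → ∀ b : Finset ℕ, b.Nonempty → ∀ d : Finset ℕ,
      (fun x : ℝ => ∑ n ∈ Finset.Icc 1 ⌊x⌋₊,
        ((∏ i ∈ b, ((ArithmeticFunction.moebius (a * n + i) : ℤ) : ℝ)) *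
          ∏ k ∈ d, ((ArithmeticFunction.moebius (a * n + k) : ℤ) : ℝ) ^ 2))
        =o[atTop] (fun x : ℝ => x)) :
    ∀ a : ℕ, 1 ≤ a → ∀ b : Finset ℕ, b.Nonempty →
      (fun x : ℝ => ∑ n ∈ Finset.Icc 1 ⌊x⌋₊,
        ∏ i ∈ b, ((-1 : ℝ)) ^ (ArithmeticFunction.cardFactors (a * n + i)))
        =o[atTop] (fun x : ℝ => x) := by
  intro a ha b hb
  apply real_of_nat
  apply h _ a ha b hb
  intro a ha S hS D
  exact nat_of_real _ (hM a ha S hS D)

end R815.CH
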