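import Mathlib
import Pool.Agent.R815.CH.Stm

/-! Project CH (MP_3b6bd2_nt): piece LEV. -/

set_option autoImplicit false

namespace R815.CH

open Finset

namespace LevAux

lemma dvd_dil {k : ℕ} (w : Fin k → ℕ) (j : Fin k) : w j ∣ dil w :=
  Finset.dvd_prod_of_mem w (Finset.mem_univ j)

lemma filter_eq {r k : ℕ} {A B : Fin r → ℕ} {P : Fin k → Finset ℕ} (h : Sys A B P)
    {w : Fin k → ℕ} (hw : w ∈ Om P) (s : ℕ) (j : Fin k) :
    (P j).filter (fun p => p ∣ dil w * s) =
      insert (w j) (((P j).erase (w j)).filter (fun p => p ∣ s)) := by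
  have hw' : ∀ j, w j ∈ P j := Fintype.mem_piFinset.1 hw
  ext p
  simp only [mem_filter, mem_insert, mem_erase]
  constructor
  · rintro ⟨hp, hd⟩
    have hpp := h.pr j p hp
    rcases (Nat.Prime.dvd_mul hpp).1 hd with h1 | h1
    · obtain ⟨j', -, hj'⟩ := (Prime.dvd_finset_prod_iff hpp.prime _).1 h1
      have h2 : p = w j' := (Nat.prime_dvd_prime_iff_eq hpp (h.pr j' _ (hw' j'))).1 hj'
      by_cases hjj : j = j'
      · subst hjj
        exact Or.inl h2
      · exfalso
        have := h.disj j j' hjj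
        rw [Finset.disjoint_left] at this
        exact this hp (h2 ▸ hw' j')
    · by_cases hpw : p = w j
      · exact Or.inl hpw
      · exact Or.inr ⟨⟨hpw, hp⟩, h1⟩
  · rintro (rfl | ⟨⟨-, hp⟩, h1⟩)
    · exact ⟨hw' j, (dvd_dil w j).mul_right s⟩
    · exact ⟨hp, h1.mul_left _⟩

end LevAux

theorem t_LEV : S_LEV := by
  intro r k A B P h w hw s hs
  rw [Dc, hits, ← Finset.prod_pow_eq_pow_sum]
  apply Finset.prod_congr rfl
  intro j _
  rw [LevAux.filter_eq h hw s j, Finset.card_insert_of_notMem (by simp)]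
  have h1 := hs j
  generalize (((P j).erase (w j)).filter (fun p => p ∣ s)).card = c at *
  interval_cases c <;> rfl

end R815.CH
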