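import Mathlib
import Pool.Agent.R815.CH.Stm

/-! MARK: Markov inequality for the number of prime divisors. -/

set_option autoImplicit false

namespace R815.CH

open Finset

namespace MarkP

theorem card_dvd_le (p a b K : ℕ) (hp : p.Prime) (ha : ¬ p ∣ a) :
    ((range (p * K)).filter (fun n => p ∣ a * n + b)).card ≤ K := by
  have h : ((range (p * K)).filter (fun n => p ∣ a * n + b)).card ≤ (range K).card := by
    refine Finset.card_le_card_of_injOn (fun n => n / p) ?_ ?_
    · intro n hn
      have hn' := (Finset.mem_filter.1 hn).1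
      rw [Finset.mem_range] at hn'
      simp only [Finset.coe_range, Set.mem_Iio]
      exact Nat.div_lt_of_lt_mul hn'
    · intro n hn n' hn' hq
      have h1 := (Finset.mem_filter.1 hn).2
      have h2 := (Finset.mem_filter.1 hn').2
      have h3 : a * n + b ≡ a * n' + b [MOD p] :=
        ((Nat.modEq_zero_iff_dvd).2 h1).trans ((Nat.modEq_zero_iff_dvd).2 h2).symm
      have h4 : a * n ≡ a * n' [MOD p] := Nat.ModEq.add_right_cancel' b h3
      have h5 : n ≡ n' [MOD p] :=
        Nat.ModEq.cancel_left_of_coprime ((Nat.Prime.coprime_iff_not_dvd hp).2 ha) h4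
      have h6 : n % p = n' % p := h5
      have hq' : n / p = n' / p := hq
      rw [← Nat.div_add_mod n p, ← Nat.div_add_mod n' p, h6, hq']
  simpa using h

end MarkP

open MarkP in
theorem t_MARK : S_MARK := by
  classical
  intro Q hQ a b ha S hS
  set N : ℕ := ∏ p ∈ Q, p with hN
  have h1 : S * ((range N).filter (fun n => S ≤ (Q.filter (fun p => p ∣ a * n + b)).card)).card ≤
      ∑ n ∈ range N, (Q.filter (fun p => p ∣ a * n + b)).card := by
    calc S * ((range N).filter (fun n => S ≤ (Q.filter (fun p => p ∣ a * n + b)).card)).card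
        = ∑ n ∈ (range N).filter (fun n => S ≤ (Q.filter (fun p => p ∣ a * n + b)).card), S := by
          rw [Finset.sum_const, smul_eq_mul, mul_comm]
      _ ≤ ∑ n ∈ (range N).filter (fun n => S ≤ (Q.filter (fun p => p ∣ a * n + b)).card),
            (Q.filter (fun p => p ∣ a * n + b)).card :=
          Finset.sum_le_sum (fun n hn => (Finset.mem_filter.1 hn).2)
      _ ≤ _ := Finset.sum_le_sum_of_subset (Finset.filter_subset _ _)
  have h2 : ∑ n ∈ range N, (Q.filter (fun p => p ∣ a * n + b)).card =
      ∑ p ∈ Q, ((range N).filter (fun n => p ∣ a * n + b)).card := by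
    simp only [Finset.card_filter]
    rw [Finset.sum_comm]
  have h3 : ∀ p ∈ Q, (((range N).filter (fun n => p ∣ a * n + b)).card : ℝ) ≤ N * (1 / (p : ℝ)) := by
    intro p hp
    have hpp := hQ p hp
    obtain ⟨K, hK⟩ : p ∣ N := Finset.dvd_prod_of_mem _ hp
    have h4 := card_dvd_le p a b K hpp (ha p hp)
    rw [← hK] at h4
    have h5 : (N : ℝ) * (1 / (p : ℝ)) = K := by
      have hp0 : (p : ℝ) ≠ 0 := by exact_mod_cast hpp.ne_zero
      rw [hK]
      push_cast
      field_simp
    rw [h5]
    exact_mod_cast h4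
  have hS0 : (0 : ℝ) < S := by exact_mod_cast hS
  rw [mul_div_assoc', le_div_iff₀ hS0, Finset.mul_sum]
  have h6 : ((S * ((range N).filter
      (fun n => S ≤ (Q.filter (fun p => p ∣ a * n + b)).card)).card : ℕ) : ℝ) ≤
      ((∑ p ∈ Q, ((range N).filter (fun n => p ∣ a * n + b)).card : ℕ) : ℝ) := by
    exact_mod_cast h1.trans h2.le
  push_cast at h6
  calc _ = (S : ℝ) * (((range N).filter
      (fun n => S ≤ (Q.filter (fun p => p ∣ a * n + b)).card)).card : ℝ) := mul_comm _ _
    _ ≤ _ := h6
    _ ≤ _ := Finset.sum_le_sum h3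

end R815.CH
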