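import Mathlib
import Pool.Agent.R815.CH.Stm

/-!
Project CH (MP_3b6bd2_nt), piece PAR, by helper609: existence of the blocks.
-/

namespace R815.CH

open Finset Filter

namespace ParAux

/-- primes between two consecutive squares -/
def B (j : ℕ) : Finset ℕ := (Ico (j ^ 2) ((j + 1) ^ 2)).filter Nat.Prime

/-- block sum -/
noncomputable def s (j : ℕ) : ℝ := ∑ p ∈ B j, (1 / (p : ℝ))

lemma mem_B {j p : ℕ} : p ∈ B j ↔ (j ^ 2 ≤ p ∧ p < (j + 1) ^ 2) ∧ p.Prime := by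
  unfold B
  rw [Finset.mem_filter, Finset.mem_Ico]

lemma B_le {j j' p : ℕ} (h : p ∈ B j) (h' : p ∈ B j') : j ≤ j' := by
  rw [mem_B] at h h'
  by_contra hlt
  push Not at hlt
  have : (j' + 1) ^ 2 ≤ j ^ 2 := Nat.pow_le_pow_left hlt 2
  omega

lemma B_disj {j j' : ℕ} (h : j ≠ j') : Disjoint (B j) (B j') := by
  rw [Finset.disjoint_left]
  intro p hp hp'
  exact h (le_antisymm (B_le hp hp') (B_le hp' hp))

lemma card_B (j : ℕ) : (B j).card ≤ 2 * j + 1 := by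
  refine (Finset.card_filter_le _ _).trans ?_
  rw [Nat.card_Ico]
  have : (j + 1) ^ 2 = j ^ 2 + (2 * j + 1) := by ring
  omega

lemma s_nonneg (j : ℕ) : 0 ≤ s j := Finset.sum_nonneg fun p _ => by positivity

lemma inv_le {j p : ℕ} (hj : 1 ≤ j) (h : p ∈ B j) : 1 / (p : ℝ) ≤ 1 / (j : ℝ) ^ 2 := by
  rw [mem_B] at h
  have h1 : ((j ^ 2 : ℕ) : ℝ) ≤ (p : ℝ) := by exact_mod_cast h.1.1
  rw [Nat.cast_pow] at h1
  have hj' : (1 : ℝ) ≤ j := by exact_mod_cast hj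
  exact one_div_le_one_div_of_le (by positivity) h1

lemma le_inv {j p : ℕ} (h : p ∈ B j) : 1 / ((j : ℝ) + 1) ^ 2 ≤ 1 / (p : ℝ) := by
  rw [mem_B] at h
  have h1 : (p : ℝ) ≤ (((j + 1) ^ 2 : ℕ) : ℝ) := by exact_mod_cast h.1.2.le
  push_cast at h1
  have hp : (0 : ℝ) < p := by exact_mod_cast h.2.pos
  exact one_div_le_one_div_of_le hp h1

lemma s_le {j : ℕ} (hj : 1 ≤ j) : s j ≤ 3 / j := by
  have hj' : (1 : ℝ) ≤ j := by exact_mod_cast hj
  calc s j ≤ ∑ p ∈ B j, (1 / (j : ℝ) ^ 2) := Finset.sum_le_sum fun p hp => inv_le hj hp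
    _ = (B j).card * (1 / (j : ℝ) ^ 2) := by rw [Finset.sum_const, nsmul_eq_mul]
    _ ≤ (2 * j + 1) * (1 / (j : ℝ) ^ 2) := by
      gcongr
      exact_mod_cast card_B j
    _ ≤ (3 * j) * (1 / (j : ℝ) ^ 2) := by
      gcongr
      linarith
    _ = 3 / j := by
      field_simp

lemma factor_le {j : ℕ} (hj : 1 ≤ j) :
    ((B j).card : ℝ) * (∑ p ∈ B j, (1 / (p : ℝ) ^ 2)) / (∑ p ∈ B j, (1 / (p : ℝ))) ^ 2 ≤
      1 + 1 / (j : ℝ) ^ 2 := by
  have hj' : (1 : ℝ) ≤ j := by exact_mod_cast hj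
  obtain ⟨a, ha⟩ : ∃ a : ℝ, a = 1 / ((j : ℝ) + 1) ^ 2 := ⟨_, rfl⟩
  obtain ⟨b, hb⟩ : ∃ b : ℝ, b = 1 / (j : ℝ) ^ 2 := ⟨_, rfl⟩
  have ha0 : 0 < a := by
    rw [ha]
    positivity
  have hb0 : 0 < b := by
    rw [hb]
    positivity
  obtain ⟨S, hS⟩ : ∃ S : ℝ, S = ∑ p ∈ B j, (1 / (p : ℝ)) := ⟨_, rfl⟩
  obtain ⟨Q, hQ⟩ : ∃ Q : ℝ, Q = ∑ p ∈ B j, (1 / (p : ℝ) ^ 2) := ⟨_, rfl⟩
  obtain ⟨N, hN⟩ : ∃ N : ℝ, N = ((B j).card : ℝ) := ⟨_, rfl⟩
  rw [← hS, ← hQ, ← hN, ← hb]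
  have h1 : Q ≤ (a + b) * S - a * b * N := by
    rw [hQ, hS, hN, Finset.mul_sum]
    have h : a * b * ((B j).card : ℝ) = ∑ p ∈ B j, a * b := by
      rw [Finset.sum_const, nsmul_eq_mul]
      ring
    rw [h, ← Finset.sum_sub_distrib]
    refine Finset.sum_le_sum fun p hp => ?_
    have e1 := inv_le hj hp
    have e2 := le_inv hp
    rw [← hb] at e1
    rw [← ha] at e2
    have e3 : 1 / (p : ℝ) ^ 2 = (1 / (p : ℝ)) ^ 2 := by rw [one_div_pow]
    rw [e3]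
    nlinarith [mul_nonneg (sub_nonneg.2 e1) (sub_nonneg.2 e2)]
  have hN0 : 0 ≤ N := by
    rw [hN]
    positivity
  have h2 : 4 * a * b * (N * Q) ≤ (a + b) ^ 2 * S ^ 2 := by
    have h : N * Q ≤ N * ((a + b) * S - a * b * N) := mul_le_mul_of_nonneg_left h1 hN0
    have h4 : 4 * a * b * (N * Q) ≤ 4 * a * b * (N * ((a + b) * S - a * b * N)) :=
      mul_le_mul_of_nonneg_left h (by positivity)
    nlinarith [sq_nonneg ((a + b) * S - 2 * a * b * N)]
  have h3 : (a + b) ^ 2 ≤ 4 * a * b * (1 + b) := by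
    have e : b - a = (2 * j + 1) * (a * b) := by
      rw [ha, hb]
      field_simp
      ring
    have e2 : (2 * (j : ℝ) + 1) ^ 2 * a ≤ 4 := by
      rw [ha, mul_one_div, div_le_iff₀ (by positivity)]
      nlinarith
    have e3 : (b - a) ^ 2 ≤ 4 * a * b * b := by
      rw [e]
      calc ((2 * (j : ℝ) + 1) * (a * b)) ^ 2 = ((2 * (j : ℝ) + 1) ^ 2 * a) * (a * b * b) := by ring
        _ ≤ 4 * (a * b * b) := by gcongr
        _ = _ := by ring
    nlinarith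
  by_cases hS0 : S = 0
  · rw [hS0]
    simp
    positivity
  have hSp : 0 < S ^ 2 := by positivity
  rw [div_le_iff₀ hSp]
  have h5 : 4 * a * b * (N * Q) ≤ 4 * a * b * ((1 + b) * S ^ 2) := by
    calc _ ≤ (a + b) ^ 2 * S ^ 2 := h2
      _ ≤ (4 * a * b * (1 + b)) * S ^ 2 := by gcongr
      _ = _ := by ring
  exact le_of_mul_le_mul_left h5 (by positivity)

lemma sum_sq (m : ℕ) (hm : 1 ≤ m) (d : ℕ) :
    ∑ i ∈ range d, 1 / ((m + 1 + i : ℕ) : ℝ) ^ 2 ≤ 1 / (m : ℝ) - 1 / ((m + d : ℕ) : ℝ) := by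
  induction d with
  | zero => simp
  | succ d ih =>
    rw [Finset.sum_range_succ]
    have hx : (1 : ℝ) ≤ ((m + d : ℕ) : ℝ) := by exact_mod_cast (by omega : 1 ≤ m + d)
    have e1 : ((m + 1 + d : ℕ) : ℝ) = ((m + d : ℕ) : ℝ) + 1 := by
      push_cast
      ring
    have e2 : ((m + (d + 1) : ℕ) : ℝ) = ((m + d : ℕ) : ℝ) + 1 := by
      push_cast
      ring
    rw [e1, e2]
    generalize ((m + d : ℕ) : ℝ) = x at *
    have hx0 : 0 < x := by linarith
    have h : 1 / (x + 1) ^ 2 ≤ 1 / x - 1 / (x + 1) := by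
      rw [div_sub_div _ _ (by positivity) (by positivity),
        div_le_div_iff₀ (by positivity) (by positivity)]
      nlinarith
    linarith

lemma sum_sq' (m : ℕ) (hm : 1 ≤ m) (d : ℕ) :
    ∑ i ∈ range d, 1 / ((m + 1 + i : ℕ) : ℝ) ^ 2 ≤ 1 / (m : ℝ) := by
  have h := sum_sq m hm d
  have h2 : 0 ≤ 1 / ((m + d : ℕ) : ℝ) := by positivity
  linarith

lemma unbounded (m : ℕ) (H : ℝ) : ∃ d : ℕ, H ≤ ∑ i ∈ range d, s (m + 1 + i) := by
  let f : ℕ → ℝ := Set.indicator {p : ℕ | p.Prime} (fun n : ℕ => (1 : ℝ) / n)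
  have hf0 : ∀ n, 0 ≤ f n := fun n =>
    Set.indicator_nonneg (fun (x : ℕ) _ => (by positivity : (0 : ℝ) ≤ 1 / (x : ℝ))) n
  have hf : Tendsto (fun n => ∑ i ∈ range n, f i) atTop atTop :=
    (not_summable_iff_tendsto_nat_atTop_of_nonneg hf0).1 not_summable_one_div_on_primes
  have hs : ∀ j, s j = ∑ p ∈ Ico (j ^ 2) ((j + 1) ^ 2), f p := by
    intro j
    unfold s B
    rw [Finset.sum_filter]
    refine Finset.sum_congr rfl fun p _ => ?_
    by_cases hp : p.Prime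
    · rw [if_pos hp]
      exact (Set.indicator_of_mem (s := {p : ℕ | p.Prime}) hp
        (fun n : ℕ => (1 : ℝ) / n)).symm
    · rw [if_neg hp]
      exact (Set.indicator_of_notMem (s := {p : ℕ | p.Prime}) hp
        (fun n : ℕ => (1 : ℝ) / n)).symm
  have htel : ∀ d, ∑ i ∈ range d, s (m + 1 + i) =
      ∑ i ∈ range ((m + 1 + d) ^ 2), f i - ∑ i ∈ range ((m + 1) ^ 2), f i := by
    intro d
    induction d with
    | zero => simp
    | succ d ih =>
      rw [Finset.sum_range_succ, ih, hs, Finset.sum_Ico_eq_sub _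
        (Nat.pow_le_pow_left (by omega) 2)]
      have h : m + 1 + (d + 1) = m + 1 + d + 1 := by ring
      rw [h]
      ring
  have h2 : Tendsto (fun d : ℕ => (m + 1 + d) ^ 2) atTop atTop := by
    refine tendsto_atTop_mono (fun d => ?_) tendsto_id
    show d ≤ (m + 1 + d) ^ 2
    have h3 : m + 1 + d ≤ (m + 1 + d) ^ 2 := Nat.le_self_pow two_ne_zero _
    omega
  obtain ⟨d, hd⟩ := ((hf.comp h2).eventually_ge_atTop
    (H + ∑ i ∈ range ((m + 1) ^ 2), f i)).exists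
  refine ⟨d, ?_⟩
  rw [htel]
  have hd' : H + ∑ i ∈ range ((m + 1) ^ 2), f i ≤ ∑ i ∈ range ((m + 1 + d) ^ 2), f i := hd
  linarith

end ParAux

open ParAux in
theorem t_PAR : S_PAR := by
  intro ε hε Bd H
  obtain ⟨m, hm1, hm2, hm3⟩ : ∃ m : ℕ, Bd + 2 ≤ m ∧ 9 / (m : ℝ) ≤ ε ∧
      1 / (m : ℝ) ≤ Real.log (1 + ε) := by
    have hl : 0 < Real.log (1 + ε) := Real.log_pos (by linarith)
    obtain ⟨m1, h1⟩ := exists_nat_ge (9 / ε)
    obtain ⟨m2, h2⟩ := exists_nat_ge (1 / Real.log (1 + ε))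
    have hM1 : (m1 : ℝ) ≤ ((max (Bd + 2) (max m1 m2) : ℕ) : ℝ) := by
      exact_mod_cast (le_max_left m1 m2).trans (le_max_right (Bd + 2) (max m1 m2))
    have hM2 : (m2 : ℝ) ≤ ((max (Bd + 2) (max m1 m2) : ℕ) : ℝ) := by
      exact_mod_cast (le_max_right m1 m2).trans (le_max_right (Bd + 2) (max m1 m2))
    have hM0 : (0 : ℝ) < ((max (Bd + 2) (max m1 m2) : ℕ) : ℝ) := by
      have h : 0 < max (Bd + 2) (max m1 m2) :=
        lt_of_lt_of_le (by omega : 0 < Bd + 2) (le_max_left _ _)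
      exact_mod_cast h
    refine ⟨max (Bd + 2) (max m1 m2), le_max_left _ _, ?_, ?_⟩
    · rw [div_le_iff₀ hM0]
      rw [div_le_iff₀ hε] at h1
      nlinarith
    · rw [div_le_iff₀ hM0]
      rw [div_le_iff₀ hl] at h2
      nlinarith
  have hm0 : 1 ≤ m := by omega
  classical
  obtain ⟨d, hd, hd'⟩ : ∃ d, H ≤ ∑ i ∈ range d, s (m + 1 + i) ∧
      ∑ i ∈ range d, s (m + 1 + i) ≤ max H 0 + 1 := by
    have hex := unbounded m H
    refine ⟨Nat.find hex, Nat.find_spec hex, ?_⟩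
    rcases Nat.eq_zero_or_pos (Nat.find hex) with h0 | h0
    · rw [h0]
      simp only [Finset.range_zero, Finset.sum_empty]
      have := le_max_right H 0
      linarith
    · obtain ⟨d', hd'⟩ := Nat.exists_eq_succ_of_ne_zero h0.ne'
      have hlt := Nat.find_min hex (m := d') (by omega)
      rw [hd', Finset.sum_range_succ]
      push Not at hlt
      have h1 : s (m + 1 + d') ≤ 1 := by
        refine (s_le (by omega)).trans ?_
        have h3 : (3 : ℝ) ≤ ((m + 1 + d' : ℕ) : ℝ) := by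
          exact_mod_cast (by omega : 3 ≤ m + 1 + d')
        rw [div_le_one (by linarith)]
        exact h3
      have := le_max_left H 0
      linarith
  let J : Finset ℕ := (range d).filter (fun i => (B (m + 1 + i)).Nonempty)
  let e : Fin J.card ≃ J := J.equivFin.symm
  let P : Fin J.card → Finset ℕ := fun i => B (m + 1 + ((e i : J) : ℕ))
  have hsum : ∀ g : ℕ → ℝ, ∑ i, g ((e i : J) : ℕ) = ∑ j ∈ J, g j := by
    intro g
    rw [← Finset.sum_coe_sort J g]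
    exact Equiv.sum_comp e (fun x : J => g x)
  have hJ : ∀ g : ℕ → ℝ, (∀ j, 0 ≤ g j) → ∑ j ∈ J, g j ≤ ∑ j ∈ range d, g j :=
    fun g hg => Finset.sum_le_sum_of_subset_of_nonneg (filter_subset _ _) (fun _ _ _ => hg _)
  have hJ2 : ∑ i, (1 / ((m + 1 + ((e i : J) : ℕ) : ℕ) : ℝ) ^ 2) ≤ 1 / (m : ℝ) := by
    rw [hsum (fun j => 1 / ((m + 1 + j : ℕ) : ℝ) ^ 2)]
    exact (hJ _ fun j => by positivity).trans (sum_sq' m hm0 d)
  have hrec1 : rec1 P = ∑ i ∈ range d, s (m + 1 + i) := by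
    have h : rec1 P = ∑ i, (fun j => s (m + 1 + j)) ((e i : J) : ℕ) := rfl
    rw [h, hsum (fun j => s (m + 1 + j))]
    refine Finset.sum_subset (filter_subset _ _) ?_
    intro x hx hx'
    have h' : ¬ (B (m + 1 + x)).Nonempty := fun h => hx' (Finset.mem_filter.2 ⟨hx, h⟩)
    rw [Finset.not_nonempty_iff_eq_empty] at h'
    simp [s, h']
  have hm0' : (0 : ℝ) < m := by exact_mod_cast hm0
  have hmε : 1 / (m : ℝ) ≤ ε := by
    refine le_trans ?_ hm2
    gcongr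
    norm_num
  refine ⟨J.card, P, ?_, ?_, ?_, ?_, ?_, ?_, ?_, ?_, ?_⟩
  · intro j
    exact (Finset.mem_filter.1 (e j).2).2
  · intro j p hp
    exact (mem_B.1 hp).2
  · intro j j' hjj'
    refine B_disj fun h => hjj' (e.injective (Subtype.ext ?_))
    omega
  · intro j p hp
    have h1 := (mem_B.1 hp).1.1
    have h2 : m + 1 + ((e j : J) : ℕ) ≤ (m + 1 + ((e j : J) : ℕ)) ^ 2 :=
      Nat.le_self_pow two_ne_zero _
    omega
  · rw [hrec1]
    exact hd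
  · rw [hrec1]
    exact hd'
  · have h1 : rec2 P = ∑ i, (fun j => s (m + 1 + j) ^ 2) ((e i : J) : ℕ) := rfl
    rw [h1, hsum (fun j => s (m + 1 + j) ^ 2)]
    refine (hJ _ fun j => sq_nonneg _).trans ?_
    calc ∑ j ∈ range d, s (m + 1 + j) ^ 2
        ≤ ∑ j ∈ range d, 9 * (1 / ((m + 1 + j : ℕ) : ℝ) ^ 2) := by
          refine Finset.sum_le_sum fun j _ => ?_
          have h2 := s_le (j := m + 1 + j) (by omega)
          have h3 := pow_le_pow_left₀ (s_nonneg _) h2 2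
          refine h3.trans (le_of_eq ?_)
          rw [div_pow]
          ring
      _ = 9 * ∑ j ∈ range d, (1 / ((m + 1 + j : ℕ) : ℝ) ^ 2) := by rw [Finset.mul_sum]
      _ ≤ 9 * (1 / (m : ℝ)) := by
        gcongr
        exact sum_sq' m hm0 d
      _ = 9 / (m : ℝ) := by ring
      _ ≤ ε := hm2
  · intro w hw
    refine le_trans ?_ (hJ2.trans hmε)
    refine Finset.sum_le_sum fun i _ => ?_
    have h1 : w i ∈ P i := Fintype.mem_piFinset.1 hw i
    exact inv_le (by omega) h1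
  · calc ∏ j, (((P j).card : ℝ) * (∑ p ∈ P j, (1 / (p : ℝ) ^ 2)) /
        (∑ p ∈ P j, (1 / (p : ℝ))) ^ 2)
        ≤ ∏ i, Real.exp (1 / ((m + 1 + ((e i : J) : ℕ) : ℕ) : ℝ) ^ 2) := by
          refine Finset.prod_le_prod (fun i _ => by positivity) fun i _ => ?_
          refine (factor_le (j := m + 1 + ((e i : J) : ℕ)) (by omega)).trans ?_
          rw [add_comm]
          exact Real.add_one_le_exp _
      _ = Real.exp (∑ i, (1 / ((m + 1 + ((e i : J) : ℕ) : ℕ) : ℝ) ^ 2)) := by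
        rw [Real.exp_sum]
      _ ≤ Real.exp (Real.log (1 + ε)) := Real.exp_le_exp.2 (hJ2.trans hm3)
      _ = 1 + ε := Real.exp_log (by linarith)

end R815.CH
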