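import Mathlib
import Pool.Agent.R815.CH.Stm

namespace R815.CH

open Finset Filter

namespace Res

/-- the number of `m` with `Q m + c < x` -/
def mc (Q x c : ℕ) : ℕ := (x + (Q - 1 - c)) / Q

theorem sum_split {Q : ℕ} (hQ : 1 ≤ Q) (f : ℕ → ℝ) (x : ℕ) :
    ∑ n ∈ range x, f n = ∑ c ∈ range Q, ∑ m ∈ range (mc Q x c), f (Q * m + c) := by
  rw [← Finset.sum_fiberwise_of_maps_to (s := range x) (t := range Q) (g := fun n => n % Q)
    (fun n _ => Finset.mem_range.mpr (Nat.mod_lt n (by omega)))]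
  refine Finset.sum_congr rfl (fun c hc => ?_)
  have hc' : c < Q := Finset.mem_range.mp hc
  refine Finset.sum_nbij' (fun n => n / Q) (fun m => Q * m + c) ?_ ?_ ?_ ?_ ?_
  · intro n hn
    obtain ⟨h1, h2⟩ := Finset.mem_filter.mp hn
    have h1' := Finset.mem_range.mp h1
    have h3 := Nat.div_add_mod n Q
    refine Finset.mem_range.mpr ?_
    show n / Q < (x + (Q - 1 - c)) / Q
    rw [Nat.lt_iff_add_one_le, Nat.le_div_iff_mul_le (by omega)]
    have h4 : (n / Q + 1) * Q = Q * (n / Q) + Q := by ring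
    rw [h4]
    have h2' : n % Q = c := h2
    omega
  · intro m hm
    have hm' : m < (x + (Q - 1 - c)) / Q := Finset.mem_range.mp hm
    rw [Nat.lt_iff_add_one_le, Nat.le_div_iff_mul_le (by omega)] at hm'
    have h4 : (m + 1) * Q = Q * m + Q := by ring
    rw [h4] at hm'
    refine Finset.mem_filter.mpr ⟨Finset.mem_range.mpr ?_, ?_⟩
    · show Q * m + c < x
      omega
    · show (Q * m + c) % Q = c
      rw [Nat.mul_add_mod, Nat.mod_eq_of_lt hc']
  · intro n hn
    obtain ⟨h1, h2⟩ := Finset.mem_filter.mp hn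
    have h2' : n % Q = c := h2
    have h3 := Nat.div_add_mod n Q
    show Q * (n / Q) + c = n
    omega
  · intro m hm
    show (Q * m + c) / Q = m
    rw [Nat.mul_add_div (by omega), Nat.div_eq_of_lt hc', add_zero]
  · intro n hn
    obtain ⟨h1, h2⟩ := Finset.mem_filter.mp hn
    have h2' : n % Q = c := h2
    have h3 := Nat.div_add_mod n Q
    show f n = f (Q * (n / Q) + c)
    congr 1
    omega

theorem sum_mc {Q : ℕ} (hQ : 1 ≤ Q) (x : ℕ) : ∑ c ∈ range Q, ((mc Q x c : ℕ) : ℝ) = x := by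
  have h := sum_split hQ (fun _ => 1) x
  simp only [Finset.sum_const, Finset.card_range, nsmul_eq_mul, mul_one] at h
  exact h.symm

end Res

open Res in
theorem t_RES : S_RES := by
  intro Q f hQ hf ε hε
  have h1 : ∀ c : ℕ, ∃ X : ℕ, c < Q → ∀ M : ℕ, X ≤ M → |∑ m ∈ range M, f (Q * m + c)| ≤ ε * M := by
    intro c
    by_cases hc : c < Q
    · obtain ⟨X, hX⟩ := hf c hc ε hε
      exact ⟨X, fun _ => hX⟩
    · exact ⟨0, fun h => absurd h hc⟩
  choose X hX using h1
  refine ⟨Q * (∑ c ∈ range Q, X c), fun x hx => ?_⟩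
  rw [sum_split hQ]
  calc |∑ c ∈ range Q, ∑ m ∈ range (mc Q x c), f (Q * m + c)|
      ≤ ∑ c ∈ range Q, |∑ m ∈ range (mc Q x c), f (Q * m + c)| := Finset.abs_sum_le_sum_abs _ _
    _ ≤ ∑ c ∈ range Q, ε * (mc Q x c : ℝ) := by
        refine Finset.sum_le_sum (fun c hc => ?_)
        refine hX c (Finset.mem_range.mp hc) _ ?_
        have h2 : X c ≤ ∑ c ∈ range Q, X c :=
          Finset.single_le_sum (f := X) (fun _ _ => Nat.zero_le _) hc
        show X c ≤ (x + (Q - 1 - c)) / Q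
        rw [Nat.le_div_iff_mul_le (by omega)]
        calc X c * Q ≤ (∑ c ∈ range Q, X c) * Q := Nat.mul_le_mul_right _ h2
          _ = Q * (∑ c ∈ range Q, X c) := Nat.mul_comm _ _
          _ ≤ x := hx
          _ ≤ x + (Q - 1 - c) := Nat.le_add_right _ _
    _ = ε * x := by rw [← Finset.mul_sum, sum_mc hQ]

end R815.CH
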