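import Mathlib
import Pool.Agent.R815.CH.Stm

/-! CH-RND (helper261): union bound for the bad pairs. -/

namespace R815.CH

open Finset Filter

noncomputable section

namespace RndAux

/-- all primes which are not chosen -/
def QQ {k : ℕ} (P : Fin k → Finset ℕ) (w : Fin k → ℕ) : Finset ℕ :=
  Finset.univ.biUnion (fun j => (P j).erase (w j))

theorem mem_QQ {k : ℕ} (P : Fin k → Finset ℕ) (w : Fin k → ℕ) (p : ℕ) :
    p ∈ QQ P w ↔ ∃ j, p ∈ (P j).erase (w j) := by
  unfold QQ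
  simp only [mem_biUnion, mem_univ, true_and]

theorem disjE {k : ℕ} {P : Fin k → Finset ℕ} {w : Fin k → ℕ}
    (hd : ∀ j j', j ≠ j' → Disjoint (P j) (P j')) (j j' : Fin k) (h : j ≠ j') :
    Disjoint ((P j).erase (w j)) ((P j').erase (w j')) :=
  (hd j j' h).mono (erase_subset _ _) (erase_subset _ _)

theorem prod_QQ {k : ℕ} {P : Fin k → Finset ℕ} {w : Fin k → ℕ}
    (hd : ∀ j j', j ≠ j' → Disjoint (P j) (P j')) : ∏ p ∈ QQ P w, p = Nw P w := by
  unfold QQ Nw
  rw [prod_biUnion]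
  intro j _ j' _ h
  exact disjE hd j j' h

theorem sum_QQ {k : ℕ} {P : Fin k → Finset ℕ} {w : Fin k → ℕ}
    (hd : ∀ j j', j ≠ j' → Disjoint (P j) (P j')) (hw : ∀ j, w j ∈ P j) :
    ∑ p ∈ QQ P w, (1 / (p : ℝ)) = rec1 P - ∑ j, (1 / (w j : ℝ)) := by
  unfold QQ rec1
  rw [sum_biUnion, ← sum_sub_distrib]
  · refine sum_congr rfl fun j _ => ?_
    have := Finset.add_sum_erase (P j) (fun p : ℕ => (1 / (p : ℝ))) (hw j)
    linarith
  · intro j _ j' _ h
    exact disjE hd j j' h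

theorem hits_QQ {k : ℕ} {P : Fin k → Finset ℕ} {w : Fin k → ℕ}
    (hd : ∀ j j', j ≠ j' → Disjoint (P j) (P j')) (s : ℕ) :
    hits P w s = ((QQ P w).filter (fun p => p ∣ s)).card := by
  unfold QQ hits
  rw [filter_biUnion, card_biUnion]
  intro j _ j' _ h
  exact (disjE hd j j' h).mono (filter_subset _ _) (filter_subset _ _)

end RndAux

open RndAux

theorem t_RND : S_DBL → S_MARK → S_ANTI → S_RND := by
  classical
  intro hD hM hA r k A B P hS w hw T S q hS1 hq β hβ
  have hwm : ∀ j, w j ∈ P j := by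
    intro j
    unfold Om at hw
    exact (Fintype.mem_piFinset.1 hw) j
  have hN : ∏ p ∈ QQ P w, p = Nw P w := prod_QQ hS.disj
  have hpr : ∀ p ∈ QQ P w, p.Prime := by
    intro p hp
    obtain ⟨j, hj⟩ := (mem_QQ P w p).1 hp
    exact hS.pr j p (mem_of_mem_erase hj)
  have h5 : ∀ p ∈ QQ P w, 5 ≤ p := by
    intro p hp
    obtain ⟨j, hj⟩ := (mem_QQ P w p).1 hp
    exact hS.big j p (mem_of_mem_erase hj)
  have hgA : ∀ i, ∀ p ∈ QQ P w, ¬ p ∣ A i := by
    intro i p hp
    obtain ⟨j, hj⟩ := (mem_QQ P w p).1 hp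
    exact hS.gA j p (mem_of_mem_erase hj) i
  have hgB : ∀ i i', i ≠ i' → ∀ p ∈ QQ P w, ¬ (A i * B i' ≡ A i' * B i [MOD p]) := by
    intro i i' h p hp
    obtain ⟨j, hj⟩ := (mem_QQ P w p).1 hp
    exact hS.gB j p (mem_of_mem_erase hj) i i' h
  have hsumQ := sum_QQ (w := w) hS.disj hwm
  have hrN : (0 : ℝ) ≤ (Nw P w : ℝ) := Nat.cast_nonneg _
  set N : ℕ := Nw P w with hNdef
  set an : ℝ := (2 * T + 1) * (1 / (q : ℝ) +
      Real.exp (-(16 * (rec1 P - ∑ j, (1 / (w j : ℝ))) / (q : ℝ) ^ 2))) with han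
  let G1 : Finset ℕ := (univ : Finset (Fin r)).biUnion (fun i =>
    (univ : Finset (Fin k)).biUnion (fun j => (((P j).erase (w j)).offDiag).biUnion (fun pp =>
      (range N).filter (fun n => pp.1 ∣ A i * n + B i ∧ pp.2 ∣ A i * n + B i))))
  let G2 : Finset ℕ := ((univ : Finset (Fin r)).offDiag).biUnion (fun ii =>
    (range N).filter (fun n =>
      ((QQ P w).filter (fun p => p ∣ A ii.1 * n + B ii.1)).card ≤
        ((QQ P w).filter (fun p => p ∣ A ii.2 * n + B ii.2)).card + T ∧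
      ((QQ P w).filter (fun p => p ∣ A ii.2 * n + B ii.2)).card ≤
        ((QQ P w).filter (fun p => p ∣ A ii.1 * n + B ii.1)).card + T))
  let G3 : Finset ℕ := (univ : Finset (Fin r)).biUnion (fun i =>
    (range N).filter (fun n => S ≤ ((QQ P w).filter (fun p => p ∣ A i * n + B i)).card))
  have hsub : badF A B P T S w ⊆ (G1 ∪ G2) ∪ G3 := by
    intro n hn
    unfold badF at hn
    rw [mem_filter] at hn
    obtain ⟨hnr, hb⟩ := hn
    rcases hb with ⟨i, j, h2⟩ | ⟨i, i', hii, h2, h3⟩ | ⟨i, h2⟩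
    · refine mem_union_left _ (mem_union_left _ ?_)
      obtain ⟨p, hp, p', hp', hne⟩ := Finset.one_lt_card.1 (by omega :
        1 < (((P j).erase (w j)).filter (fun p => p ∣ A i * n + B i)).card)
      rw [mem_filter] at hp hp'
      refine mem_biUnion.2 ⟨i, mem_univ _, mem_biUnion.2 ⟨j, mem_univ _, mem_biUnion.2
        ⟨(p, p'), mem_offDiag.2 ⟨hp.1, hp'.1, hne⟩, mem_filter.2 ⟨hnr, hp.2, hp'.2⟩⟩⟩⟩
    · refine mem_union_left _ (mem_union_right _ ?_)
      rw [hits_QQ hS.disj, hits_QQ hS.disj] at h2 h3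
      exact mem_biUnion.2 ⟨(i, i'), mem_offDiag.2 ⟨mem_univ _, mem_univ _, hii⟩,
        mem_filter.2 ⟨hnr, h2, h3⟩⟩
    · refine mem_union_right _ ?_
      rw [hits_QQ hS.disj] at h2
      exact mem_biUnion.2 ⟨i, mem_univ _, mem_filter.2 ⟨hnr, h2⟩⟩
  -- first kind
  have hG1 : (G1.card : ℝ) ≤ (r : ℝ) * rec2 P * N := by
    have h1 : (G1.card : ℝ) ≤ ∑ i : Fin r, ∑ j : Fin k, ∑ pp ∈ ((P j).erase (w j)).offDiag,
        (((range N).filter (fun n => pp.1 ∣ A i * n + B i ∧ pp.2 ∣ A i * n + B i)).card : ℝ) := by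
      have h2 : G1.card ≤ ∑ i : Fin r, ∑ j : Fin k, ∑ pp ∈ ((P j).erase (w j)).offDiag,
          ((range N).filter (fun n => pp.1 ∣ A i * n + B i ∧ pp.2 ∣ A i * n + B i)).card := by
        refine card_biUnion_le.trans (sum_le_sum fun i _ => ?_)
        refine card_biUnion_le.trans (sum_le_sum fun j _ => ?_)
        exact card_biUnion_le
      exact_mod_cast h2
    have h3 : ∀ i : Fin r, ∀ j : Fin k, ∑ pp ∈ ((P j).erase (w j)).offDiag,
        (((range N).filter (fun n => pp.1 ∣ A i * n + B i ∧ pp.2 ∣ A i * n + B i)).card : ℝ) ≤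
        (∑ p ∈ P j, (1 / (p : ℝ))) ^ 2 * N := by
      intro i j
      have h4 : ∀ pp ∈ ((P j).erase (w j)).offDiag,
          (((range N).filter (fun n => pp.1 ∣ A i * n + B i ∧ pp.2 ∣ A i * n + B i)).card : ℝ) ≤
          (N : ℝ) * (1 / (pp.1 : ℝ) * (1 / (pp.2 : ℝ))) := by
        intro pp hpp
        rw [mem_offDiag] at hpp
        have h5 := hD (QQ P w) hpr (A i) (B i) (hgA i) pp.1 ((mem_QQ P w _).2 ⟨j, hpp.1⟩) pp.2
          ((mem_QQ P w _).2 ⟨j, hpp.2.1⟩) hpp.2.2
        rw [hN] at h5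
        exact h5
      refine (sum_le_sum h4).trans ?_
      have h6 : ∑ pp ∈ ((P j).erase (w j)).offDiag, (N : ℝ) * (1 / (pp.1 : ℝ) * (1 / (pp.2 : ℝ))) ≤
          ∑ pp ∈ (P j) ×ˢ (P j), (N : ℝ) * (1 / (pp.1 : ℝ) * (1 / (pp.2 : ℝ))) := by
        refine sum_le_sum_of_subset_of_nonneg ?_ ?_
        · intro pp hpp
          rw [mem_offDiag] at hpp
          exact mem_product.2 ⟨mem_of_mem_erase hpp.1, mem_of_mem_erase hpp.2.1⟩
        · intro pp _ _
          positivity
      refine h6.trans (le_of_eq ?_)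
      rw [← mul_sum, sum_product, sq, sum_mul_sum, mul_comm]
    calc (G1.card : ℝ) ≤ ∑ i : Fin r, ∑ j : Fin k, (∑ p ∈ P j, (1 / (p : ℝ))) ^ 2 * N :=
          h1.trans (sum_le_sum fun i _ => sum_le_sum fun j _ => h3 i j)
      _ = (r : ℝ) * rec2 P * N := by
          rw [sum_const, card_univ, Fintype.card_fin, nsmul_eq_mul, ← sum_mul]
          unfold rec2
          ring
  -- second kind
  have hG2 : (G2.card : ℝ) ≤ (r : ℝ) ^ 2 * an * N := by
    have h1 : (G2.card : ℝ) ≤ ∑ ii ∈ ((univ : Finset (Fin r)).offDiag), (an * N : ℝ) := by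
      have h2 : G2.card ≤ ∑ ii ∈ ((univ : Finset (Fin r)).offDiag), ((range N).filter (fun n =>
          ((QQ P w).filter (fun p => p ∣ A ii.1 * n + B ii.1)).card ≤
            ((QQ P w).filter (fun p => p ∣ A ii.2 * n + B ii.2)).card + T ∧
          ((QQ P w).filter (fun p => p ∣ A ii.2 * n + B ii.2)).card ≤
            ((QQ P w).filter (fun p => p ∣ A ii.1 * n + B ii.1)).card + T)).card := card_biUnion_le
      have h2' : (G2.card : ℝ) ≤ ∑ ii ∈ ((univ : Finset (Fin r)).offDiag), (((range N).filter (fun n =>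
          ((QQ P w).filter (fun p => p ∣ A ii.1 * n + B ii.1)).card ≤
            ((QQ P w).filter (fun p => p ∣ A ii.2 * n + B ii.2)).card + T ∧
          ((QQ P w).filter (fun p => p ∣ A ii.2 * n + B ii.2)).card ≤
            ((QQ P w).filter (fun p => p ∣ A ii.1 * n + B ii.1)).card + T)).card : ℝ) := by
        exact_mod_cast h2
      refine h2'.trans (sum_le_sum fun ii hii => ?_)
      rw [mem_offDiag] at hii
      have h3 := hA (QQ P w) hpr h5 (A ii.1) (B ii.1) (A ii.2) (B ii.2) (hgA ii.1) (hgA ii.2)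
        (hgB ii.1 ii.2 hii.2.2) T q hq
      rw [hN, hsumQ] at h3
      rw [mul_comm]
      exact h3
    have han0 : 0 ≤ an := by rw [han]; positivity
    refine h1.trans ?_
    rw [sum_const, nsmul_eq_mul, offDiag_card, card_univ, Fintype.card_fin]
    have h4 : ((r * r - r : ℕ) : ℝ) ≤ (r : ℝ) ^ 2 := by
      have : (r * r - r : ℕ) ≤ r ^ 2 := by rw [sq]; exact Nat.sub_le _ _
      exact_mod_cast this
    calc ((r * r - r : ℕ) : ℝ) * (an * N) ≤ (r : ℝ) ^ 2 * (an * N) :=
          mul_le_mul_of_nonneg_right h4 (mul_nonneg han0 hrN)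
      _ = _ := by ring
  -- third kind
  have hw0 : 0 ≤ ∑ j, (1 / (w j : ℝ)) := sum_nonneg fun j _ => by positivity
  have hG3 : (G3.card : ℝ) ≤ (r : ℝ) * (rec1 P / S) * N := by
    have h1 : (G3.card : ℝ) ≤ ∑ _i : Fin r, ((rec1 P / S) * N : ℝ) := by
      have h2 : G3.card ≤ ∑ i : Fin r, ((range N).filter (fun n => S ≤
          ((QQ P w).filter (fun p => p ∣ A i * n + B i)).card)).card := card_biUnion_le
      have h2' : (G3.card : ℝ) ≤ ∑ i : Fin r, (((range N).filter (fun n => S ≤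
          ((QQ P w).filter (fun p => p ∣ A i * n + B i)).card)).card : ℝ) := by
        exact_mod_cast h2
      refine h2'.trans (sum_le_sum fun i _ => ?_)
      have h3 := hM (QQ P w) hpr (A i) (B i) (hgA i) S hS1
      rw [hN, hsumQ] at h3
      refine h3.trans ?_
      rw [mul_comm]
      refine mul_le_mul_of_nonneg_right ?_ hrN
      have hS0 : (0 : ℝ) < S := by exact_mod_cast hS1
      gcongr
      linarith
    refine h1.trans (le_of_eq ?_)
    rw [sum_const, card_univ, Fintype.card_fin, nsmul_eq_mul]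
    ring
  have hcard : ((badF A B P T S w).card : ℝ) ≤ G1.card + G2.card + G3.card := by
    have h1 : (badF A B P T S w).card ≤ G1.card + G2.card + G3.card := by
      refine (card_le_card hsub).trans ((card_union_le _ _).trans ?_)
      have := card_union_le G1 G2
      omega
    exact_mod_cast h1
  calc ((badF A B P T S w).card : ℝ) ≤ G1.card + G2.card + G3.card := hcard
    _ ≤ (r : ℝ) * rec2 P * N + (r : ℝ) ^ 2 * an * N + (r : ℝ) * (rec1 P / S) * N := by
        linarith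
    _ = ((r : ℝ) * rec2 P + (r : ℝ) ^ 2 * an + (r : ℝ) * (rec1 P / S)) * N := by ring
    _ ≤ β * N := mul_le_mul_of_nonneg_right hβ hrN

end

end R815.CH
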