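import Mathlib
import Pool.Agent.R815.CH.Stm

namespace R815.CH

open Finset Filter

namespace SysbAux

theorem dil_Nw {k : ℕ} (P : Fin k → Finset ℕ) (w : Fin k → ℕ) (hw : w ∈ Om P) :
    dil w * Nw P w = bigN P := by
  unfold dil Nw bigN
  rw [← Finset.prod_mul_distrib]
  refine Finset.prod_congr rfl (fun j _ => ?_)
  exact Finset.mul_prod_erase (P j) (fun p => p) (Fintype.mem_piFinset.1 hw j)

theorem mu_vals (n : ℕ) : mu n = 0 ∨ mu n = 1 ∨ mu n = -1 := by
  unfold mu
  rcases ArithmeticFunction.moebius_eq_or n with h | h | h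
  · left; rw [h]; norm_num
  · right; left; rw [h]; norm_num
  · right; right; rw [h]; norm_num

theorem abs_mu (n : ℕ) : |mu n| ≤ 1 := by
  rcases mu_vals n with h | h | h <;> rw [h] <;> norm_num

theorem log_bound (x : ℝ) (hx : 1 ≤ x) : Real.log 2 + x * Real.log 3 ≤ 2 * x := by
  have h2 : Real.log 2 < 0.6931471808 := Real.log_two_lt_d9
  have h3 : Real.log 3 ≤ 1 / 2 + Real.log 2 := by
    have h : Real.log 3 = Real.log (3 / 2) + Real.log 2 := by
      rw [← Real.log_mul (by norm_num) (by norm_num)]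
      norm_num
    have h' : Real.log (3 / 2) ≤ 3 / 2 - 1 := Real.log_le_sub_one_of_pos (by norm_num)
    rw [h]
    linarith
  nlinarith

end SysbAux

open SysbAux

theorem t_SYSB : SmM → S_UB → S_LEV → S_VC → S_DEG → S_SYSB := by
  classical
  intro hM hUB hLEV hVC hDEG r k A B P hr hA hsys T S β hβ ε hε
  have : Nonempty (Fin r) := ⟨⟨0, by omega⟩⟩
  obtain ⟨E0, hE0⟩ : ∃ E0 : Finset (Σ _ : Fin k → ℕ, ℕ),
    E0 = (Om P).sigma (fun w => range (Nw P w)) := ⟨_, rfl⟩
  obtain ⟨h, hh⟩ : ∃ h : (Σ _ : Fin k → ℕ, ℕ) → Fin r → ℕ,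
    ∀ e i, h e i = hits P e.1 (A i * e.2 + B i) := ⟨_, fun _ _ => rfl⟩
  obtain ⟨s, hs⟩ : ∃ s : (Σ _ : Fin k → ℕ, ℕ) → Fin r → ℕ × ℕ,
    ∀ e i, s e i = (A i, dil e.1 * (A i * e.2 + B i)) := ⟨_, fun _ _ => rfl⟩
  obtain ⟨z, hz⟩ : ∃ z : ℕ → ℕ × ℕ → ℝ, ∀ m u, z m u = mu (u.1 * bigN P * m + u.2) :=
    ⟨_, fun _ _ => rfl⟩
  obtain ⟨K0, hK0⟩ : ∃ K0 : ℕ, K0 = ∑ i, (A i + B i) := ⟨_, rfl⟩
  choose i0 hi0 using fun e => Finite.exists_min (h e)
  have hmem : ∀ e ∈ E0, e.1 ∈ Om P ∧ e.2 < Nw P e.1 := by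
    intro e he
    rw [hE0, Finset.mem_sigma, Finset.mem_range] at he
    exact he
  have hNpos : 1 ≤ bigN P := by
    unfold bigN
    exact Finset.prod_pos (fun j _ => Finset.prod_pos (fun p hp => (hsys.pr j p hp).pos))
  have hEc : E0.card = Ec P := by
    rw [hE0, Finset.card_sigma]
    unfold Ec
    exact Finset.sum_congr rfl (fun w _ => Finset.card_range _)
  have hzv : ∀ m u, z m u = 0 ∨ z m u = 1 ∨ z m u = -1 := by
    intro m u
    rw [hz]
    exact mu_vals _
  -- good edges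
  obtain ⟨good, hgood⟩ : ∃ good, good = E0.filter (fun e => ¬ Bad A B P T S e.1 e.2) := ⟨_, rfl⟩
  obtain ⟨bad, hbad⟩ : ∃ bad, bad = E0.filter (fun e => Bad A B P T S e.1 e.2) := ⟨_, rfl⟩
  have hgm : ∀ e ∈ good, e ∈ E0 ∧ (∀ i, Dc P (dil e.1 * (A i * e.2 + B i)) = 2 ^ (h e i)) ∧
      h e (i0 e) < S ∧ ∀ i, i ≠ i0 e → h e (i0 e) + T + 1 ≤ h e i := by
    intro e he
    rw [hgood, Finset.mem_filter] at he
    obtain ⟨he0, hnb⟩ := he
    unfold Bad at hnb
    push Not at hnb
    obtain ⟨h1, h2, h3⟩ := hnb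
    refine ⟨he0, fun i => ?_, ?_, fun i hi => ?_⟩
    · rw [hh]
      exact hLEV r k A B P hsys e.1 (hmem e he0).1 _ (h1 i)
    · rw [hh]
      exact h3 _
    · have h4 := hi0 e i
      have h5 := h2 (i0 e) i (Ne.symm hi)
      simp only [← hh] at h5
      have h6 := h5 (by omega)
      omega
  obtain ⟨Ey, hEy⟩ : ∃ Ey : Fin r × ℕ → Finset (Σ _ : Fin k → ℕ, ℕ),
    ∀ y, Ey y = good.filter (fun e => (i0 e, h e (i0 e)) = y) := ⟨_, fun _ => rfl⟩
  obtain ⟨ε', hε'⟩ : ∃ ε' : ℝ, ε' = ε / (r * S + 1) := ⟨_, rfl⟩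
  have hε'0 : 0 < ε' := by rw [hε']; positivity
  -- the claim for a class of edges
  have hclaim : ∀ y : Fin r × ℕ, ∃ M0 : ℕ, ∀ M : ℕ, M0 ≤ M →
      ∑ m ∈ range M, |∑ e ∈ Ey y, ∏ i, z m (s e i)| ≤
        M * (2 * Ec P * Real.sqrt ((r : ℝ) * (K0 : ℝ) / 2 ^ T) + ε') := by
    rintro ⟨j, t⟩
    have hEm : ∀ e ∈ Ey (j, t), e ∈ E0 ∧ (∀ i, Dc P (dil e.1 * (A i * e.2 + B i)) = 2 ^ (h e i)) ∧
        h e j = t ∧ ∀ i, i ≠ j → t + T + 1 ≤ h e i := by
      intro e he
      rw [hEy, Finset.mem_filter, Prod.mk.injEq] at he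
      obtain ⟨he1, he2, he3⟩ := he
      obtain ⟨g1, g2, g3, g4⟩ := hgm e he1
      rw [he2] at he3 g4
      rw [he3] at g4
      exact ⟨g1, g2, he3, g4⟩
    obtain ⟨W, hW⟩ : ∃ W : Finset (ℕ × ℕ), W = (Finset.univ.image A) ×ˢ
      ((range (K0 * bigN P)).filter (fun v => 2 ^ (t + T + 1) ≤ Dc P v)) := ⟨_, rfl⟩
    have hWcard : W.card * 2 ^ (t + T + 1) ≤ r * (K0 * Ec P) := by
      have h1 := hVC r k A B P hsys K0 (t + T + 1)
      have h2 : (Finset.univ.image A).card ≤ r := by
        refine Finset.card_image_le.trans ?_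
        simp
      rw [hW, Finset.card_product]
      calc (Finset.univ.image A).card *
            ((range (K0 * bigN P)).filter (fun v => 2 ^ (t + T + 1) ≤ Dc P v)).card *
              2 ^ (t + T + 1)
          = (Finset.univ.image A).card * (2 ^ (t + T + 1) *
            ((range (K0 * bigN P)).filter (fun v => 2 ^ (t + T + 1) ≤ Dc P v)).card) := by ring
        _ ≤ r * (K0 * Ec P) := Nat.mul_le_mul h2 h1
    have c1 : ∀ e ∈ Ey (j, t), ∀ i, i ≠ j → s e i ∈ W := by
      intro e he i hi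
      obtain ⟨g1, g2, g3, g4⟩ := hEm e he
      obtain ⟨m1, m2⟩ := hmem e g1
      have hN := dil_Nw P e.1 m1
      rw [hs, hW, Finset.mem_product, Finset.mem_filter, Finset.mem_range]
      refine ⟨Finset.mem_image_of_mem A (Finset.mem_univ i), ?_, ?_⟩
      · show dil e.1 * (A i * e.2 + B i) < K0 * bigN P
        have hd : 0 < dil e.1 := by
          rcases Nat.eq_zero_or_pos (dil e.1) with h0 | h0
          · rw [h0, zero_mul] at hN
            omega
          · exact h0
        have e1 : dil e.1 * (e.2 + 1) ≤ bigN P := by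
          rw [← hN]
          exact Nat.mul_le_mul_left _ m2
        have e2 : A i + B i ≤ K0 := by
          rw [hK0]
          exact Finset.single_le_sum (f := fun i => A i + B i) (fun _ _ => Nat.zero_le _)
            (Finset.mem_univ i)
        have e3 : dil e.1 * (A i * e.2 + B i) < (A i + B i) * (dil e.1 * (e.2 + 1)) := by
          have hAi := hA i
          have : (A i + B i) * (dil e.1 * (e.2 + 1)) =
              dil e.1 * (A i * e.2 + B i) + dil e.1 * (A i + B i * e.2) := by ring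
          rw [this]
          have : 0 < dil e.1 * (A i + B i * e.2) := Nat.mul_pos hd (by omega)
          omega
        exact lt_of_lt_of_le e3 (Nat.mul_le_mul e2 e1)
      · show 2 ^ (t + T + 1) ≤ Dc P (dil e.1 * (A i * e.2 + B i))
        rw [g2 i]
        exact Nat.pow_le_pow_right (by norm_num) (g4 i hi)
    have c2 : ∀ e ∈ Ey (j, t), s e j ∉ W := by
      intro e he
      obtain ⟨g1, g2, g3, g4⟩ := hEm e he
      rw [hs, hW, Finset.mem_product, Finset.mem_filter]
      rintro ⟨-, -, h1⟩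
      have h1' : 2 ^ (t + T + 1) ≤ Dc P (dil e.1 * (A j * e.2 + B j)) := h1
      rw [g2 j, g3] at h1'
      have h2 : 2 ^ t < 2 ^ (t + T + 1) := Nat.pow_lt_pow_right (by norm_num) (by omega)
      omega
    have c3 : ∀ u, ((Ey (j, t)).filter (fun e => s e j = u)).card ≤ 2 ^ t := by
      intro u
      rcases ((Ey (j, t)).filter (fun e => s e j = u)).eq_empty_or_nonempty with h0 | ⟨e, he⟩
      · rw [h0]; simp
      · rw [Finset.mem_filter] at he
        obtain ⟨he1, he2⟩ := he
        obtain ⟨g1, g2, g3, g4⟩ := hEm e he1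
        have h1 : Dc P u.2 = 2 ^ t := by
          rw [← he2, hs, ← g3]
          exact g2 j
        rw [← h1]
        refine le_trans (Finset.card_le_card ?_) (hDEG r k A B P hsys j (hA j) u.2)
        intro e' he'
        rw [Finset.mem_filter] at he' ⊢
        refine ⟨?_, ?_⟩
        · have := (hEm e' he'.1).1
          rwa [hE0] at this
        · have := he'.2
          rw [hs] at this
          rw [← this]
    have c4 : ∀ F : Finset (ℕ × ℕ), F ⊆ (Ey (j, t)).image (fun e => s e j) → F.Nonempty →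
        ∀ F' : Finset (ℕ × ℕ), F' ⊆ (Ey (j, t)).image (fun e => s e j) →
        Small (fun m => (∏ u ∈ F, z m u) * ∏ u ∈ F', (z m u) ^ 2) := by
      intro F hF hFn F' hF'
      have hfst : ∀ G : Finset (ℕ × ℕ), G ⊆ (Ey (j, t)).image (fun e => s e j) →
          ∀ u ∈ G, u.1 = A j := by
        intro G hG u hu
        obtain ⟨e, -, he⟩ := Finset.mem_image.1 (hG hu)
        rw [← he, hs]
      have hinj : ∀ G : Finset (ℕ × ℕ), G ⊆ (Ey (j, t)).image (fun e => s e j) →
          Set.InjOn Prod.snd (G : Set (ℕ × ℕ)) := by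
        intro G hG u hu u' hu' huu
        exact Prod.ext ((hfst G hG u hu).trans (hfst G hG u' hu').symm) huu
      have ha : 1 ≤ A j * bigN P := Nat.mul_pos (hA j) hNpos
      have key := hM (A j * bigN P) ha (F.image Prod.snd) (hFn.image _) (F'.image Prod.snd)
      have heq : (fun n => (∏ b ∈ F.image Prod.snd, mu (A j * bigN P * n + b)) *
          ∏ d ∈ F'.image Prod.snd, (mu (A j * bigN P * n + d)) ^ 2) =
          (fun m => (∏ u ∈ F, z m u) * ∏ u ∈ F', (z m u) ^ 2) := by
        funext m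
        rw [Finset.prod_image (hinj F hF), Finset.prod_image (hinj F' hF')]
        congr 1
        · refine Finset.prod_congr rfl (fun u hu => ?_)
          rw [hz, hfst F hF u hu]
        · refine Finset.prod_congr rfl (fun u hu => ?_)
          rw [hz, hfst F' hF' u hu]
      rw [heq] at key
      exact key
    obtain ⟨M0, hM0⟩ := hUB (ℕ × ℕ) (Σ _ : Fin k → ℕ, ℕ) r (Ey (j, t)) s j (2 ^ t) W z hzv c1 c2
      (by intro u; convert c3 u) (by
        intro F hF hFn F' hF'
        exact c4 F (by convert hF) hFn F' (by convert hF')) ε' hε'0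
    refine ⟨M0, fun M hM' => ?_⟩
    have hsq0 : 0 ≤ Real.sqrt ((r : ℝ) * (K0 : ℝ) / 2 ^ T) := Real.sqrt_nonneg _
    have hEc0 : (0 : ℝ) ≤ Ec P := by positivity
    by_cases hWe : W = ∅
    · have hEe : Ey (j, t) = ∅ := by
        rw [Finset.eq_empty_iff_forall_notMem]
        intro e he
        obtain ⟨i, hi⟩ : ∃ i : Fin r, i ≠ j := by
          have : Nontrivial (Fin r) := Fin.nontrivial_iff_two_le.2 hr
          exact exists_ne j
        have := c1 e he i hi
        rw [hWe] at this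
        exact absurd this (Finset.notMem_empty _)
      rw [hEe]
      simp only [Finset.sum_empty, abs_zero, Finset.sum_const_zero]
      positivity
    · refine (hM0 M hM').trans ?_
      refine mul_le_mul_of_nonneg_left ?_ (by positivity)
      have hW1 : (1 : ℝ) ≤ W.card := by
        have : 1 ≤ W.card := Finset.card_pos.2 (Finset.nonempty_iff_ne_empty.2 hWe)
        exact_mod_cast this
      have hE1 : ((Ey (j, t)).card : ℝ) ≤ Ec P := by
        rw [← hEc]
        have : (Ey (j, t)).card ≤ E0.card := Finset.card_le_card (fun e he => (hEm e he).1)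
        exact_mod_cast this
      have hWc : (W.card : ℝ) * 2 ^ (t + T + 1) ≤ r * (K0 * Ec P) := by exact_mod_cast hWcard
      have hlog := log_bound (W.card : ℝ) hW1
      have hmain : 2 * (((2 ^ t : ℕ) : ℝ) * ((Ey (j, t)).card : ℝ)) *
          (Real.log 2 + W.card * Real.log 3) ≤
          (2 * Ec P * Real.sqrt ((r : ℝ) * (K0 : ℝ) / 2 ^ T)) ^ 2 := by
        have e0 : (0 : ℝ) ≤ (r : ℝ) * (K0 : ℝ) / 2 ^ T := by positivity
        rw [mul_pow, mul_pow, Real.sq_sqrt e0]
        have e1 : 2 * (((2 ^ t : ℕ) : ℝ) * ((Ey (j, t)).card : ℝ)) *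
            (Real.log 2 + W.card * Real.log 3) ≤
            2 * (((2 ^ t : ℕ) : ℝ) * (Ec P : ℝ)) * (2 * W.card) := by
          refine mul_le_mul ?_ hlog ?_ (by positivity)
          · refine mul_le_mul_of_nonneg_left ?_ (by norm_num)
            exact mul_le_mul_of_nonneg_left hE1 (by positivity)
          · have := Real.log_nonneg (show (1 : ℝ) ≤ 2 by norm_num)
            have := Real.log_nonneg (show (1 : ℝ) ≤ 3 by norm_num)
            positivity
        refine e1.trans ?_
        have e2 : (2 : ℝ) * (((2 ^ t : ℕ) : ℝ) * (Ec P : ℝ)) * (2 * W.card) =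
            2 * (Ec P : ℝ) * ((W.card : ℝ) * 2 ^ (t + T + 1)) / 2 ^ T := by
          rw [pow_add, pow_add]
          push_cast
          field_simp
        rw [e2]
        have e3 : (2 : ℝ) ^ 2 * (Ec P : ℝ) ^ 2 * ((r : ℝ) * (K0 : ℝ) / 2 ^ T) =
            2 * (Ec P : ℝ) * (2 * ((r : ℝ) * (K0 * Ec P))) / 2 ^ T := by ring
        rw [e3]
        refine div_le_div_of_nonneg_right ?_ (by positivity)
        refine mul_le_mul_of_nonneg_left ?_ (by positivity)
        have : (0 : ℝ) ≤ (r : ℝ) * (K0 * Ec P) := by positivity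
        linarith
      have hsqrt := Real.sqrt_le_sqrt hmain
      rw [Real.sqrt_sq (by positivity)] at hsqrt
      linarith
  choose M0 hM0 using hclaim
  obtain ⟨Y, hY⟩ : ∃ Y : Finset (Fin r × ℕ), Y = Finset.univ ×ˢ range S := ⟨_, rfl⟩
  refine ⟨Y.sup M0, fun M hM' => ?_⟩
  -- pointwise bound
  have hpt : ∀ m, |∑ w ∈ Om P, ∑ n ∈ range (Nw P w),
      ∏ i, mu (A i * bigN P * m + dil w * (A i * n + B i))| ≤
      bad.card + ∑ y ∈ Y, |∑ e ∈ Ey y, ∏ i, z m (s e i)| := by
    intro m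
    have h1 : ∑ w ∈ Om P, ∑ n ∈ range (Nw P w),
        ∏ i, mu (A i * bigN P * m + dil w * (A i * n + B i)) = ∑ e ∈ E0, ∏ i, z m (s e i) := by
      rw [hE0, Finset.sum_sigma]
      refine Finset.sum_congr rfl (fun w _ => Finset.sum_congr rfl (fun n _ => ?_))
      refine Finset.prod_congr rfl (fun i _ => ?_)
      rw [hz, hs]
    rw [h1, ← Finset.sum_filter_add_sum_filter_not E0 (fun e => Bad A B P T S e.1 e.2),
      ← hbad, ← hgood]
    refine (abs_add_le _ _).trans (add_le_add ?_ ?_)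
    · refine (Finset.abs_sum_le_sum_abs _ _).trans ?_
      have : ∀ e ∈ bad, |∏ i, z m (s e i)| ≤ 1 := by
        intro e _
        rw [Finset.abs_prod]
        refine Finset.prod_le_one (fun _ _ => abs_nonneg _) (fun i _ => ?_)
        rw [hz]
        exact abs_mu _
      refine (Finset.sum_le_sum this).trans ?_
      simp
    · have hmaps : ∀ e ∈ good, (i0 e, h e (i0 e)) ∈ Y := by
        intro e he
        rw [hY, Finset.mem_product]
        exact ⟨Finset.mem_univ _, Finset.mem_range.2 (hgm e he).2.2.1⟩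
      rw [← Finset.sum_fiberwise_of_maps_to hmaps]
      refine (Finset.abs_sum_le_sum_abs _ _).trans (Finset.sum_le_sum (fun y _ => ?_))
      rw [hEy]
  have hbadc : (bad.card : ℝ) ≤ β * Ec P := by
    have h1 : bad = (Om P).sigma (fun w => badF A B P T S w) := by
      ext e
      rw [hbad, Finset.mem_filter, hE0, Finset.mem_sigma, Finset.mem_sigma, badF,
        Finset.mem_filter]
      tauto
    rw [h1, Finset.card_sigma]
    push_cast
    unfold Ec
    push_cast
    rw [Finset.mul_sum]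
    exact Finset.sum_le_sum (fun w hw => hβ w hw)
  refine (Finset.sum_le_sum (fun m _ => hpt m)).trans ?_
  rw [Finset.sum_add_distrib, Finset.sum_comm]
  have hY2 : ∑ y ∈ Y, ∑ m ∈ range M, |∑ e ∈ Ey y, ∏ i, z m (s e i)| ≤
      ∑ y ∈ Y, M * (2 * Ec P * Real.sqrt ((r : ℝ) * (K0 : ℝ) / 2 ^ T) + ε') := by
    refine Finset.sum_le_sum (fun y hy => hM0 y M ?_)
    exact (Finset.le_sup hy).trans hM'
  have hYc : (Y.card : ℝ) = r * S := by
    rw [hY, Finset.card_product]
    simp
  rw [Finset.sum_const, nsmul_eq_mul, hYc] at hY2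
  rw [Finset.sum_const, Finset.card_range, nsmul_eq_mul]
  have hrS : (r : ℝ) * S * ε' ≤ ε := by
    rw [hε']
    have : (0 : ℝ) ≤ (r : ℝ) * S := by positivity
    rw [← mul_div_assoc, div_le_iff₀ (by positivity)]
    nlinarith
  have hM1 : (0 : ℝ) ≤ M := by positivity
  have e1 : (M : ℝ) * bad.card ≤ M * (β * Ec P) := mul_le_mul_of_nonneg_left hbadc hM1
  have e2 : (M : ℝ) * (r * S * ε') ≤ M * ε := mul_le_mul_of_nonneg_left hrS hM1
  rw [hK0] at hY2
  nlinarith

end R815.CH

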