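import Mathlib
import Pool.Agent.R815.CH.Stm

namespace R815.CH

open Finset Filter

namespace T1aux

lemma sum_blocks (f : ℕ → ℝ) (N : ℕ) : ∀ M : ℕ,
    ∑ x ∈ range (N * M), f x = ∑ m ∈ range M, ∑ n ∈ range N, f (N * m + n)
  | 0 => by simp
  | M + 1 => by
      rw [Nat.mul_succ, Finset.sum_range_add, sum_blocks f N M, Finset.sum_range_succ]

lemma bigN_eq {k : ℕ} (P : Fin k → Finset ℕ) (w : Fin k → ℕ) (hw : w ∈ Om P) :
    bigN P = dil w * Nw P w := by
  unfold bigN dil Nw
  rw [← Finset.prod_mul_distrib]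
  refine Finset.prod_congr rfl fun j _ => ?_
  have : w j ∈ P j := by
    have := Fintype.mem_piFinset.1 hw
    exact this j
  exact (Finset.mul_prod_erase (P j) (fun p => p) this).symm

lemma mu_abs (n : ℕ) : |mu n| ≤ 1 := by
  unfold mu
  have h := ArithmeticFunction.abs_moebius_le_one (n := n)
  have : |((ArithmeticFunction.moebius n : ℤ) : ℝ)| = ((|ArithmeticFunction.moebius n| : ℤ) : ℝ) := by
    push_cast; rfl
  rw [this]
  exact_mod_cast h

lemma mu_dil_coprime {k : ℕ} (w : Fin k → ℕ) (hp : ∀ j, (w j).Prime)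
    (hinj : ∀ j j', j ≠ j' → w j ≠ w j') (l : ℕ) (hl : ∀ j, ¬ w j ∣ l) :
    mu (dil w * l) = (-1 : ℝ) ^ k * mu l := by
  have hcop : Nat.Coprime (dil w) l := by
    unfold dil
    exact Nat.Coprime.prod_left fun j _ => ((hp j).coprime_iff_not_dvd).2 (hl j)
  have hd : ArithmeticFunction.moebius (dil w) = (-1) ^ k := by
    unfold dil
    rw [ArithmeticFunction.IsMultiplicative.map_prod (g := w)
      ArithmeticFunction.isMultiplicative_moebius Finset.univ]
    · rw [Finset.prod_congr rfl (fun j _ => ArithmeticFunction.moebius_apply_prime (hp j))]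
      simp
    · intro j _ j' _ hjj
      exact (Nat.coprime_primes (hp j) (hp j')).2 (hinj j j' hjj)
  unfold mu
  rw [ArithmeticFunction.isMultiplicative_moebius.map_mul_of_coprime hcop, hd]
  push_cast
  ring

lemma mu_dil_zero {k : ℕ} (w : Fin k → ℕ) (hp : ∀ j, (w j).Prime) (l : ℕ) (j : Fin k)
    (hj : w j ∣ l) : mu (dil w * l) = 0 := by
  unfold mu
  have : ¬ Squarefree (dil w * l) := by
    intro h
    have hd : w j ∣ dil w := Finset.dvd_prod_of_mem w (Finset.mem_univ j)
    have h2 : w j * w j ∣ dil w * l := Nat.mul_dvd_mul hd hj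
    have h3 := h (w j) h2
    exact (hp j).one_lt.ne' (Nat.isUnit_iff.1 h3)
  rw [ArithmeticFunction.moebius_eq_zero_of_not_squarefree this]
  simp

lemma count_le (p : ℕ) (hp : p.Prime) (a b X : ℕ) (ha : ¬ p ∣ a) :
    ((((range X).filter (fun x => p ∣ a * x + b)).card : ℕ) : ℝ) ≤ (X : ℝ) * (1 / (p : ℝ)) + 1 := by
  rcases ((range X).filter (fun x => p ∣ a * x + b)).eq_empty_or_nonempty with h | ⟨x0, hx0⟩
  · rw [h]
    simp
    positivity
  · have hx0' := (Finset.mem_filter.1 hx0).2
    have hsub : (range X).filter (fun x => p ∣ a * x + b) ⊆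
        (range X).filter (fun x => x ≡ x0 [MOD p]) := by
      intro x hx
      rw [Finset.mem_filter] at hx ⊢
      refine ⟨hx.1, ?_⟩
      have h1 : a * x + b ≡ a * x0 + b [MOD p] :=
        ((Nat.modEq_zero_iff_dvd.2 hx.2).trans (Nat.modEq_zero_iff_dvd.2 hx0').symm)
      have h2 : a * x ≡ a * x0 [MOD p] := Nat.ModEq.add_right_cancel' b h1
      have hc : Nat.gcd p a = 1 := (hp.coprime_iff_not_dvd).2 ha
      exact Nat.ModEq.cancel_left_of_coprime hc h2
    have h1 := Finset.card_le_card hsub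
    have h2 : ((range X).filter (fun x => x ≡ x0 [MOD p])).card ≤ X / p + 1 := by
      rw [← Nat.count_eq_card_filter_range, Nat.count_modEq_card _ hp.pos]
      split_ifs <;> omega
    have h3 : (((X / p : ℕ) : ℝ)) ≤ (X : ℝ) / (p : ℝ) := Nat.cast_div_le
    have h4 : ((((range X).filter (fun x => p ∣ a * x + b)).card : ℕ) : ℝ) ≤ ((X / p : ℕ) : ℝ) + 1 := by
      exact_mod_cast h1.trans h2
    rw [mul_one_div]
    linarith

end T1aux

open T1aux in
theorem t_T1 : S_T1 := by
  classical
  intro r k A B P hS w hw M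
  have hmem : ∀ j, w j ∈ P j := fun j => (Fintype.mem_piFinset.1 hw) j
  have hp : ∀ j, (w j).Prime := fun j => hS.pr j _ (hmem j)
  have hinj : ∀ j j', j ≠ j' → w j ≠ w j' := by
    intro j j' hjj h
    have := Finset.disjoint_left.1 (hS.disj j j' hjj) (hmem j)
    exact this (h ▸ hmem j')
  have hN := bigN_eq P w hw
  -- rewrite the double sum
  have hdbl : ∑ m ∈ range M, ∑ n ∈ range (Nw P w),
      ∏ i, mu (A i * bigN P * m + dil w * (A i * n + B i)) =
      ∑ x ∈ range (Nw P w * M), ∏ i, mu (dil w * (A i * x + B i)) := by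
    rw [sum_blocks (fun x => ∏ i, mu (dil w * (A i * x + B i)))]
    refine Finset.sum_congr rfl fun m _ => Finset.sum_congr rfl fun n _ => ?_
    refine Finset.prod_congr rfl fun i _ => ?_
    congr 1
    rw [hN]
    ring
  rw [hdbl, Finset.mul_sum, ← Finset.sum_sub_distrib]
  -- pointwise bound
  have hpt : ∀ x : ℕ, |∏ i, mu (A i * x + B i) -
      (((-1 : ℝ) ^ k) ^ r) * ∏ i, mu (dil w * (A i * x + B i))| ≤
      ∑ i : Fin r, ∑ j : Fin k, (if w j ∣ A i * x + B i then (1 : ℝ) else 0) := by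
    intro x
    by_cases hx : ∃ i : Fin r, ∃ j : Fin k, w j ∣ A i * x + B i
    · obtain ⟨i, j, hij⟩ := hx
      have h0 : ∏ i, mu (dil w * (A i * x + B i)) = 0 :=
        Finset.prod_eq_zero (Finset.mem_univ i) (mu_dil_zero w hp _ j hij)
      rw [h0, mul_zero, sub_zero, Finset.abs_prod]
      have h1 : ∏ i, |mu (A i * x + B i)| ≤ 1 :=
        Finset.prod_le_one (fun i _ => abs_nonneg _) (fun i _ => mu_abs _)
      refine h1.trans ?_
      have h2 : (if w j ∣ A i * x + B i then (1 : ℝ) else 0) ≤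
          ∑ j : Fin k, (if w j ∣ A i * x + B i then (1 : ℝ) else 0) :=
        Finset.single_le_sum (f := fun j => (if w j ∣ A i * x + B i then (1 : ℝ) else 0))
          (fun j _ => by split_ifs <;> norm_num) (Finset.mem_univ j)
      have h3 : ∑ j : Fin k, (if w j ∣ A i * x + B i then (1 : ℝ) else 0) ≤
          ∑ i : Fin r, ∑ j : Fin k, (if w j ∣ A i * x + B i then (1 : ℝ) else 0) :=
        Finset.single_le_sum (f := fun i => ∑ j : Fin k, (if w j ∣ A i * x + B i then (1 : ℝ) else 0))
          (fun i _ => Finset.sum_nonneg fun j _ => by split_ifs <;> norm_num) (Finset.mem_univ i)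
      rw [if_pos hij] at h2
      exact h2.trans h3
    · push Not at hx
      have h0 : ∏ i, mu (dil w * (A i * x + B i)) = (((-1 : ℝ) ^ k) ^ r) * ∏ i, mu (A i * x + B i) := by
        rw [Finset.prod_congr rfl (fun i _ => mu_dil_coprime w hp hinj _ (hx i)),
          Finset.prod_mul_distrib]
        simp
      have hsq : (((-1 : ℝ) ^ k) ^ r) * (((-1 : ℝ) ^ k) ^ r) = 1 := by
        rw [← mul_pow, ← mul_pow]
        norm_num
      rw [h0, ← mul_assoc, hsq, one_mul, sub_self, abs_zero]
      exact Finset.sum_nonneg fun i _ => Finset.sum_nonneg fun j _ => by split_ifs <;> norm_num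
  refine (Finset.abs_sum_le_sum_abs _ _).trans ((Finset.sum_le_sum fun x _ => hpt x).trans ?_)
  rw [Finset.sum_comm]
  have hin : ∀ i : Fin r, ∑ x ∈ range (Nw P w * M), ∑ j : Fin k,
      (if w j ∣ A i * x + B i then (1 : ℝ) else 0) ≤
      (∑ j, (1 / (w j : ℝ))) * (Nw P w * M) + k := by
    intro i
    rw [Finset.sum_comm]
    have hj : ∀ j : Fin k, ∑ x ∈ range (Nw P w * M), (if w j ∣ A i * x + B i then (1 : ℝ) else 0) ≤
        (1 / (w j : ℝ)) * (Nw P w * M) + 1 := by
      intro j
      rw [Finset.sum_boole]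
      have := count_le (w j) (hp j) (A i) (B i) (Nw P w * M) (hS.gA j _ (hmem j) i)
      push_cast at this
      linarith
    refine (Finset.sum_le_sum fun j _ => hj j).trans ?_
    rw [Finset.sum_add_distrib, ← Finset.sum_mul]
    simp
  refine (Finset.sum_le_sum fun i _ => hin i).trans ?_
  simp only [Finset.sum_const, Finset.card_univ, Fintype.card_fin, nsmul_eq_mul]
  apply le_of_eq
  ring

end R815.CH
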