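import Mathlib
import Pool.Agent.R815.CH.Stm

namespace R815.CH

open Finset Filter

noncomputable section

namespace UbAux

def val3 (t : Fin 3) : ℝ := if t = 0 then 0 else if t = 1 then 1 else -1

lemma val3_abs (t : Fin 3) : |val3 t| ≤ 1 := by
  fin_cases t <;> simp [val3]

def ext {V : Type} [DecidableEq V] (W : Finset V) (y : W → Fin 3) (v : V) : ℝ :=
  if h : v ∈ W then val3 (y ⟨v, h⟩) else 0

lemma ext_abs {V : Type} [DecidableEq V] (W : Finset V) (y : W → Fin 3) (v : V) :
    |ext W y v| ≤ 1 := by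
  unfold ext
  split_ifs with h
  · exact val3_abs _
  · simp

lemma exists_ext {V : Type} [DecidableEq V] (W : Finset V) (z : V → ℝ)
    (hz : ∀ u, z u = 0 ∨ z u = 1 ∨ z u = -1) :
    ∃ y : W → Fin 3, ∀ v ∈ W, ext W y v = z v := by
  classical
  refine ⟨fun v => if z v = 0 then 0 else if z v = 1 then 1 else 2, ?_⟩
  intro v hv
  unfold ext
  rw [dif_pos hv]
  rcases hz v with h | h | h
  · simp [h, val3]
  · simp [h, val3]
  · have h0 : ¬ (z v = 0) := by rw [h]; norm_num
    have h1 : ¬ (z v = 1) := by rw [h]; norm_num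
    simp only [h0, h1, if_false]
    simp [val3, h]

/-- coefficient of a vertex for a pattern -/
def cf {V E' : Type} [DecidableEq V] [DecidableEq E'] {r : ℕ} (E : Finset E')
    (s : E' → Fin r → V) (i0 : Fin r) (W : Finset V) (y : W → Fin 3) (u : V) : ℝ :=
  ∑ e ∈ E.filter (fun e => s e i0 = u), ∏ i ∈ univ.erase i0, ext W y (s e i)

lemma cf_abs {V E' : Type} [DecidableEq V] [DecidableEq E'] {r : ℕ} (E : Finset E')
    (s : E' → Fin r → V) (i0 : Fin r) (W : Finset V) (y : W → Fin 3) (u : V) :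
    |cf E s i0 W y u| ≤ ((E.filter (fun e => s e i0 = u)).card : ℝ) := by
  unfold cf
  refine (abs_sum_le_sum_abs _ _).trans ?_
  refine (sum_le_card_nsmul _ _ 1 ?_).trans (by simp)
  intro e _
  rw [abs_prod]
  exact prod_le_one (fun _ _ => abs_nonneg _) (fun _ _ => ext_abs _ _ _)

lemma cf_sq_sum {V E' : Type} [DecidableEq V] [DecidableEq E'] {r : ℕ} (E : Finset E')
    (s : E' → Fin r → V) (i0 : Fin r) (W : Finset V) (y : W → Fin 3) (d : ℕ)
    (hd : ∀ u, (E.filter (fun e => s e i0 = u)).card ≤ d) :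
    ∑ u ∈ E.image (fun e => s e i0), cf E s i0 W y u ^ 2 ≤ (d : ℝ) * E.card := by
  have h1 : ∀ u ∈ E.image (fun e => s e i0),
      cf E s i0 W y u ^ 2 ≤ (d : ℝ) * ((E.filter (fun e => s e i0 = u)).card : ℝ) := by
    intro u _
    have h := cf_abs E s i0 W y u
    have h2 : ((E.filter (fun e => s e i0 = u)).card : ℝ) ≤ d := by exact_mod_cast hd u
    have h3 : (0 : ℝ) ≤ ((E.filter (fun e => s e i0 = u)).card : ℝ) := by positivity
    have h4 : (0 : ℝ) ≤ |cf E s i0 W y u| := abs_nonneg _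
    rw [← sq_abs, sq]
    exact mul_le_mul (h.trans h2) h h4 (h3.trans h2)
  refine (sum_le_sum h1).trans ?_
  rw [← mul_sum]
  have h5 : ∑ u ∈ E.image (fun e => s e i0), ((E.filter (fun e => s e i0 = u)).card : ℝ)
      = E.card := by
    rw [Finset.card_eq_sum_card_image (fun e => s e i0) E]
    push_cast
    rfl
  rw [h5]

lemma sum_eq {V E' : Type} [DecidableEq V] [DecidableEq E'] {r : ℕ} (E : Finset E')
    (s : E' → Fin r → V) (i0 : Fin r) (W : Finset V) (y : W → Fin 3) (z : V → ℝ)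
    (hW : ∀ e ∈ E, ∀ i, i ≠ i0 → s e i ∈ W)
    (hy : ∀ v ∈ W, ext W y v = z v) :
    ∑ e ∈ E, ∏ i, z (s e i) = ∑ u ∈ E.image (fun e => s e i0), z u * cf E s i0 W y u := by
  rw [← sum_fiberwise_of_maps_to (g := fun e => s e i0) (t := E.image (fun e => s e i0))
    (fun e he => mem_image_of_mem _ he)]
  refine sum_congr rfl fun u _ => ?_
  rw [cf, mul_sum]
  refine sum_congr rfl fun e he => ?_
  rw [mem_filter] at he
  rw [← mul_prod_erase univ _ (mem_univ i0), he.2]
  congr 1
  refine prod_congr rfl fun i hi => ?_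
  rw [hy _ (hW e he.1 i (ne_of_mem_erase hi))]

lemma log_ineq (t L : ℝ) : t ≤ 2 * L - 1 + Real.exp (-(2 * L)) * Real.exp t := by
  have h := Real.add_one_le_exp (t - 2 * L)
  have h2 : Real.exp (t - 2 * L) = Real.exp (-(2 * L)) * Real.exp t := by
    rw [← Real.exp_add]
    congr 1
    ring
  linarith

end UbAux

open UbAux in
theorem t_UB : S_EXPM → S_UB := by
  intro hEXPM V E' _ _ r E s i0 d W z hz hW hnW hdeg hsm ε hε
  by_cases hE : E = ∅
  · refine ⟨0, fun M _ => ?_⟩
    subst hE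
    simp only [sum_empty, abs_zero, sum_const_zero]
    positivity
  have hEne : E.Nonempty := nonempty_iff_ne_empty.2 hE
  have hEpos : 0 < E.card := card_pos.2 hEne
  have hdpos : 0 < d := by
    obtain ⟨e, he⟩ := hEne
    have h1 := hdeg (s e i0)
    have h2 : 0 < (E.filter (fun e' => s e' i0 = s e i0)).card :=
      card_pos.2 ⟨e, mem_filter.2 ⟨he, rfl⟩⟩
    omega
  obtain ⟨Vv, hVdef⟩ : ∃ Vv : ℝ, Vv = (d : ℝ) * E.card := ⟨_, rfl⟩
  have hV : 0 < Vv := by rw [hVdef]; positivity
  obtain ⟨L, hLdef⟩ : ∃ L : ℝ, L = Real.log 2 + W.card * Real.log 3 := ⟨_, rfl⟩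
  have hlog2 : 0 < Real.log 2 := Real.log_pos (by norm_num)
  have hlog3 : 0 < Real.log 3 := Real.log_pos (by norm_num)
  have hL : 0 < L := by rw [hLdef]; positivity
  have hexpL : Real.exp L = 2 * (3 : ℝ) ^ W.card := by
    rw [hLdef, Real.exp_add, Real.exp_log (by norm_num), Real.exp_nat_mul, Real.exp_log (by norm_num)]
  have hexpL1 : 1 ≤ Real.exp L := Real.one_le_exp hL.le
  obtain ⟨lam, hlamdef⟩ : ∃ lam : ℝ, lam = Real.sqrt (2 * L / Vv) := ⟨_, rfl⟩
  have hlam : 0 < lam := by rw [hlamdef]; exact Real.sqrt_pos.2 (by positivity)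
  have hlam2 : lam ^ 2 = 2 * L / Vv := by rw [hlamdef]; exact Real.sq_sqrt (by positivity)
  have hlamV : lam ^ 2 * Vv = 2 * L := by rw [hlam2]; field_simp
  have hcardY : (Fintype.card (W → Fin 3) : ℝ) = (3 : ℝ) ^ W.card := by
    rw [Fintype.card_fun, Fintype.card_fin, Fintype.card_coe]
    push_cast
    rfl
  have key : ∀ (sg : ℝ), sg ^ 2 = lam ^ 2 → ∀ y : W → Fin 3, ∃ M0 : ℕ, ∀ M : ℕ, M0 ≤ M →
      ∑ m ∈ range M, Real.exp (∑ u ∈ E.image (fun e => s e i0), z m u * (sg * cf E s i0 W y u))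
        ≤ M * (Real.exp L + ε * lam) := by
    intro sg hsg y
    obtain ⟨M0, hM0⟩ := hEXPM V (E.image (fun e => s e i0)) (fun u => sg * cf E s i0 W y u) z hz hsm
      (ε * lam) (by positivity)
    refine ⟨M0, fun M hM => (hM0 M hM).trans ?_⟩
    have h1 : (∑ u ∈ E.image (fun e => s e i0), (sg * cf E s i0 W y u) ^ 2) / 2 ≤ L := by
      have h2 : ∑ u ∈ E.image (fun e => s e i0), (sg * cf E s i0 W y u) ^ 2
          = lam ^ 2 * ∑ u ∈ E.image (fun e => s e i0), cf E s i0 W y u ^ 2 := by
        rw [mul_sum]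
        refine sum_congr rfl fun u _ => ?_
        rw [mul_pow, hsg]
      have h3 := cf_sq_sum E s i0 W y d hdeg
      rw [← hVdef] at h3
      have h4 : lam ^ 2 * ∑ u ∈ E.image (fun e => s e i0), cf E s i0 W y u ^ 2 ≤ lam ^ 2 * Vv :=
        mul_le_mul_of_nonneg_left h3 (by positivity)
      rw [h2]
      linarith
    have h5 := Real.exp_le_exp.2 h1
    have h6 : (0 : ℝ) ≤ M := by positivity
    exact mul_le_mul_of_nonneg_left (by linarith) h6
  choose M1 hM1 using key lam rfl
  choose M2 hM2 using key (-lam) (by ring)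
  refine ⟨max (∑ y, M1 y) (∑ y, M2 y), fun M hM => ?_⟩
  have hMM1 : ∀ y, M1 y ≤ M := fun y =>
    (single_le_sum (f := M1) (fun _ _ => Nat.zero_le _) (mem_univ y)).trans ((le_max_left _ _).trans hM)
  have hMM2 : ∀ y, M2 y ≤ M := fun y =>
    (single_le_sum (f := M2) (fun _ _ => Nat.zero_le _) (mem_univ y)).trans ((le_max_right _ _).trans hM)
  -- pointwise inequality
  have hpt : ∀ m, lam * |∑ e ∈ E, ∏ i, z m (s e i)| ≤ (2 * L - 1) + Real.exp (-(2 * L)) *
      ∑ y : W → Fin 3, (Real.exp (∑ u ∈ E.image (fun e => s e i0), z m u * (lam * cf E s i0 W y u)) +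
        Real.exp (∑ u ∈ E.image (fun e => s e i0), z m u * (-lam * cf E s i0 W y u))) := by
    intro m
    obtain ⟨y, hy⟩ := exists_ext W (z m) (hz m)
    have hs := sum_eq E s i0 W y (z m) hW hy
    rw [hs]
    obtain ⟨X, hX⟩ : ∃ X : ℝ, X = ∑ u ∈ E.image (fun e => s e i0), z m u * cf E s i0 W y u := ⟨_, rfl⟩
    rw [← hX]
    have h1 := log_ineq (lam * |X|) L
    have h2 : Real.exp (lam * |X|) ≤
        Real.exp (∑ u ∈ E.image (fun e => s e i0), z m u * (lam * cf E s i0 W y u)) +
        Real.exp (∑ u ∈ E.image (fun e => s e i0), z m u * (-lam * cf E s i0 W y u)) := by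
      have e1 : ∑ u ∈ E.image (fun e => s e i0), z m u * (lam * cf E s i0 W y u) = lam * X := by
        rw [hX, mul_sum]
        refine sum_congr rfl fun u _ => ?_
        ring
      have e2 : ∑ u ∈ E.image (fun e => s e i0), z m u * (-lam * cf E s i0 W y u) = lam * (-X) := by
        rw [hX, ← sum_neg_distrib, mul_sum]
        refine sum_congr rfl fun u _ => ?_
        ring
      rw [e1, e2]
      rcases abs_cases X with h | h
      · rw [h.1]
        linarith [Real.exp_pos (lam * (-X))]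
      · rw [h.1]
        linarith [Real.exp_pos (lam * X)]
    have h3 : Real.exp (∑ u ∈ E.image (fun e => s e i0), z m u * (lam * cf E s i0 W y u)) +
        Real.exp (∑ u ∈ E.image (fun e => s e i0), z m u * (-lam * cf E s i0 W y u)) ≤
        ∑ y : W → Fin 3, (Real.exp (∑ u ∈ E.image (fun e => s e i0), z m u * (lam * cf E s i0 W y u)) +
        Real.exp (∑ u ∈ E.image (fun e => s e i0), z m u * (-lam * cf E s i0 W y u))) :=
      single_le_sum (f := fun y : W → Fin 3 =>
        (Real.exp (∑ u ∈ E.image (fun e => s e i0), z m u * (lam * cf E s i0 W y u)) +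
        Real.exp (∑ u ∈ E.image (fun e => s e i0), z m u * (-lam * cf E s i0 W y u))))
        (fun _ _ => by positivity) (mem_univ y)
    have h4 := mul_le_mul_of_nonneg_left (h2.trans h3) (Real.exp_pos (-(2 * L))).le
    linarith
  -- summation
  have hsum : lam * ∑ m ∈ range M, |∑ e ∈ E, ∏ i, z m (s e i)| ≤
      M * (2 * L - 1) + Real.exp (-(2 * L)) * (2 * (3 : ℝ) ^ W.card * (M * (Real.exp L + ε * lam))) := by
    rw [mul_sum]
    refine (sum_le_sum fun m _ => hpt m).trans ?_
    rw [sum_add_distrib, sum_const, card_range, nsmul_eq_mul, ← mul_sum]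
    have h1 : ∑ m ∈ range M, ∑ y : W → Fin 3,
        (Real.exp (∑ u ∈ E.image (fun e => s e i0), z m u * (lam * cf E s i0 W y u)) +
        Real.exp (∑ u ∈ E.image (fun e => s e i0), z m u * (-lam * cf E s i0 W y u))) ≤
        2 * (3 : ℝ) ^ W.card * (M * (Real.exp L + ε * lam)) := by
      rw [sum_comm]
      have h2 : ∀ y : W → Fin 3, ∑ m ∈ range M,
          (Real.exp (∑ u ∈ E.image (fun e => s e i0), z m u * (lam * cf E s i0 W y u)) +
          Real.exp (∑ u ∈ E.image (fun e => s e i0), z m u * (-lam * cf E s i0 W y u))) ≤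
          2 * (M * (Real.exp L + ε * lam)) := by
        intro y
        rw [sum_add_distrib]
        have h3 := hM1 y M (hMM1 y)
        have h4 := hM2 y M (hMM2 y)
        linarith
      refine (sum_le_sum fun y _ => h2 y).trans ?_
      rw [sum_const, card_univ, nsmul_eq_mul, hcardY]
      apply le_of_eq
      ring
    have h5 := mul_le_mul_of_nonneg_left h1 (Real.exp_pos (-(2 * L))).le
    linarith
  have hfin : lam * ∑ m ∈ range M, |∑ e ∈ E, ∏ i, z m (s e i)| ≤
      M * (2 * L + ε * lam) := by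
    refine hsum.trans ?_
    rw [← hexpL]
    have h1 : Real.exp (-(2 * L)) * (Real.exp L * (M * (Real.exp L + ε * lam)))
        = M * (1 + Real.exp (-L) * (ε * lam)) := by
      have h2 : Real.exp (-(2 * L)) = Real.exp (-L) * Real.exp (-L) := by
        rw [← Real.exp_add]
        congr 1
        ring
      have h3 : Real.exp (-L) * Real.exp L = 1 := by
        rw [← Real.exp_add]
        simp
      rw [h2]
      calc Real.exp (-L) * Real.exp (-L) * (Real.exp L * (M * (Real.exp L + ε * lam)))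
          = M * ((Real.exp (-L) * Real.exp L) * (Real.exp (-L) * Real.exp L)
              + (Real.exp (-L) * Real.exp L) * (Real.exp (-L) * (ε * lam))) := by ring
        _ = M * (1 + Real.exp (-L) * (ε * lam)) := by rw [h3]; ring
    rw [h1]
    have h4 : Real.exp (-L) ≤ 1 := by
      rw [Real.exp_le_one_iff]
      linarith
    have h5 : Real.exp (-L) * (ε * lam) ≤ ε * lam := by
      have : 0 < ε * lam := by positivity
      nlinarith
    have h6 : (0 : ℝ) ≤ M := by positivity
    have h7 := mul_le_mul_of_nonneg_left h5 h6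
    nlinarith
  have hsq : lam * Real.sqrt (2 * (d * E.card) * (Real.log 2 + W.card * Real.log 3)) = 2 * L := by
    rw [← hVdef, ← hLdef, hlamdef, ← Real.sqrt_mul (by positivity)]
    rw [show 2 * L / Vv * (2 * Vv * L) = (2 * L) ^ 2 by field_simp]
    exact Real.sqrt_sq (by positivity)
  have hfin2 : lam * ∑ m ∈ range M, |∑ e ∈ E, ∏ i, z m (s e i)| ≤
      lam * (M * (Real.sqrt (2 * (d * E.card) * (Real.log 2 + W.card * Real.log 3)) + ε)) := by
    refine hfin.trans (le_of_eq ?_)
    rw [← hsq]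
    ring
  exact le_of_mul_le_mul_left hfin2 hlam

end

end R815.CH
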