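import Mathlib
import Pool.Agent.R815.CH.Stm

namespace R815.CH

open Finset

namespace VC

variable {r k : ℕ} {A B : Fin r → ℕ} {P : Fin k → Finset ℕ}

theorem dc_le (hS : Sys A B P) (v : ℕ) :
    Dc P v ≤ ((Om P).filter (fun w => dil w ∣ v)).card := by
  unfold Dc
  rw [← Fintype.card_piFinset]
  apply Finset.card_le_card
  intro w hw
  rw [Fintype.mem_piFinset] at hw
  have hw' : ∀ j, w j ∈ P j ∧ w j ∣ v := fun j => Finset.mem_filter.1 (hw j)
  rw [Finset.mem_filter]
  refine ⟨?_, ?_⟩
  · unfold Om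
    rw [Fintype.mem_piFinset]
    exact fun j => (hw' j).1
  · unfold dil
    apply Finset.prod_dvd_of_isRelPrime
    · intro i _ j _ hij
      have h1 : w i ≠ w j := by
        intro h
        have h2 := Finset.disjoint_left.1 (hS.disj i j hij) (hw' i).1
        rw [h] at h2
        exact h2 (hw' j).1
      exact Nat.coprime_iff_isRelPrime.1
        ((Nat.coprime_primes (hS.pr i _ (hw' i).1) (hS.pr j _ (hw' j).1)).2 h1)
    · intro i _
      exact (hw' i).2

theorem bigN_eq {w : Fin k → ℕ} (hw : w ∈ Om P) : bigN P = dil w * Nw P w := by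
  unfold bigN dil Nw
  rw [← Finset.prod_mul_distrib]
  refine Finset.prod_congr rfl fun j _ => ?_
  have : w j ∈ P j := Fintype.mem_piFinset.1 hw j
  exact (Finset.mul_prod_erase (P j) (fun p => p) this).symm

theorem mult_le {w : Fin k → ℕ} (hw : w ∈ Om P) (K : ℕ) :
    ((range (K * bigN P)).filter (fun v => dil w ∣ v)).card ≤ K * Nw P w := by
  have hsub : (range (K * bigN P)).filter (fun v => dil w ∣ v) ⊆
      (range (K * Nw P w)).image (fun q => dil w * q) := by
    intro v hv
    rw [Finset.mem_filter, Finset.mem_range] at hv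
    obtain ⟨h1, q, rfl⟩ := hv
    rw [Finset.mem_image]
    refine ⟨q, ?_, rfl⟩
    rw [Finset.mem_range]
    rw [bigN_eq hw, Nat.mul_left_comm] at h1
    exact Nat.lt_of_mul_lt_mul_left h1
  calc _ ≤ _ := Finset.card_le_card hsub
    _ ≤ (range (K * Nw P w)).card := Finset.card_image_le
    _ = K * Nw P w := Finset.card_range _

end VC

theorem t_VC : S_VC := by
  intro r k A B P hS K t
  calc 2 ^ t * ((range (K * bigN P)).filter (fun v => 2 ^ t ≤ Dc P v)).card
      = ∑ _v ∈ (range (K * bigN P)).filter (fun v => 2 ^ t ≤ Dc P v), 2 ^ t := by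
        rw [Finset.sum_const, smul_eq_mul, mul_comm]
    _ ≤ ∑ v ∈ (range (K * bigN P)).filter (fun v => 2 ^ t ≤ Dc P v), Dc P v :=
        Finset.sum_le_sum fun v hv => (Finset.mem_filter.1 hv).2
    _ ≤ ∑ v ∈ range (K * bigN P), Dc P v :=
        Finset.sum_le_sum_of_subset (Finset.filter_subset _ _)
    _ ≤ ∑ v ∈ range (K * bigN P), ((Om P).filter (fun w => dil w ∣ v)).card :=
        Finset.sum_le_sum fun v _ => VC.dc_le hS v
    _ = ∑ w ∈ Om P, ((range (K * bigN P)).filter (fun v => dil w ∣ v)).card := by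
        simp_rw [Finset.card_filter]
        exact Finset.sum_comm
    _ ≤ ∑ w ∈ Om P, K * Nw P w := Finset.sum_le_sum fun w hw => VC.mult_le hw K
    _ = K * Ec P := by
        unfold Ec
        rw [Finset.mul_sum]

end R815.CH
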